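import Mathlib

set_option autoImplicit false

/-! # A separated subset with almost the same exponent of convergence -/

open Filter Set
open scoped Topology

namespace Pool.Agent.R529.SM

/-- the greedy separated subsequence of `E` -/
noncomputable def gre (E : Set ℕ) (H : ℕ → ℕ) (x₀ : ℕ) : ℕ → ℕ
  | 0 => sInf {x | x ∈ E ∧ x₀ ≤ x}
  | j + 1 => sInf {x | x ∈ E ∧ gre E H x₀ j + H (gre E H x₀ j) + 1 ≤ x}

variable {E : Set ℕ} (hE : E.Infinite) (H : ℕ → ℕ) (x₀ : ℕ)

include hE in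
lemma nonempty_above (y : ℕ) : {x | x ∈ E ∧ y ≤ x}.Nonempty := by
  obtain ⟨x, hx, hyx⟩ := hE.exists_gt y
  exact ⟨x, hx, hyx.le⟩

include hE in
lemma gre_mem (j : ℕ) : gre E H x₀ j ∈ E := by
  rcases j with _ | j
  · exact (Nat.sInf_mem (nonempty_above hE x₀)).1
  · exact (Nat.sInf_mem (nonempty_above hE _)).1

include hE in
lemma gre_zero_ge : x₀ ≤ gre E H x₀ 0 := (Nat.sInf_mem (nonempty_above hE x₀)).2

include hE in
lemma gre_step (j : ℕ) : gre E H x₀ j + H (gre E H x₀ j) + 1 ≤ gre E H x₀ (j + 1) :=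
  (Nat.sInf_mem (nonempty_above hE (gre E H x₀ j + H (gre E H x₀ j) + 1))).2

lemma gre_cover {j x : ℕ} (hx : x ∈ E) (hlt : x < gre E H x₀ (j + 1)) :
    x ≤ gre E H x₀ j + H (gre E H x₀ j) := by
  by_contra hcon
  have : gre E H x₀ (j + 1) ≤ x := Nat.sInf_le (m := x) ⟨hx, by omega⟩
  omega

include hE in
lemma gre_mono : StrictMono (gre E H x₀) := strictMono_nat_of_lt_succ fun j => by
  have := gre_step hE H x₀ j
  omega

include hE in
/-- the divergence of the sum is inherited -/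
theorem gre_div (hx₀ : 1 ≤ x₀) {s t C : ℝ} (hC : 0 ≤ C) (ht : 0 < t) (hst : t < s)
    (hH : ∀ x : ℕ, 1 ≤ x → (H x : ℝ) + 1 ≤ C * (x : ℝ) ^ (s - t))
    (hdiv : ¬ Summable (fun x : E => ((x : ℕ) : ℝ) ^ (-s))) :
    ¬ Summable (fun j : ℕ => ((gre E H x₀ j : ℕ) : ℝ) ^ (-t)) := by
  intro hsum
  apply hdiv
  set g := gre E H x₀ with hg
  set f : ℕ → ℝ := E.indicator (fun x => ((x : ℕ) : ℝ) ^ (-s)) with hf
  have hf0 : ∀ x, 0 ≤ f x := fun x => indicator_nonneg (fun y _ => by positivity) x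
  have hmono := gre_mono hE H x₀
  have hg1 : ∀ j, 1 ≤ g j := fun j => hx₀.trans ((gre_zero_ge hE H x₀).trans (hmono.monotone (Nat.zero_le j)))
  have key : Summable f := by
    apply summable_of_sum_range_le (c := (∑ x ∈ Finset.range (g 0), f x) + C * ∑' j, ((g j : ℕ) : ℝ) ^ (-t)) hf0
    have hblock : ∀ j, ∑ x ∈ Finset.Ico (g j) (g (j + 1)), f x ≤ C * ((g j : ℕ) : ℝ) ^ (-t) := by
      intro j
      have hgp : (0 : ℝ) < g j := by exact_mod_cast hg1 j
      have h1 : ∑ x ∈ Finset.Ico (g j) (g (j + 1)), f x ≤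
          ∑ x ∈ Finset.Ico (g j) (g (j + 1)), (if x ≤ g j + H (g j) then ((g j : ℕ) : ℝ) ^ (-s) else 0) := by
        apply Finset.sum_le_sum
        intro x hx
        obtain ⟨hx1, hx2⟩ := Finset.mem_Ico.1 hx
        by_cases hxE : x ∈ E
        · have h2 := gre_cover H x₀ hxE hx2
          rw [if_pos h2, hf, indicator_of_mem hxE]
          exact Real.rpow_le_rpow_of_nonpos hgp (by exact_mod_cast hx1) (by linarith)
        · rw [hf, indicator_of_notMem hxE]
          split_ifs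
          · positivity
          · exact le_rfl
      refine h1.trans ?_
      rw [← Finset.sum_filter, Finset.sum_const, nsmul_eq_mul]
      have h2 : ((Finset.filter (fun x => x ≤ g j + H (g j)) (Finset.Ico (g j) (g (j + 1)))).card : ℝ) ≤ (H (g j) : ℝ) + 1 := by
        have h3 : Finset.filter (fun x => x ≤ g j + H (g j)) (Finset.Ico (g j) (g (j + 1))) ⊆ Finset.Icc (g j) (g j + H (g j)) := by
          intro x hx
          obtain ⟨h4, h5⟩ := Finset.mem_filter.1 hx
          exact Finset.mem_Icc.2 ⟨(Finset.mem_Ico.1 h4).1, h5⟩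
        have h4 := Finset.card_le_card h3
        rw [Nat.card_Icc] at h4
        have h5 : (Finset.filter (fun x => x ≤ g j + H (g j)) (Finset.Ico (g j) (g (j + 1)))).card ≤ H (g j) + 1 := by omega
        exact_mod_cast h5
      calc _ ≤ ((H (g j) : ℝ) + 1) * ((g j : ℕ) : ℝ) ^ (-s) := mul_le_mul_of_nonneg_right h2 (by positivity)
        _ ≤ (C * ((g j : ℕ) : ℝ) ^ (s - t)) * ((g j : ℕ) : ℝ) ^ (-s) := mul_le_mul_of_nonneg_right (hH _ (hg1 j)) (by positivity)
        _ = C * ((g j : ℕ) : ℝ) ^ (-t) := by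
          rw [mul_assoc, ← Real.rpow_add hgp]
          congr 2
          ring
    have hpart : ∀ N, ∑ x ∈ Finset.range (g N), f x ≤ (∑ x ∈ Finset.range (g 0), f x) + ∑ j ∈ Finset.range N, C * ((g j : ℕ) : ℝ) ^ (-t) := by
      intro N
      induction N with
      | zero => simp
      | succ N ih =>
        have h1 : ∑ x ∈ Finset.range (g (N + 1)), f x = ∑ x ∈ Finset.range (g N), f x + ∑ x ∈ Finset.Ico (g N) (g (N + 1)), f x := by
          rw [Finset.range_eq_Ico, Finset.range_eq_Ico, Finset.sum_Ico_consecutive _ (Nat.zero_le _) (hmono.monotone (Nat.le_succ N))]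
        rw [h1, Finset.sum_range_succ]
        have := hblock N
        linarith
    intro n
    have hn : n ≤ g n := hmono.le_apply
    have h1 : ∑ x ∈ Finset.range n, f x ≤ ∑ x ∈ Finset.range (g n), f x :=
      Finset.sum_le_sum_of_subset_of_nonneg (Finset.range_mono hn) fun x _ _ => hf0 x
    refine (h1.trans (hpart n)).trans ?_
    have h2 : ∑ j ∈ Finset.range n, C * ((g j : ℕ) : ℝ) ^ (-t) ≤ C * ∑' j, ((g j : ℕ) : ℝ) ^ (-t) := by
      rw [← Finset.mul_sum]
      apply mul_le_mul_of_nonneg_left _ hC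
      exact hsum.sum_le_tsum _ fun j _ => by positivity
    linarith
  exact summable_subtype_iff_indicator.2 key

/-- logarithms are smaller than powers -/
lemma log_sq_le {c η : ℝ} (hc : 0 ≤ c) (hη : 0 < η) (x : ℕ) (hx : 1 ≤ x) :
    c * Real.log x ^ 2 + 1 ≤ (4 * c / η ^ 2 + 1) * (x : ℝ) ^ η := by
  have hx' : (1 : ℝ) ≤ x := by exact_mod_cast hx
  have h1 : Real.log x ≤ (x : ℝ) ^ (η / 2) / (η / 2) := Real.log_le_rpow_div (by positivity) (by positivity)
  have h2 : 0 ≤ Real.log x := Real.log_nonneg hx'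
  have h3 : Real.log x ^ 2 ≤ ((x : ℝ) ^ (η / 2) / (η / 2)) ^ 2 := pow_le_pow_left₀ h2 h1 2
  have h4 : ((x : ℝ) ^ (η / 2) / (η / 2)) ^ 2 = 4 / η ^ 2 * (x : ℝ) ^ η := by
    rw [div_pow, ← Real.rpow_natCast, ← Real.rpow_mul (by positivity)]
    have : η / 2 * ((2 : ℕ) : ℝ) = η := by push_cast; ring
    rw [this]
    field_simp
    ring
  rw [h4] at h3
  have h5 : (1 : ℝ) ≤ (x : ℝ) ^ η := Real.one_le_rpow hx' hη.le
  have h6 := mul_le_mul_of_nonneg_left h3 hc
  calc c * Real.log x ^ 2 + 1 ≤ c * (4 / η ^ 2 * (x : ℝ) ^ η) + (x : ℝ) ^ η := by linarith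
    _ = (4 * c / η ^ 2 + 1) * (x : ℝ) ^ η := by ring

end Pool.Agent.R529.SM
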