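import Mathlib
import Pool.Agent.R529.SM.L2
import Pool.Agent.R529.SM.L3

set_option autoImplicit false
set_option linter.unusedSectionVars false
set_option linter.unusedVariables false

/-! # Members in intervals of length `c (log x)²`, `x` in an arbitrary set -/

open MeasureTheory Filter Set
open scoped ENNReal Topology

namespace Pool.Agent.R529.SM

open Pool.Agent.R528.RM

variable {Ω : Type} {m0 : MeasurableSpace Ω} {μ : Measure Ω} [IsProbabilityMeasure μ]
  {ℱ : Filtration ℕ m0} {A : ℕ → Set Ω}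

/-- the length of the window: the integers `m` with `x < m < x + c (log x)²` are the `x + i`,
`1 ≤ i ≤ hh c x` -/
noncomputable def hh (c : ℝ) (x : ℕ) : ℕ := ⌈c * Real.log x ^ 2⌉₊ - 1

lemma tendsto_logsq : Tendsto (fun x : ℕ => Real.log x ^ 2) atTop atTop :=
  (tendsto_pow_atTop (n := 2) two_ne_zero).comp tendsto_log

lemma hh_lim {c : ℝ} (hc : 0 < c) : Tendsto (fun x : ℕ => (hh c x : ℝ) / Real.log x ^ 2) atTop (𝓝 c) := by
  have h1 : Tendsto (fun x : ℕ => ((⌈c * Real.log x ^ 2⌉₊ : ℕ) : ℝ) / Real.log x ^ 2) atTop (𝓝 c) :=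
    (tendsto_nat_ceil_mul_div_atTop hc.le).comp tendsto_logsq
  have h2 : Tendsto (fun x : ℕ => 1 / Real.log x ^ 2) atTop (𝓝 0) := tendsto_const_nhds.div_atTop tendsto_logsq
  have h3 := h1.sub h2
  rw [sub_zero] at h3
  refine h3.congr' ?_
  filter_upwards [tendsto_log.eventually_gt_atTop 0] with x hx
  have h4 : 1 ≤ ⌈c * Real.log x ^ 2⌉₊ := Nat.one_le_ceil_iff.2 (by positivity)
  unfold hh
  rw [Nat.cast_sub h4, Nat.cast_one, sub_div]

lemma hh_le (c : ℝ) (hc : 0 ≤ c) (x : ℕ) : (hh c x : ℝ) ≤ c * Real.log x ^ 2 := by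
  unfold hh
  have h0 : 0 ≤ c * Real.log x ^ 2 := by positivity
  have h1 := Nat.ceil_lt_add_one h0
  rcases Nat.eq_zero_or_pos ⌈c * Real.log x ^ 2⌉₊ with h | h
  · rw [h]; simpa using h0
  · rw [Nat.cast_sub h, Nat.cast_one]
    linarith

lemma hh_small {c : ℝ} (hc : 0 < c) : ∀ᶠ x : ℕ in atTop, hh c x ≤ x := by
  have h3 := (Real.isLittleO_pow_log_id_atTop (n := 2)).def (show (0 : ℝ) < 1 / c by positivity)
  have h4 : ∀ᶠ x : ℝ in atTop, c * Real.log x ^ 2 ≤ x := by
    filter_upwards [h3, eventually_ge_atTop 1] with x h3 h6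
    rw [Real.norm_of_nonneg (by positivity), id, Real.norm_of_nonneg (by linarith)] at h3
    calc c * Real.log x ^ 2 ≤ c * (1 / c * x) := mul_le_mul_of_nonneg_left h3 hc.le
      _ = x := by field_simp
  filter_upwards [tendsto_natCast_atTop_atTop.eventually h4] with x hx
  have := (hh_le c hc.le x).trans hx
  exact_mod_cast this

lemma sparL_of {T : ℕ → ℕ} (hT : Tendsto T atTop atTop) {c α : ℝ} (hc : 0 < c) (hα : 0 < α) :
    SparL T (fun j => hh c (T j)) (fun j => α * Real.log (T j)) (c / α) := by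
  have hbig : Tendsto (fun j => Real.log (T j)) atTop atTop := tendsto_log.comp hT
  refine ⟨hbig, ratio_of_le (T := T) hbig (hT.eventually (hh_small hc)), hbig.const_mul_atTop hα, ?_⟩
  have h1 := ((hh_lim hc).comp hT).div_const α
  refine h1.congr' ?_
  filter_upwards [hbig.eventually_gt_atTop 0] with j hj
  show (hh c (T j) : ℝ) / Real.log (T j) ^ 2 / α = _
  have := hj.ne'
  field_simp

/-- events of small probability do not occur infinitely often -/
theorem ev_part (hA : ∀ n, MeasurableSet[ℱ n] (A n)) {W : ℕ} (hW : 0 < W)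
    (hd : ∀ᵐ ω ∂μ, ∀ ε : ℝ, 0 < ε → ∀ᶠ n : ℕ in atTop, |dens μ ℱ A n ω - rhoW W (n + 1)| ≤ ε * rhoW W (n + 1))
    {E : Set ℕ} (hE : E.Infinite) {α : ℝ} (hα0 : 0 ≤ α)
    (h1 : ∀ s, α < s → Summable (fun x : E => ((x : ℕ) : ℝ) ^ (-s)))
    {c s : ℝ} (hc : 0 < c) (hs0 : 0 < s) (hI : α < c * II s) (S : ℕ → Set ℕ)
    (hS : ∀ x : ℕ, ∀ k ∈ S x, s ^ (s * c * Real.log x) ≤ s ^ k) :
    ∀ᵐ ω ∂μ, ∀ᶠ x : ℕ in atTop, x ∈ E → cnt A x (hh c x) ω ∉ S x := by
  classical
  obtain ⟨α', hα1, hα2⟩ := exists_between hI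
  have hα' : 0 < α' := lt_of_le_of_lt hα0 hα1
  haveI := hE.to_subtype
  set e := Nat.Subtype.orderIsoOfNat E with he
  set T : ℕ → ℕ := fun j => (e j : ℕ) with hT
  have hmono : StrictMono T := fun i j hij => by
    have := e.strictMono hij
    exact_mod_cast this
  have hTt : Tendsto T atTop atTop := hmono.tendsto_atTop
  have hsum : Summable (fun j : ℕ => Real.exp (-(α' * Real.log (T j)))) := by
    have h2 : Summable (fun j : ℕ => ((T j : ℕ) : ℝ) ^ (-α')) := by
      have := (e.toEquiv.summable_iff (f := fun x : E => ((x : ℕ) : ℝ) ^ (-α'))).2 (h1 α' hα1)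
      exact this
    refine Summable.of_norm_bounded_eventually_nat h2 ?_
    filter_upwards [hTt.eventually_gt_atTop 0] with j hj
    have hj' : (0 : ℝ) < T j := by exact_mod_cast hj
    rw [Real.norm_of_nonneg (Real.exp_pos _).le, Real.rpow_def_of_pos hj']
    apply le_of_eq
    congr 1
    ring
  have h3 := sparL_ev (μ := μ) (ℱ := ℱ) hA hW hd (sparL_of hTt hc hα') (show 0 < c / α' by positivity) hs0
    (show 1 < c / α' * (s * Real.log s - s + 1) by
      rw [div_mul_eq_mul_div, lt_div_iff₀ hα', one_mul]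
      exact hα2) hsum (fun j => S (T j)) (fun j k hk => by
        have := hS (T j) k hk
        have e1 : s * (c / α') * (α' * Real.log (T j)) = s * c * Real.log (T j) := by field_simp
        rw [e1]
        exact this)
  filter_upwards [h3] with ω hω
  obtain ⟨J, hJ⟩ := eventually_atTop.1 hω
  filter_upwards [eventually_ge_atTop (T J)] with x hx hxE
  obtain ⟨j, hj⟩ : ∃ j, T j = x := ⟨e.symm ⟨x, hxE⟩, by simp [hT]⟩
  have hjJ : J ≤ j := hmono.le_iff_le.1 (by rw [hj]; exact hx)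
  have := hJ j hjJ
  rw [hj] at this
  exact this

/-- prescribed counts occur infinitely often -/
theorem io_part (hA : ∀ n, MeasurableSet[ℱ n] (A n)) {W : ℕ} (hW : 0 < W)
    (hd : ∀ᵐ ω ∂μ, ∀ ε : ℝ, 0 < ε → ∀ᶠ n : ℕ in atTop, |dens μ ℱ A n ω - rhoW W (n + 1)| ≤ ε * rhoW W (n + 1))
    {E : Set ℕ} (hE : E.Infinite) {α : ℝ} (hα0 : 0 < α)
    (h2 : ∀ s, 0 < s → s < α → ¬ Summable (fun x : E => ((x : ℕ) : ℝ) ^ (-s)))
    {c s : ℝ} (hc : 0 < c) (hs0 : 0 < s) (hI : c * II s < α) (K : ℕ → ℕ)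
    (hK : Tendsto (fun x : ℕ => (K x : ℝ) / Real.log x) atTop (𝓝 (s * c))) :
    ∀ᵐ ω ∂μ, ∃ᶠ x : ℕ in atTop, x ∈ E ∧ cnt A x (hh c x) ω = K x := by
  obtain ⟨α', hα1, hα2⟩ := exists_between (max_lt hI hα0)
  have hα' : 0 < α' := lt_of_le_of_lt (le_max_right _ _) hα1
  have hI' : c * II s < α' := lt_of_le_of_lt (le_max_left _ _) hα1
  obtain ⟨t, ht1, ht2⟩ := exists_between hα2
  set T := gre E (hh c) 1 with hT
  have hmono : StrictMono T := gre_mono hE (hh c) 1
  have hTt : Tendsto T atTop atTop := hmono.tendsto_atTop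
  have hT1 : ∀ j, 1 ≤ T j := fun j => (gre_zero_ge hE (hh c) 1).trans (hmono.monotone (Nat.zero_le j))
  have hdiv : ¬ Summable (fun j : ℕ => Real.exp (-(α' * Real.log (T j)))) := by
    have h3 := gre_div hE (hh c) 1 le_rfl (s := t) (t := α') (C := 4 * c / (t - α') ^ 2 + 1) (by positivity) hα' ht1
      (fun x hx => by
        have h4 := log_sq_le hc.le (show 0 < t - α' by linarith) x hx
        have h5 := hh_le c hc.le x
        linarith) (h2 t (by linarith) ht2)
    intro hcon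
    apply h3
    refine hcon.congr fun j => ?_
    have hj' : (0 : ℝ) < T j := by exact_mod_cast hT1 j
    rw [Real.rpow_def_of_pos hj']
    congr 1
    ring
  have hdisj : ∀ᶠ j in atTop, T j + hh c (T j) ≤ T (j + 1) := Eventually.of_forall fun j => by
    have := gre_step hE (hh c) 1 j
    rw [hT]
    omega
  have hβ : 0 < c / α' := by positivity
  have hK' : Tendsto (fun j : ℕ => (K (T j) : ℝ) / (α' * Real.log (T j))) atTop (𝓝 (s * (c / α'))) := by
    have h4 := (hK.comp hTt).div_const α'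
    have e1 : s * c / α' = s * (c / α') := by ring
    rw [e1] at h4
    refine h4.congr fun j => ?_
    show (K (T j) : ℝ) / Real.log (T j) / α' = _
    rw [div_div, mul_comm]
  have h3 := sparL_io (μ := μ) (ℱ := ℱ) hA hW hd (sparL_of hTt hc hα') hdisj hdiv hβ (show 0 < s * (c / α') by positivity)
    (fun j => K (T j)) hK' (by
      rw [rate_eq hβ hs0]
      have : c / α' * II s < 1 := by
        rw [div_mul_eq_mul_div, div_lt_one hα']
        exact hI'
      linarith)
  filter_upwards [h3] with ω hω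
  exact hTt.frequently (hω.mono fun j hj => ⟨gre_mem hE (hh c) 1 j, hj⟩)

/-- empty windows occur infinitely often -/
theorem zero_part (hA : ∀ n, MeasurableSet[ℱ n] (A n)) {W : ℕ} (hW : 0 < W)
    (hd : ∀ᵐ ω ∂μ, ∀ ε : ℝ, 0 < ε → ∀ᶠ n : ℕ in atTop, |dens μ ℱ A n ω - rhoW W (n + 1)| ≤ ε * rhoW W (n + 1))
    {E : Set ℕ} (hE : E.Infinite) {α : ℝ}
    (h2 : ∀ s, 0 < s → s < α → ¬ Summable (fun x : E => ((x : ℕ) : ℝ) ^ (-s)))
    {c : ℝ} (hc : 0 < c) (hcα : c < α) :
    ∀ᵐ ω ∂μ, ∃ᶠ x : ℕ in atTop, x ∈ E ∧ cnt A x (hh c x) ω = 0 := by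
  obtain ⟨α', hα1, hα2⟩ := exists_between hcα
  have hα' : 0 < α' := hc.trans hα1
  obtain ⟨t, ht1, ht2⟩ := exists_between hα2
  set T := gre E (hh c) 1 with hT
  have hmono : StrictMono T := gre_mono hE (hh c) 1
  have hTt : Tendsto T atTop atTop := hmono.tendsto_atTop
  have hT1 : ∀ j, 1 ≤ T j := fun j => (gre_zero_ge hE (hh c) 1).trans (hmono.monotone (Nat.zero_le j))
  have hdiv : ¬ Summable (fun j : ℕ => Real.exp (-(α' * Real.log (T j)))) := by
    have h3 := gre_div hE (hh c) 1 le_rfl (s := t) (t := α') (C := 4 * c / (t - α') ^ 2 + 1) (by positivity) hα' ht1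
      (fun x hx => by
        have h4 := log_sq_le hc.le (show 0 < t - α' by linarith) x hx
        have h5 := hh_le c hc.le x
        linarith) (h2 t (by linarith) ht2)
    intro hcon
    apply h3
    refine hcon.congr fun j => ?_
    have hj' : (0 : ℝ) < T j := by exact_mod_cast hT1 j
    rw [Real.rpow_def_of_pos hj']
    congr 1
    ring
  have hdisj : ∀ᶠ j in atTop, T j + hh c (T j) ≤ T (j + 1) := Eventually.of_forall fun j => by
    have := gre_step hE (hh c) 1 j
    rw [hT]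
    omega
  have h3 := sparL_zero (μ := μ) (ℱ := ℱ) hA hW hd (sparL_of hTt hc hα') hdisj hdiv (show 0 < c / α' by positivity)
    (by rw [div_lt_one hα']; exact hα1)
  filter_upwards [h3] with ω hω
  exact hTt.frequently (hω.mono fun j hj => ⟨gre_mem hE (hh c) 1 j, hj⟩)

end Pool.Agent.R529.SM
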