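import Mathlib
import Pool.Agent.R529.SM.L4

set_option autoImplicit false
set_option linter.unusedSectionVars false
set_option linter.unusedVariables false

/-! # The extreme orders and the critical length, for an arbitrary set of starting points -/

open MeasureTheory Filter Set
open scoped ENNReal Topology

namespace Pool.Agent.R529.SM

open Pool.Agent.R528.RM

variable {Ω : Type} {m0 : MeasurableSpace Ω} {μ : Measure Ω} [IsProbabilityMeasure μ]
  {ℱ : Filtration ℕ m0} {A : ℕ → Set Ω}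

lemma II_one : II 1 = 0 := by unfold II; simp

lemma II_zero : II 0 = 1 := by unfold II; simp

lemma II_pos {s : ℝ} (hs : 0 < s) (h : s ≠ 1) : 0 < II s := by
  rcases lt_or_gt_of_ne h with h1 | h1
  · have := II_anti hs h1 le_rfl
    rwa [II_one] at this
  · have := II_mono le_rfl h1
    rwa [II_one] at this

lemma roots {c α : ℝ} (hc : 0 < c) (hα : 0 ≤ α) : ∃ a b : ℝ, 1 ≤ a ∧ c * II a = α ∧ 0 ≤ b ∧ b ≤ 1 ∧
    ((c ≤ α ∧ b = 0) ∨ (0 < b ∧ c * II b = α)) := by
  have hcont : Continuous (fun s : ℝ => c * II s) := by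
    unfold II
    have := Real.continuous_mul_log
    fun_prop
  have h1 : c * II 1 = 0 := by rw [II_one, mul_zero]
  have h0 : c * II 0 = c := by rw [II_zero, mul_one]
  obtain ⟨a, ha1, ha2⟩ : ∃ a, 1 ≤ a ∧ c * II a = α := by
    set t : ℝ := 2 + α / c with ht
    have hd : 0 ≤ α / c := by positivity
    have he : c * II (Real.exp t) = c * (Real.exp t * (1 + α / c) + 1) := by
      unfold II
      rw [Real.log_exp, ht]
      ring
    have h2 : α ≤ c * II (Real.exp t) := by
      rw [he]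
      have h3 : 1 ≤ Real.exp t := Real.one_le_exp (by linarith)
      have h4 : α / c ≤ Real.exp t * (1 + α / c) + 1 := by nlinarith
      have h5 := mul_le_mul_of_nonneg_left h4 hc.le
      rwa [mul_div_cancel₀ _ hc.ne'] at h5
    obtain ⟨a, ha1, ha2⟩ := intermediate_value_Icc (show (1 : ℝ) ≤ Real.exp t from Real.one_le_exp (by linarith)) hcont.continuousOn
      (show α ∈ Set.Icc (c * II 1) (c * II (Real.exp t)) by rw [h1]; exact ⟨hα, h2⟩)
    exact ⟨a, ha1.1, ha2⟩
  by_cases hcα : c ≤ α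
  · exact ⟨a, 0, ha1, ha2, le_rfl, zero_le_one, Or.inl ⟨hcα, rfl⟩⟩
  · push Not at hcα
    obtain ⟨b, hb1, hb2⟩ := intermediate_value_Icc' (show (0 : ℝ) ≤ 1 by norm_num) hcont.continuousOn
      (show α ∈ Set.Icc (c * II 1) (c * II 0) by rw [h1, h0]; exact ⟨hα, hcα.le⟩)
    have hb2' : c * II b = α := hb2
    refine ⟨a, b, ha1, ha2, hb1.1, hb1.2, Or.inr ⟨?_, hb2'⟩⟩
    refine lt_of_le_of_ne hb1.1 fun h => ?_
    rw [← h, h0] at hb2'
    linarith

/-- extreme orders of the number of members -/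
theorem law (hA : ∀ n, MeasurableSet[ℱ n] (A n)) {W : ℕ} (hW : 0 < W)
    (hd : ∀ᵐ ω ∂μ, ∀ ε : ℝ, 0 < ε → ∀ᶠ n : ℕ in atTop, |dens μ ℱ A n ω - rhoW W (n + 1)| ≤ ε * rhoW W (n + 1))
    {E : Set ℕ} (hE : E.Infinite) {α : ℝ} (hα0 : 0 ≤ α)
    (h1 : ∀ s, α < s → Summable (fun x : E => ((x : ℕ) : ℝ) ^ (-s)))
    (h2 : ∀ s, 0 < s → s < α → ¬ Summable (fun x : E => ((x : ℕ) : ℝ) ^ (-s)))
    {c a b : ℝ} (hc : 0 < c) (ha1 : 1 ≤ a) (hIa : c * II a = α) (hb0 : 0 ≤ b) (hb1 : b ≤ 1)
    (hb : (c ≤ α ∧ b = 0) ∨ (0 < b ∧ c * II b = α)) :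
    ∀ᵐ ω ∂μ, ∀ ε : ℝ, 0 < ε →
      (∀ᶠ x : ℕ in atTop, x ∈ E → (cnt A x (hh c x) ω : ℝ) < (a + ε) * c * Real.log x) ∧
      (∃ᶠ x : ℕ in atTop, x ∈ E ∧ (a - ε) * c * Real.log x < cnt A x (hh c x) ω) ∧
      (∀ᶠ x : ℕ in atTop, x ∈ E → (b - ε) * c * Real.log x < cnt A x (hh c x) ω) ∧
      (∃ᶠ x : ℕ in atTop, x ∈ E ∧ (cnt A x (hh c x) ω : ℝ) < (b + ε) * c * Real.log x) := by
  have hlog : ∀ᶠ x : ℕ in atTop, 0 < Real.log x := tendsto_log.eventually_gt_atTop 0
  have hfreq : ∃ᶠ x : ℕ in atTop, x ∈ E := Nat.frequently_atTop_iff_infinite.2 hE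
  have e1 : ∀ m : ℕ, ∀ᵐ ω ∂μ, ∀ᶠ x : ℕ in atTop, x ∈ E → (cnt A x (hh c x) ω : ℝ) < (a + 1 / ((m : ℝ) + 1)) * c * Real.log x := by
    intro m
    have hm : 0 < 1 / ((m : ℝ) + 1) := by positivity
    set s := a + 1 / ((m : ℝ) + 1) with hs'
    have hs1 : 1 < s := by linarith
    have := ev_part (μ := μ) (ℱ := ℱ) hA hW hd hE hα0 h1 hc (show 0 < s by linarith)
      (hIa.symm.trans_lt (mul_lt_mul_of_pos_left (II_mono ha1 (by linarith)) hc))
      (fun x => {k : ℕ | s * c * Real.log x ≤ k}) (by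
        intro x k hk
        rw [← Real.rpow_natCast]
        exact Real.rpow_le_rpow_of_exponent_le hs1.le hk)
    filter_upwards [this] with ω g1
    filter_upwards [g1] with x hx hxE
    have hx' : ¬ (s * c * Real.log x ≤ (cnt A x (hh c x) ω : ℝ)) := hx hxE
    exact not_le.1 hx'
  have e3 : ∀ m : ℕ, ∀ᵐ ω ∂μ, ∀ᶠ x : ℕ in atTop, x ∈ E → (b - 1 / ((m : ℝ) + 1)) * c * Real.log x < cnt A x (hh c x) ω := by
    intro m
    have hm : 0 < 1 / ((m : ℝ) + 1) := by positivity
    rcases hb with ⟨_, hb⟩ | ⟨hb, hIb⟩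
    · refine Eventually.of_forall fun ω => ?_
      filter_upwards [hlog] with x hx _
      have h4 : (b - 1 / ((m : ℝ) + 1)) * c * Real.log x < 0 := by
        apply mul_neg_of_neg_of_pos _ hx
        apply mul_neg_of_neg_of_pos _ hc
        rw [hb]
        linarith
      exact h4.trans_le (Nat.cast_nonneg _)
    · set s := max (b / 2) (b - 1 / ((m : ℝ) + 1)) with hs'
      have hs1 : 0 < s := lt_of_lt_of_le (by linarith) (le_max_left _ _)
      have hsb : s < b := max_lt (by linarith) (by linarith)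
      have := ev_part (μ := μ) (ℱ := ℱ) hA hW hd hE hα0 h1 hc hs1
        (hIb.symm.trans_lt (mul_lt_mul_of_pos_left (II_anti hs1 hsb hb1) hc))
        (fun x => {k : ℕ | (k : ℝ) ≤ s * c * Real.log x}) (by
          intro x k hk
          rw [← Real.rpow_natCast]
          exact Real.rpow_le_rpow_of_exponent_ge hs1 (by linarith) hk)
      filter_upwards [this] with ω h4
      filter_upwards [h4, hlog] with x hx hxl hxE
      have hx' : ¬ ((cnt A x (hh c x) ω : ℝ) ≤ s * c * Real.log x) := hx hxE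
      refine lt_of_le_of_lt ?_ (not_le.1 hx')
      apply mul_le_mul_of_nonneg_right _ hxl.le
      exact mul_le_mul_of_nonneg_right (le_max_right _ _) hc.le
  have e2 : ∀ m : ℕ, ∀ᵐ ω ∂μ, ∃ᶠ x : ℕ in atTop, x ∈ E ∧ (a - 1 / ((m : ℝ) + 1)) * c * Real.log x < cnt A x (hh c x) ω := by
    intro m
    have hm : 0 < 1 / ((m : ℝ) + 1) := by positivity
    rcases hα0.eq_or_lt with hα | hα
    · -- exponent zero
      have ha : a = 1 := by
        by_contra hne
        have := mul_pos hc (II_pos (by linarith) hne)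
        rw [hIa] at this
        linarith
      have hb' : b = 1 := by
        rcases hb with ⟨g, _⟩ | ⟨g, g'⟩
        · linarith
        · by_contra hne
          have := mul_pos hc (II_pos g hne)
          rw [g'] at this
          linarith
      filter_upwards [e3 m] with ω hω
      refine (hfreq.and_eventually hω).mono fun x hx => ⟨hx.1, ?_⟩
      have h9 := hx.2 hx.1
      rw [hb'] at h9
      rw [ha]
      exact h9
    · have ha : 1 < a := by
        refine lt_of_le_of_ne ha1 fun h => ?_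
        rw [← h, II_one, mul_zero] at hIa
        linarith
      set s := max ((1 + a) / 2) (a - 1 / ((m : ℝ) + 1)) with hs'
      have hs1 : 1 < s := lt_of_lt_of_le (by linarith) (le_max_left _ _)
      have hsa : s < a := max_lt (by linarith) (by linarith)
      have hscale : ∀ u : ℝ, c / α * II u < 1 ↔ c * II u < α := fun u => by
        rw [div_mul_eq_mul_div, div_lt_one hα]
      obtain ⟨s', hs'1, hs'2⟩ := (exists_near (β := c / α) (show 0 < s by linarith)
        ((hscale s).2 ((mul_lt_mul_of_pos_left (II_mono hs1.le hsa) hc).trans_eq hIa))).1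
      have hs'0 : 0 < s' := by linarith
      have h3 := io_part (μ := μ) (ℱ := ℱ) hA hW hd hE hα h2 hc hs'0 ((hscale s').1 hs'2)
        (fun x => ⌈s' * c * Real.log x⌉₊) ((tendsto_nat_ceil_mul_div_atTop (show 0 ≤ s' * c by positivity)).comp tendsto_log)
      filter_upwards [h3] with ω h3
      refine (h3.and_eventually hlog).mono fun x hx => ⟨hx.1.1, ?_⟩
      have g1 := Nat.le_ceil (s' * c * Real.log x)
      have g2 : (cnt A x (hh c x) ω : ℝ) = (⌈s' * c * Real.log x⌉₊ : ℕ) := by exact_mod_cast hx.1.2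
      rw [g2]
      refine lt_of_lt_of_le ?_ g1
      apply mul_lt_mul_of_pos_right _ hx.2
      apply mul_lt_mul_of_pos_right _ hc
      exact lt_of_le_of_lt (le_max_right _ _) hs'1
  have e4 : ∀ m : ℕ, ∀ᵐ ω ∂μ, ∃ᶠ x : ℕ in atTop, x ∈ E ∧ (cnt A x (hh c x) ω : ℝ) < (b + 1 / ((m : ℝ) + 1)) * c * Real.log x := by
    intro m
    have hm : 0 < 1 / ((m : ℝ) + 1) := by positivity
    rcases hα0.eq_or_lt with hα | hα
    · have ha : a = 1 := by
        by_contra hne
        have := mul_pos hc (II_pos (by linarith) hne)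
        rw [hIa] at this
        linarith
      have hb' : b = 1 := by
        rcases hb with ⟨g, _⟩ | ⟨g, g'⟩
        · linarith
        · by_contra hne
          have := mul_pos hc (II_pos g hne)
          rw [g'] at this
          linarith
      filter_upwards [e1 m] with ω hω
      refine (hfreq.and_eventually hω).mono fun x hx => ⟨hx.1, ?_⟩
      have h9 := hx.2 hx.1
      rw [ha] at h9
      rw [hb']
      exact h9
    · have hb1' : b < 1 := by
        rcases hb with ⟨_, g⟩ | ⟨g, g'⟩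
        · rw [g]; norm_num
        · refine lt_of_le_of_ne hb1 fun h => ?_
          rw [h, II_one, mul_zero] at g'
          linarith
      set s := min ((1 + b) / 2) (b + 1 / ((m : ℝ) + 1)) with hs'
      have hs1 : s < 1 := lt_of_le_of_lt (min_le_left _ _) (by linarith)
      have hsb : b < s := lt_min (by linarith) (by linarith)
      have hs0 : 0 < s := by linarith
      have hI : c * II s < α := by
        rcases hb with ⟨hl, _⟩ | ⟨hb, hIb⟩
        · have h5 := II_lt_one hs0 hs1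
          nlinarith
        · exact (mul_lt_mul_of_pos_left (II_anti hb hsb hs1.le) hc).trans_eq hIb
      have hscale : ∀ u : ℝ, c / α * II u < 1 ↔ c * II u < α := fun u => by
        rw [div_mul_eq_mul_div, div_lt_one hα]
      obtain ⟨s', hs'0, hs'1, hs'2⟩ := (exists_near (β := c / α) hs0 ((hscale s).2 hI)).2
      have h3 := io_part (μ := μ) (ℱ := ℱ) hA hW hd hE hα h2 hc hs'0 ((hscale s').1 hs'2)
        (fun x => ⌊s' * c * Real.log x⌋₊) ((tendsto_nat_floor_mul_div_atTop (show 0 ≤ s' * c by positivity)).comp tendsto_log)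
      filter_upwards [h3] with ω h5
      refine (h5.and_eventually hlog).mono fun x hx => ⟨hx.1.1, ?_⟩
      have g1 := Nat.floor_le (show 0 ≤ s' * c * Real.log x by have := hx.2; positivity)
      have g2 : (cnt A x (hh c x) ω : ℝ) = (⌊s' * c * Real.log x⌋₊ : ℕ) := by exact_mod_cast hx.1.2
      rw [g2]
      refine lt_of_le_of_lt g1 ?_
      apply mul_lt_mul_of_pos_right _ hx.2
      apply mul_lt_mul_of_pos_right _ hc
      exact lt_of_lt_of_le hs'1 (min_le_right _ _)
  filter_upwards [ae_all_iff.2 e1, ae_all_iff.2 e2, ae_all_iff.2 e3, ae_all_iff.2 e4] with ω g1 g2 g3 g4 ε hε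
  obtain ⟨m, hm⟩ := exists_nat_one_div_lt hε
  refine ⟨?_, ?_, ?_, ?_⟩
  · filter_upwards [g1 m, hlog] with x hx hxl hxE
    refine (hx hxE).trans_le (mul_le_mul_of_nonneg_right (mul_le_mul_of_nonneg_right (by linarith) hc.le) hxl.le)
  · refine ((g2 m).and_eventually hlog).mono fun x hx => ⟨hx.1.1, ?_⟩
    refine lt_of_le_of_lt (mul_le_mul_of_nonneg_right (mul_le_mul_of_nonneg_right (by linarith) hc.le) hx.2.le) hx.1.2
  · filter_upwards [g3 m, hlog] with x hx hxl hxE
    refine lt_of_le_of_lt (mul_le_mul_of_nonneg_right (mul_le_mul_of_nonneg_right (by linarith) hc.le) hxl.le) (hx hxE)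
  · refine ((g4 m).and_eventually hlog).mono fun x hx => ⟨hx.1.1, ?_⟩
    refine hx.1.2.trans_le (mul_le_mul_of_nonneg_right (mul_le_mul_of_nonneg_right (by linarith) hc.le) hx.2.le)

/-- beyond the critical length there are members for all large `x` in the set -/
theorem nonempty_part (hA : ∀ n, MeasurableSet[ℱ n] (A n)) {W : ℕ} (hW : 0 < W)
    (hd : ∀ᵐ ω ∂μ, ∀ ε : ℝ, 0 < ε → ∀ᶠ n : ℕ in atTop, |dens μ ℱ A n ω - rhoW W (n + 1)| ≤ ε * rhoW W (n + 1))
    {E : Set ℕ} (hE : E.Infinite) {α : ℝ} (hα0 : 0 ≤ α)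
    (h1 : ∀ s, α < s → Summable (fun x : E => ((x : ℕ) : ℝ) ^ (-s)))
    (h2 : ∀ s, 0 < s → s < α → ¬ Summable (fun x : E => ((x : ℕ) : ℝ) ^ (-s)))
    {c : ℝ} (hc : 0 < c) (hcα : α < c) :
    ∃ κ : ℝ, 0 < κ ∧ ∀ᵐ ω ∂μ, ∀ᶠ x : ℕ in atTop, x ∈ E → κ * Real.log x < cnt A x (hh c x) ω := by
  obtain ⟨a, b, ha1, ha2, hb0, hb1, hb⟩ := roots hc hα0
  have hb' : 0 < b := by
    rcases hb with ⟨g, _⟩ | ⟨g, _⟩
    · linarith
    · exact g
  refine ⟨b / 2 * c, by positivity, ?_⟩
  filter_upwards [law (μ := μ) (ℱ := ℱ) hA hW hd hE hα0 h1 h2 hc ha1 ha2 hb0 hb1 hb] with ω hω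
  filter_upwards [(hω (b / 2) (by linarith)).2.2.1] with x hx hxE
  refine lt_of_le_of_lt (le_of_eq ?_) (hx hxE)
  ring

end Pool.Agent.R529.SM
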