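import Mathlib
import Pool.Agent.R291.RMW.W4

set_option autoImplicit false
set_option linter.unusedSectionVars false
set_option linter.unusedVariables false

/-! # Upper bound for the deviations in windows which may overlap (after `Pool.Agent.R291.RMW.W3`) -/

open MeasureTheory Filter Set
open scoped ENNReal Topology

namespace Pool.Agent.R529.SM

open Pool.Agent.R528.RM Pool.Agent.R291.RMW

variable {Ω : Type} {m0 : MeasurableSpace Ω} {μ : Measure Ω} [IsProbabilityMeasure μ]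
  {ℱ : Filtration ℕ m0} {A : ℕ → Set Ω}

/-- windows `(a n, b n]` with `log a n ~ log b n ~ κ log n` -/
structure Wu (a b : ℕ → ℕ) (κ : ℝ) : Prop where
  pos : 0 < κ
  le : ∀ᶠ n in atTop, a n ≤ b n
  lower : Tendsto (fun n : ℕ => Real.log (a n) / Real.log n) atTop (𝓝 κ)
  upper : Tendsto (fun n : ℕ => Real.log (b n) / Real.log n) atTop (𝓝 κ)
  long : Tendsto (fun n : ℕ => ((b n : ℝ) - a n) / Real.log n ^ 2) atTop atTop

lemma ulog_a_top {a b : ℕ → ℕ} {κ : ℝ} (h : Wu a b κ) : Tendsto (fun n => Real.log (a n : ℝ)) atTop atTop := by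
  have h1 := h.lower.pos_mul_atTop h.pos tendsto_log
  refine h1.congr' ?_
  filter_upwards [tendsto_log.eventually_gt_atTop 0] with n hn
  exact div_mul_cancel₀ _ hn.ne'

lemma ua_top {a b : ℕ → ℕ} {κ : ℝ} (h : Wu a b κ) : Tendsto a atTop atTop := by
  refine tendsto_atTop.2 fun N => ?_
  filter_upwards [(ulog_a_top h).eventually_gt_atTop (Real.log (N + 1)), (ulog_a_top h).eventually_gt_atTop 0] with n h1 h2
  by_contra hcon
  push Not at hcon
  have h0 : 0 < a n := by
    by_contra h0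
    have : a n = 0 := by omega
    rw [this] at h2
    simp at h2
  have : Real.log (a n : ℝ) ≤ Real.log (N + 1) := Real.log_le_log (by exact_mod_cast h0) (by
    have : (a n : ℝ) < N := by exact_mod_cast hcon
    linarith)
  linarith

lemma uvR_lim {W : ℕ} (hW : 0 < W) {a b : ℕ → ℕ} {κ : ℝ} (h : Wu a b κ) :
    Tendsto (fun n => vR W (Finset.Ioc (a n) (b n)) / (((b n : ℝ) - a n) / (κ * Real.log n))) atTop (𝓝 1) := by
  have hκ := h.pos
  -- `W / L → 0`
  have hL : Tendsto (fun n => (b n : ℝ) - a n) atTop atTop := by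
    have h1 := h.long
    refine tendsto_atTop_mono' _ ?_ h1
    filter_upwards [ev_log 1, h.le, h1.eventually_ge_atTop 0] with n g1 g2 g3
    have hp : 0 < Real.log (n : ℝ) ^ 2 := by positivity
    have g4 : 0 ≤ (b n : ℝ) - a n := by
      have : (a n : ℝ) ≤ b n := by exact_mod_cast g2
      linarith
    exact div_le_self g4 (by nlinarith only [g1])
  have hWL : Tendsto (fun n => 2 * (W : ℝ) / ((b n : ℝ) - a n)) atTop (𝓝 0) := hL.const_div_atTop _
  have hlo : Tendsto (fun n => (1 - 2 * (W : ℝ) / ((b n : ℝ) - a n)) * (κ / (Real.log (b n) / Real.log n))) atTop (𝓝 1) := by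
    have h1 := (hWL.const_sub 1).mul ((tendsto_const_nhds (x := κ)).div h.upper hκ.ne')
    rwa [sub_zero, div_self hκ.ne', mul_one] at h1
  have hup : Tendsto (fun n => (1 + 2 * (W : ℝ) / ((b n : ℝ) - a n)) * (κ / (Real.log (a n) / Real.log n))) atTop (𝓝 1) := by
    have h1 := (hWL.const_add 1).mul ((tendsto_const_nhds (x := κ)).div h.lower hκ.ne')
    rwa [add_zero, div_self hκ.ne', mul_one] at h1
  have hev : ∀ᶠ n in atTop, (W : ℝ) / Nat.totient W ≤ Real.log (a n) ∧ 1 ≤ a n ∧ a n ≤ b n ∧ 0 < Real.log (n : ℝ) ∧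
      0 < (b n : ℝ) - a n ∧ 0 < Real.log (a n) := by
    filter_upwards [(ulog_a_top h).eventually_ge_atTop ((W : ℝ) / Nat.totient W), (ua_top h).eventually_ge_atTop 1, h.le,
      tendsto_log.eventually_gt_atTop 0, hL.eventually_gt_atTop 0, (ulog_a_top h).eventually_gt_atTop 0] with n g1 g2 g3 g4 g5 g6
    exact ⟨g1, g2, g3, g4, g5, g6⟩
  refine tendsto_of_tendsto_of_tendsto_of_le_of_le' hlo hup ?_ ?_
  · filter_upwards [hev] with n ⟨g1, g2, g3, g4, g5, g6⟩
    have g7 := (rho_cls1 (W := W) (q := 1) (a := 0) (s := a n) (t := b n) hW one_pos (zero_mem_adm_one W) g3 g1 g2).1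
    rw [adm_one, ← vR_cls] at g7
    have g8 : Real.log (a n) ≤ Real.log (b n) := Real.log_le_log (by exact_mod_cast g2) (by exact_mod_cast g3)
    have g9 : 0 < Real.log (b n : ℝ) := by linarith
    rw [le_div_iff₀ (by positivity)]
    refine le_trans (le_of_eq ?_) g7
    push_cast
    field_simp
  · filter_upwards [hev] with n ⟨g1, g2, g3, g4, g5, g6⟩
    have g7 := (rho_cls1 (W := W) (q := 1) (a := 0) (s := a n) (t := b n) hW one_pos (zero_mem_adm_one W) g3 g1 g2).2
    rw [adm_one, ← vR_cls] at g7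
    rw [div_le_iff₀ (by positivity)]
    refine g7.trans (le_of_eq ?_)
    push_cast
    field_simp

lemma wu_win {W : ℕ} (hW : 0 < W) {a b : ℕ → ℕ} {κ : ℝ} (h : Wu a b κ) : Win W (fun n => Finset.Ioc (a n) (b n)) := by
  refine ⟨fun N => ?_, ?_⟩
  · filter_upwards [(ua_top h).eventually_ge_atTop N] with n hn m hm
    have := (Finset.mem_Ioc.1 hm).1
    omega
  · have h1 := (uvR_lim hW h).pos_mul_atTop one_pos (h.long.atTop_div_const h.pos)
    refine h1.congr' ?_
    have hL := h.long.eventually_gt_atTop 0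
    filter_upwards [tendsto_log.eventually_gt_atTop 0, hL] with n g1 g2
    have g3 : 0 < (b n : ℝ) - a n := by
      by_contra hcon
      have : ((b n : ℝ) - a n) / Real.log n ^ 2 ≤ 0 := div_nonpos_of_nonpos_of_nonneg (not_lt.1 hcon) (by positivity)
      linarith
    have hκ := h.pos
    field_simp

theorem wu_law (hA : ∀ n, MeasurableSet[ℱ n] (A n)) {W : ℕ} (hW : 0 < W)
    (hd : ∀ᵐ ω ∂μ, ∀ ε : ℝ, 0 < ε → ∀ᶠ n : ℕ in atTop, |dens μ ℱ A n ω - rhoW W (n + 1)| ≤ ε * rhoW W (n + 1))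
    {a b : ℕ → ℕ} {κ : ℝ} (h : Wu a b κ) :
    ∀ᵐ ω ∂μ, ∀ ε : ℝ, 0 < ε →
      ∀ᶠ n : ℕ in atTop, |CS μ ℱ A (Finset.Ioc (a n) (b n)) ω| ≤ (1 + ε) * √(2 / κ * ((b n : ℝ) - a n)) := by
  have hκ := h.pos
  have hlim := uvR_lim hW h
  set R : ℕ → Finset ℕ := fun n => Finset.Ioc (a n) (b n) with hR
  -- comparison of the normalisations
  have hev : ∀ η : ℝ, 0 < η → η < 1 → ∀ᶠ n : ℕ in atTop, 0 ≤ 2 / κ * ((b n : ℝ) - a n) ∧
      (1 - η) * (2 / κ * ((b n : ℝ) - a n)) ≤ 2 * Real.log n * vR W (R n) ∧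
      2 * Real.log n * vR W (R n) ≤ (1 + η) * (2 / κ * ((b n : ℝ) - a n)) := by
    intro η hη0 hη1
    filter_upwards [hlim.eventually (eventually_gt_nhds (show 1 - η < 1 by linarith)),
      hlim.eventually (eventually_lt_nhds (show 1 < 1 + η by linarith)), tendsto_log.eventually_gt_atTop 0,
      h.long.eventually_gt_atTop 0] with n g1 g2 g3 g4
    have g5 : 0 < (b n : ℝ) - a n := by
      by_contra hcon
      have : ((b n : ℝ) - a n) / Real.log n ^ 2 ≤ 0 := div_nonpos_of_nonpos_of_nonneg (not_lt.1 hcon) (by positivity)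
      linarith
    have g6 : 0 < ((b n : ℝ) - a n) / (κ * Real.log n) := by positivity
    rw [lt_div_iff₀ g6] at g1
    rw [div_lt_iff₀ g6] at g2
    have e1 : ((b n : ℝ) - a n) / (κ * Real.log n) * (2 * Real.log n) = 2 / κ * ((b n : ℝ) - a n) := by field_simp
    refine ⟨by positivity, ?_, ?_⟩
    · have := mul_le_mul_of_nonneg_right g1.le (show 0 ≤ 2 * Real.log (n : ℝ) by positivity)
      rw [mul_assoc, e1] at this
      refine this.trans (le_of_eq ?_)
      ring
    · have := mul_le_mul_of_nonneg_right g2.le (show 0 ≤ 2 * Real.log (n : ℝ) by positivity)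
      rw [mul_assoc, e1] at this
      refine le_trans (le_of_eq ?_) this
      ring
  have hup : ∀ k : ℕ, ∀ᵐ ω ∂μ, ∀ᶠ n : ℕ in atTop, |CS μ ℱ A (R n) ω| < (1 + 1 / ((k : ℝ) + 1)) * √(2 * Real.log n * vR W (R n)) :=
    fun k => win_upper (μ := μ) (ℱ := ℱ) hA hd (wu_win hW h) (by positivity) (by
      rw [div_le_one (by positivity)]
      have : (0 : ℝ) ≤ k := Nat.cast_nonneg _
      linarith)
  filter_upwards [ae_all_iff.2 hup] with ω h1 ε hε
  set η : ℝ := min (ε / 8) (1 / 2) with hη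
  have hη0 : 0 < η := lt_min (by positivity) (by norm_num)
  have hη1 : η < 1 := lt_of_le_of_lt (min_le_right _ _) (by norm_num)
  have hη2 : η ≤ 1 / 2 := min_le_right _ _
  have hηε : 8 * η ≤ ε := by
    have : η ≤ ε / 8 := min_le_left _ _
    linarith
  obtain ⟨k, hk⟩ := exists_nat_gt (1 / η)
  have hk1 : 1 / ((k : ℝ) + 1) ≤ η := by
    rw [div_le_iff₀ (by positivity)]
    rw [div_lt_iff₀ hη0] at hk
    nlinarith only [hk, hη0]
  filter_upwards [h1 k, hev η hη0 hη1] with n g1 g2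
  refine g1.le.trans ?_
  have e1 : √(2 * Real.log n * vR W (R n)) ≤ (1 + η) * √(2 / κ * ((b n : ℝ) - a n)) := by
    rw [Real.sqrt_le_left (by positivity), mul_pow, Real.sq_sqrt g2.1]
    refine g2.2.2.trans ?_
    apply mul_le_mul_of_nonneg_right _ g2.1
    nlinarith only [hη0]
  have e2 : 0 ≤ √(2 / κ * ((b n : ℝ) - a n)) := Real.sqrt_nonneg _
  calc (1 + 1 / ((k : ℝ) + 1)) * √(2 * Real.log n * vR W (R n)) ≤ (1 + η) * ((1 + η) * √(2 / κ * ((b n : ℝ) - a n))) :=
        mul_le_mul (by linarith only [hk1]) e1 (Real.sqrt_nonneg _) (by linarith only [hη0])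
    _ = ((1 + η) * (1 + η)) * √(2 / κ * ((b n : ℝ) - a n)) := by ring
    _ ≤ (1 + ε) * √(2 / κ * ((b n : ℝ) - a n)) := by
        apply mul_le_mul_of_nonneg_right _ e2
        nlinarith only [hη0, hη1, hηε]

end Pool.Agent.R529.SM
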