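import Mathlib
import Pool.Agent.R529.SM.U1

set_option autoImplicit false
set_option linter.unusedSectionVars false
set_option linter.unusedVariables false

/-! # The intervals from `n` to `n + c √n`, uniformly in `n` -/

open MeasureTheory Filter Set
open scoped ENNReal Topology

namespace Pool.Agent.R529.SM

open Pool.Agent.R528.RM Pool.Agent.R291.RMW

variable {Ω : Type} {m0 : MeasurableSpace Ω} {μ : Measure Ω} [IsProbabilityMeasure μ]
  {ℱ : Filtration ℕ m0} {A : ℕ → Set Ω}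

lemma wu_L_pos {a b : ℕ → ℕ} {κ : ℝ} (h : Wu a b κ) : ∀ᶠ n : ℕ in atTop, 0 < (b n : ℝ) - a n := by
  filter_upwards [h.long.eventually_gt_atTop 0] with n g4
  by_contra hcon
  have : ((b n : ℝ) - a n) / Real.log n ^ 2 ≤ 0 := div_nonpos_of_nonpos_of_nonneg (not_lt.1 hcon) (by positivity)
  linarith

/-- the law of large numbers in the windows -/
theorem wu_count (hA : ∀ n, MeasurableSet[ℱ n] (A n)) {W : ℕ} (hW : 0 < W)
    (hd : ∀ᵐ ω ∂μ, ∀ ε : ℝ, 0 < ε → ∀ᶠ n : ℕ in atTop, |dens μ ℱ A n ω - rhoW W (n + 1)| ≤ ε * rhoW W (n + 1))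
    {a b : ℕ → ℕ} {κ : ℝ} (h : Wu a b κ) :
    ∀ᵐ ω ∂μ, Tendsto (fun n => Ncl A (Finset.Ioc (a n) (b n)) ω / (((b n : ℝ) - a n) / (κ * Real.log n))) atTop (𝓝 1) := by
  have hκ := h.pos
  have hlim := uvR_lim hW h
  have hDpos : ∀ᶠ n : ℕ in atTop, 0 < ((b n : ℝ) - a n) / (κ * Real.log n) := by
    filter_upwards [wu_L_pos h, tendsto_log.eventually_gt_atTop 0] with n g1 g2
    positivity
  filter_upwards [wu_law (μ := μ) (ℱ := ℱ) hA hW hd h, hd] with ω h1 h2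
  have hz : Tendsto (fun n => (VS μ ℱ A (Finset.Ioc (a n) (b n)) ω - vR W (Finset.Ioc (a n) (b n))) /
      (((b n : ℝ) - a n) / (κ * Real.log n))) atTop (𝓝 0) := by
    rw [Metric.tendsto_nhds]
    intro ε hε
    obtain ⟨n₀, hn₀⟩ := eventually_atTop.1 (h2 (ε / 4) (by positivity))
    filter_upwards [(ua_top h).eventually_ge_atTop n₀, hlim.eventually (eventually_lt_nhds (show (1 : ℝ) < 2 by norm_num)), hDpos] with n g1 g2 g3
    rw [div_lt_iff₀ g3] at g2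
    rw [Real.dist_eq, sub_zero, abs_div, abs_of_pos g3, div_lt_iff₀ g3]
    have g4 : |VS μ ℱ A (Finset.Ioc (a n) (b n)) ω - vR W (Finset.Ioc (a n) (b n))| ≤ ε / 4 * vR W (Finset.Ioc (a n) (b n)) := by
      unfold VS vR
      rw [← Finset.sum_sub_distrib, Finset.mul_sum]
      refine (Finset.abs_sum_le_sum_abs _ _).trans (Finset.sum_le_sum fun m hm => ?_)
      have g5 := (Finset.mem_Ioc.1 hm).1
      have g6 := hn₀ (m - 1) (by omega)
      rwa [show m - 1 + 1 = m by omega] at g6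
    have g5 : ε / 4 * vR W (Finset.Ioc (a n) (b n)) ≤ ε / 4 * (2 * (((b n : ℝ) - a n) / (κ * Real.log n))) :=
      mul_le_mul_of_nonneg_left g2.le (by positivity)
    have g6 : 0 < ε * (((b n : ℝ) - a n) / (κ * Real.log n)) := by positivity
    linarith only [g4, g5, g6]
  have hc : Tendsto (fun n => CS μ ℱ A (Finset.Ioc (a n) (b n)) ω / (((b n : ℝ) - a n) / (κ * Real.log n))) atTop (𝓝 0) := by
    have hb : Tendsto (fun n : ℕ => √(8 * κ / (((b n : ℝ) - a n) / Real.log n ^ 2))) atTop (𝓝 0) := by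
      have := (h.long.const_div_atTop (8 * κ)).sqrt
      rwa [Real.sqrt_zero] at this
    refine squeeze_zero_norm' ?_ hb
    filter_upwards [(h1 1 one_pos), wu_L_pos h, tendsto_log.eventually_gt_atTop 0] with n g1 g2 g3
    have g4 : 0 < ((b n : ℝ) - a n) / (κ * Real.log n) := by positivity
    rw [Real.norm_eq_abs, abs_div, abs_of_pos g4]
    refine (div_le_div_of_nonneg_right g1 g4.le).trans ?_
    apply Real.le_sqrt_of_sq_le
    rw [div_pow, mul_pow, Real.sq_sqrt (by positivity)]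
    apply le_of_eq
    field_simp
    ring
  have h3 := (hc.add hz).add hlim
  rw [zero_add, zero_add] at h3
  refine h3.congr fun n => ?_
  rw [CS_eq]
  ring


lemma CS_add (A : ℕ → Set Ω) (ω : Ω) {a b c : ℕ} (h1 : a ≤ b) (h2 : b ≤ c) :
    CS μ ℱ A (Finset.Ioc a c) ω = CS μ ℱ A (Finset.Ioc a b) ω + CS μ ℱ A (Finset.Ioc b c) ω := by
  unfold CS
  rw [← Finset.sum_union]
  · congr 1
    ext m
    simp only [Finset.mem_Ioc, Finset.mem_union]
    omega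
  · rw [Finset.disjoint_left]
    intro m hm hm'
    have := (Finset.mem_Ioc.1 hm).2
    have := (Finset.mem_Ioc.1 hm').1
    omega

/-- the grid -/
def G (M k : ℕ) : ℕ := k ^ 2 / (4 * M ^ 2)

/-- the index of the grid point before `n` -/
def ki (M n : ℕ) : ℕ := Nat.sqrt (4 * M ^ 2 * n)

/-- the end of the interval -/
noncomputable def yy (c : ℝ) (n : ℕ) : ℕ := n + ⌊c * √(n : ℝ)⌋₊

lemma G_mono (M : ℕ) : Monotone (G M) := fun i j h => by
  unfold G
  exact Nat.div_le_div_right (Nat.pow_le_pow_left h 2)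

lemma ki_mono (M : ℕ) : Monotone (ki M) := fun i j h => by
  unfold ki
  exact Nat.sqrt_le_sqrt (Nat.mul_le_mul_left _ h)

lemma G_ki_le {M : ℕ} (hM : 0 < M) (n : ℕ) : G M (ki M n) ≤ n := by
  unfold G ki
  have h1 := Nat.sqrt_le' (4 * M ^ 2 * n)
  exact Nat.div_le_of_le_mul h1

lemma le_G_ki {M : ℕ} (hM : 0 < M) (n : ℕ) : n ≤ G M (ki M n + 1) := by
  unfold G ki
  rw [Nat.le_div_iff_mul_le (by positivity)]
  have h1 := Nat.lt_succ_sqrt' (4 * M ^ 2 * n)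
  calc n * (4 * M ^ 2) = 4 * M ^ 2 * n := by ring
    _ ≤ _ := h1.le

lemma G_le {M : ℕ} (k : ℕ) : (G M k : ℝ) ≤ (k : ℝ) ^ 2 / (4 * (M : ℝ) ^ 2) := by
  have := Nat.cast_div_le (α := ℝ) (m := k ^ 2) (n := 4 * M ^ 2)
  unfold G
  push_cast at this ⊢
  exact this

lemma G_ge {M : ℕ} (hM : 0 < M) (k : ℕ) : (k : ℝ) ^ 2 / (4 * (M : ℝ) ^ 2) - 1 ≤ G M k := by
  have h1 : 0 < 4 * M ^ 2 := by positivity
  have h2 := Nat.lt_div_mul_add (a := k ^ 2) h1
  have h3 : (k : ℝ) ^ 2 < (G M k : ℝ) * (4 * (M : ℝ) ^ 2) + 4 * (M : ℝ) ^ 2 := by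
    unfold G
    exact_mod_cast h2
  have h4 : (0 : ℝ) < 4 * (M : ℝ) ^ 2 := by exact_mod_cast h1
  rw [sub_le_iff_le_add, div_le_iff₀ h4]
  nlinarith

lemma ki_le (M n : ℕ) : (ki M n : ℝ) ≤ 2 * M * √(n : ℝ) := by
  have h1 := Nat.sqrt_le' (4 * M ^ 2 * n)
  have h2 : (ki M n : ℝ) ^ 2 ≤ 4 * (M : ℝ) ^ 2 * n := by
    unfold ki
    exact_mod_cast h1
  have h3 : (2 * (M : ℝ) * √(n : ℝ)) ^ 2 = 4 * (M : ℝ) ^ 2 * n := by
    rw [mul_pow, mul_pow, Real.sq_sqrt (Nat.cast_nonneg n)]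
    norm_num
  rw [← h3] at h2
  exact le_of_sq_le_sq h2 (by positivity)

lemma ki_ge (M n : ℕ) : 2 * (M : ℝ) * √(n : ℝ) ≤ ki M n + 1 := by
  have h1 := Nat.lt_succ_sqrt' (4 * M ^ 2 * n)
  have h2 : 4 * (M : ℝ) ^ 2 * n ≤ ((ki M n : ℝ) + 1) ^ 2 := by
    unfold ki
    exact_mod_cast h1.le
  have h3 : (2 * (M : ℝ) * √(n : ℝ)) ^ 2 = 4 * (M : ℝ) ^ 2 * n := by
    rw [mul_pow, mul_pow, Real.sq_sqrt (Nat.cast_nonneg n)]
    norm_num
  rw [← h3] at h2
  exact le_of_sq_le_sq h2 (by positivity)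

end Pool.Agent.R529.SM
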