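import Mathlib
import Pool.Agent.R529.SM.U2

set_option autoImplicit false
set_option linter.unusedSectionVars false
set_option linter.unusedVariables false

/-! # The intervals from `n` to `n + c √n`, uniformly in `n`: the laws on the grid -/

open MeasureTheory Filter Set
open scoped ENNReal Topology

namespace Pool.Agent.R529.SM

open Pool.Agent.R528.RM Pool.Agent.R291.RMW

variable {Ω : Type} {m0 : MeasurableSpace Ω} {μ : Measure Ω} [IsProbabilityMeasure μ]
  {ℱ : Filtration ℕ m0} {A : ℕ → Set Ω}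

lemma log_squeeze {a : ℕ → ℕ} {κ : ℕ} {C₁ C₂ : ℝ} (h1 : 0 < C₁) (h2 : 0 < C₂)
    (h : ∀ᶠ n : ℕ in atTop, C₁ * (n : ℝ) ^ κ ≤ a n ∧ (a n : ℝ) ≤ C₂ * (n : ℝ) ^ κ) :
    Tendsto (fun n : ℕ => Real.log (a n) / Real.log n) atTop (𝓝 (κ : ℝ)) := by
  have e1 : Tendsto (fun n : ℕ => Real.log C₁ / Real.log n + κ) atTop (𝓝 (0 + (κ : ℝ))) :=
    (tendsto_log.const_div_atTop _).add_const _
  have e2 : Tendsto (fun n : ℕ => Real.log C₂ / Real.log n + κ) atTop (𝓝 (0 + (κ : ℝ))) :=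
    (tendsto_log.const_div_atTop _).add_const _
  rw [zero_add] at e1 e2
  refine tendsto_of_tendsto_of_tendsto_of_le_of_le' e1 e2 ?_ ?_
  · filter_upwards [h, tendsto_log.eventually_gt_atTop 0, eventually_gt_atTop 0] with n ⟨g1, g2⟩ g3 g4
    have hn : (0 : ℝ) < n := by exact_mod_cast g4
    have g5 := Real.log_le_log (by positivity) g1
    rw [Real.log_mul h1.ne' (by positivity), Real.log_pow] at g5
    rw [le_div_iff₀ g3, add_mul, div_mul_cancel₀ _ g3.ne']
    exact g5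
  · filter_upwards [h, tendsto_log.eventually_gt_atTop 0, eventually_gt_atTop 0] with n ⟨g1, g2⟩ g3 g4
    have hn : (0 : ℝ) < n := by exact_mod_cast g4
    have ha : (0 : ℝ) < a n := lt_of_lt_of_le (by positivity) g1
    have g5 := Real.log_le_log ha g2
    rw [Real.log_mul h2.ne' (by positivity), Real.log_pow] at g5
    rw [div_le_iff₀ g3, add_mul, div_mul_cancel₀ _ g3.ne']
    exact g5

lemma sqrt_log_top {c : ℝ} (hc : 0 < c) : Tendsto (fun n : ℕ => c * √(n : ℝ) / Real.log n ^ 2) atTop atTop := by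
  have h2 : Tendsto (fun x : ℝ => x / Real.log x ^ 2) atTop atTop := by
    have h3 := (Real.isLittleO_pow_log_id_atTop (n := 2)).tendsto_div_nhds_zero
    have h4 : ∀ᶠ x : ℝ in atTop, 0 < Real.log x ^ 2 / id x := by
      filter_upwards [eventually_gt_atTop 1] with x hx
      have := Real.log_pos hx
      have : 0 < x := by linarith
      simp only [id]
      positivity
    have h5 := (tendsto_inv_nhdsGT_zero (𝕜 := ℝ)).comp (tendsto_nhdsWithin_iff.2 ⟨h3, h4⟩)
    refine h5.congr fun x => ?_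
    simp only [Function.comp, id]
    rw [inv_div]
  have h1 : Tendsto (fun n : ℕ => √(n : ℝ) / Real.log (√(n : ℝ)) ^ 2) atTop atTop :=
    h2.comp (Real.tendsto_sqrt_atTop.comp tendsto_natCast_atTop_atTop)
  refine (h1.const_mul_atTop (show 0 < c / 4 by positivity)).congr fun n => ?_
  rw [Real.log_sqrt (Nat.cast_nonneg n)]
  ring

lemma tendsto_sqrt_nat : Tendsto (fun n : ℕ => √(n : ℝ)) atTop atTop :=
  Real.tendsto_sqrt_atTop.comp tendsto_natCast_atTop_atTop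

/-- windows between grid points -/
lemma wu_grid {M : ℕ} (hM : 0 < M) {i : ℕ} (hi : 0 < i) : Wu (fun k => G M k) (fun k => G M (k + i)) 2 := by
  have hMr : (0 : ℝ) < M := by exact_mod_cast hM
  have hbig : ∀ᶠ k : ℕ in atTop, (8 : ℝ) * M ^ 2 ≤ k ∧ (i : ℝ) ≤ k ∧ (1 : ℝ) ≤ k := by
    filter_upwards [tendsto_natCast_atTop_atTop.eventually_ge_atTop ((8 : ℝ) * M ^ 2),
      tendsto_natCast_atTop_atTop.eventually_ge_atTop (i : ℝ), tendsto_natCast_atTop_atTop.eventually_ge_atTop (1 : ℝ)] with k h1 h2 h3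
    exact ⟨h1, h2, h3⟩
  have hlow : ∀ᶠ k : ℕ in atTop, 1 / (8 * (M : ℝ) ^ 2) * (k : ℝ) ^ 2 ≤ G M k := by
    filter_upwards [hbig] with k ⟨h1, h2, h3⟩
    refine le_trans ?_ (G_ge hM k)
    have e : (k : ℝ) ^ 2 / (4 * (M : ℝ) ^ 2) - 1 - 1 / (8 * (M : ℝ) ^ 2) * (k : ℝ) ^ 2 = ((k : ℝ) ^ 2 - 8 * M ^ 2) / (8 * (M : ℝ) ^ 2) := by
      field_simp
      ring
    have : 0 ≤ ((k : ℝ) ^ 2 - 8 * M ^ 2) / (8 * (M : ℝ) ^ 2) := by
      apply div_nonneg _ (by positivity)
      nlinarith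
    linarith
  have hup : ∀ k : ℕ, (G M k : ℝ) ≤ (k : ℝ) ^ 2 := fun k => by
    refine (G_le k).trans (div_le_self (by positivity) ?_)
    have : (1 : ℝ) ≤ M := by exact_mod_cast hM
    nlinarith
  refine ⟨by norm_num, Eventually.of_forall fun k => G_mono M (by omega), ?_, ?_, ?_⟩
  · have := log_squeeze (a := fun k => G M k) (κ := 2) (C₁ := 1 / (8 * (M : ℝ) ^ 2)) (C₂ := 1) (by positivity) one_pos (by
      filter_upwards [hlow] with k hk
      exact ⟨hk, by rw [one_mul]; exact hup k⟩)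
    exact_mod_cast this
  · have := log_squeeze (a := fun k => G M (k + i)) (κ := 2) (C₁ := 1 / (8 * (M : ℝ) ^ 2)) (C₂ := 4) (by positivity) (by norm_num) (by
      filter_upwards [hlow, hbig] with k hk ⟨h1, h2, h3⟩
      refine ⟨hk.trans (by exact_mod_cast G_mono M (by omega)), (hup _).trans ?_⟩
      push_cast
      nlinarith)
    exact_mod_cast this
  · refine tendsto_atTop_mono' _ ?_ (lin_log_top (show 0 < 1 / (4 * (M : ℝ) ^ 2) by positivity))
    filter_upwards [hbig, tendsto_log.eventually_gt_atTop 0] with k ⟨h1, h2, h3⟩ h4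
    apply div_le_div_of_nonneg_right _ (by positivity)
    have g1 := G_ge hM (k + i)
    have g2 := G_le (M := M) k
    push_cast at g1
    have hi1 : (1 : ℝ) ≤ i := by exact_mod_cast hi
    have e : ((k : ℝ) + i) ^ 2 / (4 * (M : ℝ) ^ 2) - 1 - (k : ℝ) ^ 2 / (4 * (M : ℝ) ^ 2) - 1 / (4 * (M : ℝ) ^ 2) * k =
        (2 * k * i + i ^ 2 - k - 4 * M ^ 2) / (4 * (M : ℝ) ^ 2) := by
      field_simp
      ring
    have : 0 ≤ (2 * (k : ℝ) * i + i ^ 2 - k - 4 * M ^ 2) / (4 * (M : ℝ) ^ 2) := by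
      apply div_nonneg _ (by positivity)
      nlinarith
    linarith

/-- windows from the grid to an arbitrary point -/
lemma wu_point {M : ℕ} (hM : 0 < M) {z : ℕ → ℕ} {K : ℝ} (hK : 1 ≤ K) (hz : ∀ n : ℕ, n ≤ z n) (hz2 : ∀ᶠ n : ℕ in atTop, (z n : ℝ) ≤ K * n) :
    Wu (fun n => G M (ki M (z n) - 1)) z 1 := by
  have hMr : (1 : ℝ) ≤ M := by exact_mod_cast hM
  have hcast : ∀ᶠ n : ℕ in atTop, (1 : ℝ) ≤ ki M (z n) ∧ ((ki M (z n) - 1 : ℕ) : ℝ) = ki M (z n) - 1 ∧ M * √(n : ℝ) ≤ (ki M (z n) : ℝ) - 1 ∧ 16 * M ≤ √(n : ℝ) ∧ (8 : ℝ) ≤ n := by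
    filter_upwards [tendsto_sqrt_nat.eventually_ge_atTop (16 * M), tendsto_natCast_atTop_atTop.eventually_ge_atTop (8 : ℝ)] with n h1 h2
    have g1 := ki_ge M (z n)
    have g2 : √(n : ℝ) ≤ √(z n : ℝ) := Real.sqrt_le_sqrt (by exact_mod_cast hz n)
    have g3 : M * √(n : ℝ) ≤ M * √(z n : ℝ) := mul_le_mul_of_nonneg_left g2 (by linarith)
    have g4 : 16 ≤ √(n : ℝ) := by linarith
    have g5 : 16 ≤ M * √(n : ℝ) := by nlinarith
    have g6 : (1 : ℝ) ≤ ki M (z n) := by nlinarith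
    refine ⟨g6, ?_, by nlinarith, h1, h2⟩
    rw [Nat.cast_sub (by exact_mod_cast g6), Nat.cast_one]
  refine ⟨one_pos, Eventually.of_forall fun n => (G_mono M (by omega)).trans (G_ki_le hM _), ?_, ?_, ?_⟩
  · have := log_squeeze (a := fun n => G M (ki M (z n) - 1)) (κ := 1) (C₁ := 1 / 8) (C₂ := K) (by norm_num) (by linarith) (by
      filter_upwards [hcast, hz2] with n ⟨h1, h2, h3, h4, h5⟩ h6
      rw [pow_one]
      constructor
      · refine le_trans ?_ (G_ge hM _)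
        rw [h2]
        have g1 : (M * √(n : ℝ)) ^ 2 ≤ ((ki M (z n) : ℝ) - 1) ^ 2 := pow_le_pow_left₀ (by positivity) h3 2
        rw [mul_pow, Real.sq_sqrt (Nat.cast_nonneg n)] at g1
        have g2 : (n : ℝ) / 4 ≤ ((ki M (z n) : ℝ) - 1) ^ 2 / (4 * (M : ℝ) ^ 2) := by
          rw [le_div_iff₀ (by positivity)]
          nlinarith
        linarith
      · refine le_trans ?_ h6
        exact_mod_cast (G_mono M (by omega)).trans (G_ki_le hM (z n)))
    exact_mod_cast this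
  · have := log_squeeze (a := z) (κ := 1) (C₁ := 1) (C₂ := K) one_pos (by linarith) (by
      filter_upwards [hz2] with n h6
      rw [pow_one, one_mul]
      exact ⟨by exact_mod_cast hz n, h6⟩)
    exact_mod_cast this
  · refine tendsto_atTop_mono' _ ?_ (sqrt_log_top (show 0 < 1 / (4 * (M : ℝ)) by positivity))
    filter_upwards [hcast, tendsto_log.eventually_gt_atTop 0] with n ⟨h1, h2, h3, h4, h5⟩ h7
    apply div_le_div_of_nonneg_right _ (by positivity)
    have g1 := G_ge hM (ki M (z n))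
    have g2 := G_le (M := M) (ki M (z n) - 1)
    rw [h2] at g2
    have g3 : (G M (ki M (z n)) : ℝ) ≤ z n := by exact_mod_cast G_ki_le hM (z n)
    have e : (ki M (z n) : ℝ) ^ 2 / (4 * (M : ℝ) ^ 2) - 1 - ((ki M (z n) : ℝ) - 1) ^ 2 / (4 * (M : ℝ) ^ 2) - 1 / (4 * (M : ℝ)) * √(n : ℝ) =
        (2 * ki M (z n) - 1 - 4 * M ^ 2 - M * √(n : ℝ)) / (4 * (M : ℝ) ^ 2) := by
      field_simp
      ring
    have : 0 ≤ (2 * (ki M (z n) : ℝ) - 1 - 4 * M ^ 2 - M * √(n : ℝ)) / (4 * (M : ℝ) ^ 2) := by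
      apply div_nonneg _ (by positivity)
      nlinarith
    linarith

end Pool.Agent.R529.SM
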