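import Mathlib
import Pool.Agent.R529.SM.U3

set_option autoImplicit false
set_option linter.unusedSectionVars false
set_option linter.unusedVariables false

/-! # The intervals from `n` to `n + c √n`, uniformly in `n`: the law -/

open MeasureTheory Filter Set
open scoped ENNReal Topology

namespace Pool.Agent.R529.SM

open Pool.Agent.R528.RM Pool.Agent.R291.RMW

variable {Ω : Type} {m0 : MeasurableSpace Ω} {μ : Measure Ω} [IsProbabilityMeasure μ]
  {ℱ : Filtration ℕ m0} {A : ℕ → Set Ω}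

lemma le_yy (c : ℝ) (n : ℕ) : n ≤ yy c n := Nat.le_add_right _ _

lemma yy_le {c : ℝ} (hc : 0 ≤ c) (n : ℕ) : (yy c n : ℝ) ≤ n + c * √(n : ℝ) := by
  unfold yy
  push_cast
  have := Nat.floor_le (show 0 ≤ c * √(n : ℝ) by positivity)
  linarith

lemma yy_ge (c : ℝ) (n : ℕ) : (n : ℝ) + c * √(n : ℝ) - 1 ≤ yy c n := by
  unfold yy
  push_cast
  have := Nat.lt_floor_add_one (c * √(n : ℝ))
  linarith

lemma sqrt_yy {c : ℝ} (hc : 0 ≤ c) (n : ℕ) : √(yy c n : ℝ) ≤ √(n : ℝ) + c / 2 := by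
  rw [Real.sqrt_le_left (by positivity)]
  refine (yy_le hc n).trans ?_
  have := Real.sq_sqrt (Nat.cast_nonneg (α := ℝ) n)
  nlinarith [sq_nonneg c]

lemma yy_lin {c : ℝ} (hc : 0 ≤ c) : ∀ᶠ n : ℕ in atTop, (yy c n : ℝ) ≤ (1 + c) * n := by
  filter_upwards [eventually_ge_atTop 1] with n hn
  refine (yy_le hc n).trans ?_
  have hn' : (1 : ℝ) ≤ n := by exact_mod_cast hn
  have h1 : √(n : ℝ) ≤ n := by
    rw [Real.sqrt_le_left (by linarith)]
    nlinarith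
  nlinarith

/-- the distance to the grid -/
lemma grid_dist {M : ℕ} (hM : 0 < M) (n : ℕ) : (n : ℝ) - G M (ki M n) ≤ √(n : ℝ) / M + 2 := by
  have hMr : (1 : ℝ) ≤ M := by exact_mod_cast hM
  have h1 : (n : ℝ) ≤ ((ki M n + 1 : ℕ) : ℝ) ^ 2 / (4 * (M : ℝ) ^ 2) :=
    le_trans (by exact_mod_cast le_G_ki hM n) (G_le _)
  have h2 := G_ge hM (ki M n)
  have h3 := ki_le M n
  push_cast at h1
  have e : ((ki M n : ℝ) + 1) ^ 2 / (4 * (M : ℝ) ^ 2) - ((ki M n : ℝ) ^ 2 / (4 * (M : ℝ) ^ 2) - 1) =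
      (2 * ki M n + 1) / (4 * (M : ℝ) ^ 2) + 1 := by
    field_simp
    ring
  have h4 : (2 * (ki M n : ℝ) + 1) / (4 * (M : ℝ) ^ 2) ≤ √(n : ℝ) / M + 1 := by
    rw [div_add_one (by positivity), div_le_div_iff₀ (by positivity) (by positivity)]
    have : 0 ≤ √(n : ℝ) := Real.sqrt_nonneg _
    nlinarith [mul_nonneg this (show (0 : ℝ) ≤ M by linarith)]
  linarith

lemma grid_dist2 {M : ℕ} (hM : 0 < M) (n : ℕ) (hk : 1 ≤ ki M n) : (n : ℝ) - G M (ki M n - 1) ≤ 2 * √(n : ℝ) / M + 1 := by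
  have hMr : (1 : ℝ) ≤ M := by exact_mod_cast hM
  have h1 : (n : ℝ) ≤ ((ki M n + 1 : ℕ) : ℝ) ^ 2 / (4 * (M : ℝ) ^ 2) :=
    le_trans (by exact_mod_cast le_G_ki hM n) (G_le _)
  have h2 := G_ge hM (ki M n - 1)
  rw [Nat.cast_sub hk, Nat.cast_one] at h2
  have h3 := ki_le M n
  push_cast at h1
  have e : ((ki M n : ℝ) + 1) ^ 2 / (4 * (M : ℝ) ^ 2) - (((ki M n : ℝ) - 1) ^ 2 / (4 * (M : ℝ) ^ 2) - 1) =
      ki M n / (M : ℝ) ^ 2 + 1 := by
    field_simp
    ring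
  have h4 : (ki M n : ℝ) / (M : ℝ) ^ 2 ≤ 2 * √(n : ℝ) / M := by
    rw [div_le_div_iff₀ (by positivity) (by positivity)]
    nlinarith
  linarith

lemma ki_yy {M : ℕ} (hM : 0 < M) {c : ℝ} (hc : 0 ≤ c) (n : ℕ) : ki M (yy c n) ≤ ki M n + (⌈(M : ℝ) * c⌉₊ + 1) := by
  have h1 := ki_le M (yy c n)
  have h2 := ki_ge M n
  have h3 := sqrt_yy hc n
  have h4 := Nat.le_ceil ((M : ℝ) * c)
  have hMr : (0 : ℝ) < M := by exact_mod_cast hM
  have h5 : (ki M (yy c n) : ℝ) ≤ ((ki M n + (⌈(M : ℝ) * c⌉₊ + 1) : ℕ) : ℝ) := by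
    push_cast
    nlinarith
  exact_mod_cast h5

lemma ki_tendsto {M : ℕ} (hM : 0 < M) : Tendsto (ki M) atTop atTop := by
  rw [← tendsto_natCast_atTop_iff (R := ℝ)]
  have h1 : Tendsto (fun n : ℕ => 2 * (M : ℝ) * √(n : ℝ) - 1) atTop atTop :=
    tendsto_atTop_add_const_right _ _ (tendsto_sqrt_nat.const_mul_atTop (by positivity))
  exact tendsto_atTop_mono (fun n => by have := ki_ge M n; linarith) h1

lemma sqrt_sub_add {x y : ℝ} (hx : 0 ≤ x) (hy : 0 ≤ y) : √(x + y) ≤ √x + √y := by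
  rw [Real.sqrt_le_left (by positivity)]
  have h1 := Real.sq_sqrt hx
  have h2 := Real.sq_sqrt hy
  have h3 : 0 ≤ √x * √y := by positivity
  nlinarith

set_option maxHeartbeats 2000000 in
/-- **the deviations in all the intervals `(n, n + c √n]`** -/
theorem unif_upper (hA : ∀ n, MeasurableSet[ℱ n] (A n)) {W : ℕ} (hW : 0 < W)
    (hd : ∀ᵐ ω ∂μ, ∀ ε : ℝ, 0 < ε → ∀ᶠ n : ℕ in atTop, |dens μ ℱ A n ω - rhoW W (n + 1)| ≤ ε * rhoW W (n + 1))
    {c : ℝ} (hc : 0 < c) :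
    ∀ᵐ ω ∂μ, ∀ ε : ℝ, 0 < ε → ∀ᶠ n : ℕ in atTop,
      |CS μ ℱ A (Finset.Ioc n (yy c n)) ω| ≤ (1 + ε) * √(c * √(n : ℝ)) := by
  have L1 : ∀ᵐ ω ∂μ, ∀ M i : ℕ, 0 < M → 0 < i → ∀ ε : ℝ, 0 < ε → ∀ᶠ k : ℕ in atTop,
      |CS μ ℱ A (Finset.Ioc (G M k) (G M (k + i))) ω| ≤ (1 + ε) * √(2 / 2 * ((G M (k + i) : ℝ) - G M k)) := by
    rw [ae_all_iff]; intro M
    rw [ae_all_iff]; intro i
    by_cases hM : 0 < M
    · by_cases hi : 0 < i
      · filter_upwards [wu_law (μ := μ) (ℱ := ℱ) hA hW hd (wu_grid hM hi)] with ω hω _ _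
        exact hω
      · exact Eventually.of_forall fun ω _ h => absurd h hi
    · exact Eventually.of_forall fun ω h => absurd h hM
  have L2 : ∀ᵐ ω ∂μ, ∀ M : ℕ, 0 < M → ∀ ε : ℝ, 0 < ε → ∀ᶠ n : ℕ in atTop,
      |CS μ ℱ A (Finset.Ioc (G M (ki M n - 1)) n) ω| ≤ (1 + ε) * √(2 / 1 * ((n : ℝ) - G M (ki M n - 1))) := by
    rw [ae_all_iff]; intro M
    by_cases hM : 0 < M
    · filter_upwards [wu_law (μ := μ) (ℱ := ℱ) hA hW hd (wu_point hM (z := fun n => n) (K := 1) le_rfl (fun n => le_rfl)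
        (Eventually.of_forall fun n => by rw [one_mul]))] with ω hω _
      exact hω
    · exact Eventually.of_forall fun ω h => absurd h hM
  have L3 : ∀ᵐ ω ∂μ, ∀ M : ℕ, 0 < M → ∀ ε : ℝ, 0 < ε → ∀ᶠ n : ℕ in atTop,
      |CS μ ℱ A (Finset.Ioc (G M (ki M (yy c n) - 1)) (yy c n)) ω| ≤ (1 + ε) * √(2 / 1 * ((yy c n : ℝ) - G M (ki M (yy c n) - 1))) := by
    rw [ae_all_iff]; intro M
    by_cases hM : 0 < M
    · filter_upwards [wu_law (μ := μ) (ℱ := ℱ) hA hW hd (wu_point hM (z := yy c) (K := 1 + c) (by linarith) (le_yy c)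
        (yy_lin hc.le))] with ω hω _
      exact hω
    · exact Eventually.of_forall fun ω h => absurd h hM
  filter_upwards [L1, L2, L3] with ω l1 l2 l3 ε₀ hε₀
  set ε : ℝ := min ε₀ 1 with hε
  have hε0 : 0 < ε := lt_min hε₀ one_pos
  have hε1 : ε ≤ 1 := min_le_right _ _
  have hεε : ε ≤ ε₀ := min_le_left _ _
  have hsc : 0 < √c := Real.sqrt_pos.2 hc
  obtain ⟨M, hMb⟩ := exists_nat_gt ((46 / (ε * √c)) ^ 2)
  have hMr0 : (0 : ℝ) < M := lt_of_le_of_lt (by positivity) hMb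
  have hM : 0 < M := by exact_mod_cast hMr0
  have hMr : (1 : ℝ) ≤ M := by exact_mod_cast hM
  have hsM : 0 < √(M : ℝ) := Real.sqrt_pos.2 hMr0
  have hM46 : 23 / √(M : ℝ) ≤ ε / 2 * √c := by
    have h1 : 46 / (ε * √c) ≤ √(M : ℝ) := Real.le_sqrt_of_sq_le hMb.le
    rw [div_le_iff₀ (by positivity)] at h1
    rw [div_le_iff₀ hsM]
    nlinarith
  set I : ℕ := ⌈(M : ℝ) * c⌉₊ + 1 with hI
  have m1 : ∀ᶠ k : ℕ in atTop, ∀ i ∈ Finset.range (I + 1), 0 < i →
      |CS μ ℱ A (Finset.Ioc (G M k) (G M (k + i))) ω| ≤ (1 + ε / 2) * √(2 / 2 * ((G M (k + i) : ℝ) - G M k)) := by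
    rw [Finset.eventually_all]
    intro i _
    by_cases hi : 0 < i
    · filter_upwards [l1 M i hM hi (ε / 2) (by positivity)] with k hk _
      exact hk
    · exact Eventually.of_forall fun k h => absurd h hi
  have hkt := ki_tendsto hM
  have hkt1 : Tendsto (fun n => ki M n - 1) atTop atTop := (tendsto_sub_atTop_nat 1).comp hkt
  have hyt : Tendsto (yy c) atTop atTop := tendsto_atTop_mono (le_yy c) tendsto_id
  have hkt2 : Tendsto (fun n => ki M (yy c n) - 1) atTop atTop := hkt1.comp hyt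
  have m2 := l1 M 1 hM one_pos 1 one_pos
  filter_upwards [hkt.eventually m1, hkt1.eventually m2, hkt2.eventually m2, l2 M hM 1 one_pos, l3 M hM 1 one_pos,
    hkt.eventually_ge_atTop 1, tendsto_sqrt_nat.eventually_ge_atTop (c + 2 * M)] with n a1 a2 a3 a4 a5 a6 a7
  set r := ki M n with hr
  set r' := ki M (yy c n) with hr'
  set y := yy c n with hy
  set s : ℝ := √(n : ℝ) with hs
  have hny : n ≤ y := le_yy c n
  have hrr : r ≤ r' := ki_mono M hny
  have hr'1 : 1 ≤ r' := a6.trans hrr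
  have hrI : r' ≤ r + I := ki_yy hM hc.le n
  have e1 : r - 1 + 1 = r := by omega
  have e2 : r' - 1 + 1 = r' := by omega
  rw [e1] at a2
  rw [e2] at a3
  have hs0 : 0 < s := by linarith
  have hsM' : 2 ≤ s / M := by
    rw [le_div_iff₀ hMr0]
    linarith
  -- lengths
  have b1 : (n : ℝ) - G M (r - 1) ≤ 3 * (s / M) := by
    have := grid_dist2 hM n a6
    rw [mul_div_assoc] at this
    linarith
  have b2 : (y : ℝ) - G M (r' - 1) ≤ 3 * (s / M) := by
    have h1 := grid_dist2 hM y hr'1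
    have h2 := sqrt_yy hc.le n
    have h3 : 2 * √(y : ℝ) / M ≤ 2 * (s + c / 2) / M := by
      apply div_le_div_of_nonneg_right _ hMr0.le
      linarith
    have h4 : 2 * (s + c / 2) / M + 1 ≤ 3 * (s / M) := by
      rw [← mul_div_assoc, div_add_one hMr0.ne']
      apply div_le_div_of_nonneg_right _ hMr0.le
      linarith
    linarith
  have hGr : G M r ≤ n := G_ki_le hM n
  have hGr' : G M r' ≤ y := G_ki_le hM y
  have hGr1 : G M (r - 1) ≤ G M r := G_mono M (by omega)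
  have hGr'1 : G M (r' - 1) ≤ G M r' := G_mono M (by omega)
  have hGrr : G M r ≤ G M r' := G_mono M hrr
  have b3 : (G M r : ℝ) - G M (r - 1) ≤ 3 * (s / M) := by
    have : (G M r : ℝ) ≤ n := by exact_mod_cast hGr
    linarith
  have b4 : (G M r' : ℝ) - G M (r' - 1) ≤ 3 * (s / M) := by
    have : (G M r' : ℝ) ≤ y := by exact_mod_cast hGr'
    linarith
  have b5 : (G M r' : ℝ) - G M r ≤ c * s + 2 * (s / M) := by
    have h1 : (G M r' : ℝ) ≤ y := by exact_mod_cast hGr'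
    have h2 := yy_le hc.le n
    have h3 := grid_dist hM n
    linarith
  set T : ℝ := √s with hT
  have hT0 : 0 ≤ T := Real.sqrt_nonneg _
  -- the remainders
  set D : ℝ := 5 * (T / √(M : ℝ)) with hD
  have hrem : ∀ l : ℝ, l ≤ 6 * (s / M) → (1 + 1) * √l ≤ D := by
    intro l hl
    have h1 : √l ≤ √(6 * (s / M)) := Real.sqrt_le_sqrt hl
    have h2 : √(6 * (s / M)) ≤ 5 / 2 * (T / √(M : ℝ)) := by
      have e : (T / √(M : ℝ)) ^ 2 = s / M := by
        rw [div_pow, hT, Real.sq_sqrt hs0.le, Real.sq_sqrt hMr0.le]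
      rw [Real.sqrt_le_left (by positivity), mul_pow, e]
      have : 0 ≤ s / M := by positivity
      linarith
    rw [hD]
    linarith
  have c2 : |CS μ ℱ A (Finset.Ioc (G M (r - 1)) (G M r)) ω| ≤ D := a2.trans (hrem _ (by linarith))
  have c3 : |CS μ ℱ A (Finset.Ioc (G M (r' - 1)) (G M r')) ω| ≤ D := a3.trans (hrem _ (by linarith))
  have c4 : |CS μ ℱ A (Finset.Ioc (G M (r - 1)) n) ω| ≤ D := a4.trans (hrem _ (by linarith))
  have c5 : |CS μ ℱ A (Finset.Ioc (G M (r' - 1)) y) ω| ≤ D := a5.trans (hrem _ (by linarith))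
  have c1 : |CS μ ℱ A (Finset.Ioc (G M r) (G M r')) ω| ≤ (1 + ε / 2) * (√c * T + √(2 / M) * T) := by
    have h0 : 0 ≤ (1 + ε / 2) * (√c * T + √(2 / M) * T) := by positivity
    rcases Nat.eq_or_lt_of_le hrr with h | h
    · rw [h]
      simpa [CS] using h0
    · have h1 := a1 (r' - r) (Finset.mem_range.2 (by omega)) (by omega)
      rw [show r + (r' - r) = r' by omega] at h1
      refine h1.trans ?_
      apply mul_le_mul_of_nonneg_left _ (by positivity)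
      have h2 : √(2 / 2 * ((G M r' : ℝ) - G M r)) ≤ √(c * s + 2 / M * s) := by
        apply Real.sqrt_le_sqrt
        have : 2 * (s / M) = 2 / M * s := by ring
        linarith
      refine h2.trans ?_
      have h3 : √(c * s) = √c * T := Real.sqrt_mul hc.le s
      have h4 : √(2 / M * s) = √(2 / M) * T := Real.sqrt_mul (by positivity) s
      rw [← h3, ← h4]
      exact sqrt_sub_add (by positivity) (by positivity)
  -- decomposition
  have d1 := CS_add (μ := μ) (ℱ := ℱ) A ω (a := G M r) (b := n) (c := y) hGr hny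
  have d2 := CS_add (μ := μ) (ℱ := ℱ) A ω (a := G M (r - 1)) (b := G M r) (c := n) hGr1 hGr
  have d3 := CS_add (μ := μ) (ℱ := ℱ) A ω (a := G M r) (b := G M r') (c := y) hGrr hGr'
  have d4 := CS_add (μ := μ) (ℱ := ℱ) A ω (a := G M (r' - 1)) (b := G M r') (c := y) hGr'1 hGr'
  have hmain : |CS μ ℱ A (Finset.Ioc n y) ω| ≤ (1 + ε / 2) * (√c * T + √(2 / M) * T) + 4 * D := by
    have e : CS μ ℱ A (Finset.Ioc n y) ω = CS μ ℱ A (Finset.Ioc (G M r) (G M r')) ω +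
        (CS μ ℱ A (Finset.Ioc (G M (r' - 1)) y) ω - CS μ ℱ A (Finset.Ioc (G M (r' - 1)) (G M r')) ω) -
        (CS μ ℱ A (Finset.Ioc (G M (r - 1)) n) ω - CS μ ℱ A (Finset.Ioc (G M (r - 1)) (G M r)) ω) := by linarith
    rw [e]
    have f1 := abs_le.1 c1
    have f2 := abs_le.1 c2
    have f3 := abs_le.1 c3
    have f4 := abs_le.1 c4
    have f5 := abs_le.1 c5
    rw [abs_le]
    constructor <;> linarith [f1.1, f1.2, f2.1, f2.2, f3.1, f3.2, f4.1, f4.2, f5.1, f5.2]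
  refine hmain.trans ?_
  have g1 : √(2 / (M : ℝ)) ≤ 3 / 2 / √(M : ℝ) := by
    rw [Real.sqrt_div (by norm_num)]
    apply div_le_div_of_nonneg_right _ hsM.le
    rw [Real.sqrt_le_left (by norm_num)]
    norm_num
  have g2 : (1 + ε / 2) * (√(2 / (M : ℝ)) * T) ≤ 3 * (T / √(M : ℝ)) := by
    have h1 : √(2 / (M : ℝ)) * T ≤ 3 / 2 / √(M : ℝ) * T := mul_le_mul_of_nonneg_right g1 hT0
    have h2 : 3 / 2 / √(M : ℝ) * T = 3 / 2 * (T / √(M : ℝ)) := by ring
    rw [h2] at h1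
    have h3 : 0 ≤ T / √(M : ℝ) := by positivity
    have h4 : 0 ≤ √(2 / (M : ℝ)) * T := by positivity
    have h5 : (1 + ε / 2) * (√(2 / (M : ℝ)) * T) ≤ 3 / 2 * (√(2 / (M : ℝ)) * T) := mul_le_mul_of_nonneg_right (by linarith) h4
    linarith
  have g3 : 23 / √(M : ℝ) * T ≤ ε / 2 * √c * T := mul_le_mul_of_nonneg_right hM46 hT0
  have g4 : 23 / √(M : ℝ) * T = 23 * (T / √(M : ℝ)) := by ring
  rw [g4] at g3
  have g5 : √(c * s) = √c * T := Real.sqrt_mul hc.le s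
  rw [g5]
  have g6 : (1 + ε) * (√c * T) ≤ (1 + ε₀) * (√c * T) := mul_le_mul_of_nonneg_right (by linarith) (by positivity)
  have g7 : (1 + ε / 2) * (√c * T + √(2 / M) * T) = (1 + ε / 2) * (√c * T) + (1 + ε / 2) * (√(2 / M) * T) := by ring
  have g8 : (1 + ε) * (√c * T) = (1 + ε / 2) * (√c * T) + ε / 2 * √c * T := by ring
  rw [g7]
  have h3 : 0 ≤ T / √(M : ℝ) := by positivity
  rw [hD]
  linarith

end Pool.Agent.R529.SM
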