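import Mathlib
import Pool.Agent.R529.SM.U4

set_option autoImplicit false
set_option linter.unusedSectionVars false
set_option linter.unusedVariables false

/-! # The intervals `(x, x + c √x)`, `x` real -/

open MeasureTheory Filter Set
open scoped ENNReal Topology

namespace Pool.Agent.R529.SM

open Pool.Agent.R528.RM Pool.Agent.R291.RMW

variable {Ω : Type} {m0 : MeasurableSpace Ω} {μ : Measure Ω} [IsProbabilityMeasure μ]
  {ℱ : Filtration ℕ m0} {A : ℕ → Set Ω}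

lemma yy_sub_ge (c : ℝ) (n : ℕ) : c * √(n : ℝ) - 1 ≤ (yy c n : ℝ) - n := by
  have := yy_ge c n
  linarith

lemma wu_self {c : ℝ} (hc : 0 < c) : Wu (fun n => n) (yy c) 1 := by
  refine ⟨one_pos, Eventually.of_forall fun n => le_yy c n, ?_, ?_, ?_⟩
  · have := log_squeeze (a := fun n => n) (κ := 1) (C₁ := 1) (C₂ := 1) one_pos one_pos (Eventually.of_forall fun n => by simp)
    exact_mod_cast this
  · have := log_squeeze (a := yy c) (κ := 1) (C₁ := 1) (C₂ := 1 + c) one_pos (by linarith) (by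
      filter_upwards [yy_lin hc.le] with n hn
      rw [pow_one, one_mul]
      exact ⟨by exact_mod_cast le_yy c n, hn⟩)
    exact_mod_cast this
  · refine tendsto_atTop_mono' _ ?_ (sqrt_log_top (show 0 < c / 2 by positivity))
    filter_upwards [(tendsto_sqrt_nat.const_mul_atTop (show 0 < c / 2 by positivity)).eventually_ge_atTop 1] with n h1
    apply div_le_div_of_nonneg_right _ (by positivity)
    have := yy_sub_ge c n
    linarith

lemma sqrt_sq_nat (m n : ℕ) : √(((m * n) ^ 2 : ℕ) : ℝ) = (m : ℝ) * n := by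
  push_cast
  exact Real.sqrt_sq (by positivity)

lemma wd_sq {c : ℝ} (hc : 0 < c) : Wd (fun n => (⌈c⌉₊ * n) ^ 2) (fun n => yy c ((⌈c⌉₊ * n) ^ 2)) 2 := by
  set m := ⌈c⌉₊ with hm
  have hm1 : 1 ≤ m := Nat.one_le_ceil_iff.2 hc
  have hmr : (1 : ℝ) ≤ m := by exact_mod_cast hm1
  have hcm : c ≤ m := Nat.le_ceil c
  have hup : ∀ n : ℕ, (yy c ((m * n) ^ 2) : ℝ) ≤ (m : ℝ) ^ 2 * n ^ 2 + c * (m * n) := by
    intro n
    have := yy_le hc.le ((m * n) ^ 2)
    rw [sqrt_sq_nat] at this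
    push_cast at this
    nlinarith
  refine ⟨by norm_num, Eventually.of_forall fun n => le_yy c _, ?_, ?_, ?_, ?_⟩
  · have := log_squeeze (a := fun n => (m * n) ^ 2) (κ := 2) (C₁ := (m : ℝ) ^ 2) (C₂ := (m : ℝ) ^ 2) (by positivity) (by positivity)
      (Eventually.of_forall fun n => by
        push_cast
        constructor <;> apply le_of_eq <;> ring)
    exact_mod_cast this
  · have := log_squeeze (a := fun n => yy c ((m * n) ^ 2)) (κ := 2) (C₁ := (m : ℝ) ^ 2) (C₂ := (m : ℝ) ^ 2 + c * m) (by positivity) (by positivity)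
      (by
        filter_upwards [eventually_ge_atTop 1] with n hn
        have hn' : (1 : ℝ) ≤ n := by exact_mod_cast hn
        constructor
        · have h1 : (((m * n) ^ 2 : ℕ) : ℝ) ≤ yy c ((m * n) ^ 2) := by exact_mod_cast le_yy c _
          push_cast at h1
          nlinarith
        · refine (hup n).trans ?_
          have h2 : c * (m * (n : ℝ)) ≤ c * m * (n : ℝ) ^ 2 := by
            have : (n : ℝ) ≤ (n : ℝ) ^ 2 := by nlinarith
            have h3 : 0 ≤ c * (m : ℝ) := by positivity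
            calc c * (m * (n : ℝ)) = c * m * n := by ring
              _ ≤ _ := mul_le_mul_of_nonneg_left this h3
          linarith)
    exact_mod_cast this
  · refine tendsto_atTop_mono' _ ?_ (lin_log_top (show 0 < c / 2 by positivity))
    filter_upwards [(tendsto_natCast_atTop_atTop.const_mul_atTop (show 0 < c / 2 by positivity)).eventually_ge_atTop (1 : ℝ)] with n h1
    apply div_le_div_of_nonneg_right _ (by positivity)
    have h2 := yy_sub_ge c ((m * n) ^ 2)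
    rw [sqrt_sq_nat] at h2
    have h3 : c * (n : ℝ) ≤ c * (m * n) := by
      apply mul_le_mul_of_nonneg_left _ hc.le
      have : (0 : ℝ) ≤ n := Nat.cast_nonneg _
      nlinarith
    have h4 : (0 : ℝ) ≤ n := Nat.cast_nonneg _
    push_cast at h2 ⊢
    linarith
  · filter_upwards [] with n
    have h1 := hup n
    have h2 : (yy c ((m * n) ^ 2) : ℝ) ≤ (((m * (n + 1)) ^ 2 : ℕ) : ℝ) := by
      refine h1.trans ?_
      push_cast
      have h4 : (0 : ℝ) ≤ n := Nat.cast_nonneg _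
      have h3 : c * (m * (n : ℝ)) ≤ m * (m * n) := mul_le_mul_of_nonneg_right hcm (by positivity)
      nlinarith
    exact_mod_cast h2

/-- the last integer in the interval -/
noncomputable def tt (c x : ℝ) : ℕ := ⌈x + c * √x⌉₊ - 1

lemma floor_le_tt {c x : ℝ} (hc : 0 < c) (hx : 0 < x) : ⌊x⌋₊ ≤ tt c x := by
  have h1 : ⌊x⌋₊ < ⌈x + c * √x⌉₊ := by
    rw [Nat.lt_ceil]
    have := Nat.floor_le hx.le
    have : 0 < c * √x := by positivity
    linarith
  unfold tt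
  omega

lemma yy_le_tt {c x : ℝ} (hc : 0 < c) (hx : 0 < x) : yy c ⌊x⌋₊ ≤ tt c x + 1 := by
  have h0 : 0 < ⌈x + c * √x⌉₊ := Nat.ceil_pos.2 (by positivity)
  have h1 : (yy c ⌊x⌋₊ : ℝ) ≤ ⌈x + c * √x⌉₊ := by
    refine (yy_le hc.le _).trans (le_trans ?_ (Nat.le_ceil _))
    have h2 := Nat.floor_le hx.le
    have h3 : √(⌊x⌋₊ : ℝ) ≤ √x := Real.sqrt_le_sqrt h2
    have := mul_le_mul_of_nonneg_left h3 hc.le
    linarith
  have h2 : yy c ⌊x⌋₊ ≤ ⌈x + c * √x⌉₊ := by exact_mod_cast h1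
  unfold tt
  omega

lemma tt_le {c x : ℝ} (hc : 0 < c) (hx : 0 < x) : (tt c x : ℝ) ≤ yy c ⌊x⌋₊ + (c + 2) := by
  have h0 : 1 ≤ ⌈x + c * √x⌉₊ := Nat.one_le_ceil_iff.2 (by positivity)
  have h1 : (tt c x : ℝ) = ⌈x + c * √x⌉₊ - 1 := by
    unfold tt
    rw [Nat.cast_sub h0, Nat.cast_one]
  have h2 := Nat.ceil_lt_add_one (show 0 ≤ x + c * √x by positivity)
  have h3 := Nat.lt_floor_add_one x
  have h4 : √x ≤ √(⌊x⌋₊ : ℝ) + 1 := by
    rw [Real.sqrt_le_left (by positivity)]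
    have h5 := Real.sq_sqrt (Nat.cast_nonneg (α := ℝ) ⌊x⌋₊)
    have h6 := Real.sqrt_nonneg (⌊x⌋₊ : ℝ)
    nlinarith
  have h5 := mul_le_mul_of_nonneg_left h4 hc.le
  have h6 := yy_ge c ⌊x⌋₊
  rw [h1]
  linarith

lemma CS_short {ω : Ω} (h01 : ∀ n, 0 ≤ dens μ ℱ A n ω ∧ dens μ ℱ A n ω ≤ 1) {a b : ℕ} (hab : a ≤ b) :
    |CS μ ℱ A (Finset.Ioc a b) ω| ≤ (b : ℝ) - a := by
  classical
  unfold CS
  refine (Finset.abs_sum_le_sum_abs _ _).trans ?_
  have h1 : ∑ n ∈ Finset.Ioc a b, |In A n ω - dens μ ℱ A (n - 1) ω| ≤ ∑ n ∈ Finset.Ioc a b, (1 : ℝ) := by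
    apply Finset.sum_le_sum
    intro n _
    have h2 := h01 (n - 1)
    have h3 : 0 ≤ In A n ω ∧ In A n ω ≤ 1 := by
      unfold In
      rw [Set.indicator_apply]
      split_ifs <;> norm_num
    rw [abs_le]
    constructor <;> linarith [h2.1, h2.2, h3.1, h3.2]
  refine h1.trans (le_of_eq ?_)
  rw [Finset.sum_const, Nat.card_Ioc, nsmul_eq_mul, mul_one, Nat.cast_sub hab]

lemma Ncl_add (A : ℕ → Set Ω) (ω : Ω) {a b c : ℕ} (h1 : a ≤ b) (h2 : b ≤ c) :
    Ncl A (Finset.Ioc a c) ω = Ncl A (Finset.Ioc a b) ω + Ncl A (Finset.Ioc b c) ω := by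
  unfold Ncl
  rw [← Finset.sum_union]
  · congr 1
    ext m
    simp only [Finset.mem_Ioc, Finset.mem_union]
    omega
  · rw [Finset.disjoint_left]
    intro m hm hm'
    have := (Finset.mem_Ioc.1 hm).2
    have := (Finset.mem_Ioc.1 hm').1
    omega

lemma Ncl_short (A : ℕ → Set Ω) (ω : Ω) {a b : ℕ} (hab : a ≤ b) :
    0 ≤ Ncl A (Finset.Ioc a b) ω ∧ Ncl A (Finset.Ioc a b) ω ≤ (b : ℝ) - a := by
  classical
  have h3 : ∀ n, 0 ≤ In A n ω ∧ In A n ω ≤ 1 := by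
    intro n
    unfold In
    rw [Set.indicator_apply]
    split_ifs <;> norm_num
  unfold Ncl
  refine ⟨Finset.sum_nonneg fun n _ => (h3 n).1, ?_⟩
  refine (Finset.sum_le_sum fun n _ => (h3 n).2).trans (le_of_eq ?_)
  rw [Finset.sum_const, Nat.card_Ioc, nsmul_eq_mul, mul_one, Nat.cast_sub hab]

/-- from `⌊x⌋` to `x` -/
lemma CS_transfer {ω : Ω} (h01 : ∀ n, 0 ≤ dens μ ℱ A n ω ∧ dens μ ℱ A n ω ≤ 1) {c x : ℝ} (hc : 0 < c) (hx : 0 < x) :
    |CS μ ℱ A (Finset.Ioc ⌊x⌋₊ (tt c x)) ω - CS μ ℱ A (Finset.Ioc ⌊x⌋₊ (yy c ⌊x⌋₊)) ω| ≤ c + 2 := by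
  have h1 := floor_le_tt hc hx
  have h2 := yy_le_tt hc hx
  have h3 := tt_le hc hx
  have h4 := le_yy c ⌊x⌋₊
  rcases le_or_gt (yy c ⌊x⌋₊) (tt c x) with h | h
  · rw [CS_add (μ := μ) (ℱ := ℱ) A ω h4 h, add_sub_cancel_left]
    refine (CS_short h01 h).trans ?_
    linarith
  · rw [CS_add (μ := μ) (ℱ := ℱ) A ω h1 h.le, sub_add_cancel_left, abs_neg]
    refine (CS_short h01 h.le).trans ?_
    have : (yy c ⌊x⌋₊ : ℝ) ≤ tt c x + 1 := by exact_mod_cast h2
    linarith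

lemma Ncl_transfer (A : ℕ → Set Ω) (ω : Ω) {c x : ℝ} (hc : 0 < c) (hx : 0 < x) :
    |Ncl A (Finset.Ioc ⌊x⌋₊ (tt c x)) ω - Ncl A (Finset.Ioc ⌊x⌋₊ (yy c ⌊x⌋₊)) ω| ≤ c + 2 := by
  have h1 := floor_le_tt hc hx
  have h2 := yy_le_tt hc hx
  have h3 := tt_le hc hx
  have h4 := le_yy c ⌊x⌋₊
  rcases le_or_gt (yy c ⌊x⌋₊) (tt c x) with h | h
  · rw [Ncl_add A ω h4 h, add_sub_cancel_left, abs_of_nonneg (Ncl_short A ω h).1]
    refine (Ncl_short A ω h).2.trans ?_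
    linarith
  · rw [Ncl_add A ω h1 h.le, sub_add_cancel_left, abs_neg, abs_of_nonneg (Ncl_short A ω h.le).1]
    refine (Ncl_short A ω h.le).2.trans ?_
    have : (yy c ⌊x⌋₊ : ℝ) ≤ tt c x + 1 := by exact_mod_cast h2
    linarith

/-- the asymptotics of the normalisation -/
lemma norm_lim {c : ℝ} (hc : 0 < c) : Tendsto (fun x : ℝ => (((yy c ⌊x⌋₊ : ℝ) - ⌊x⌋₊) / (1 * Real.log (⌊x⌋₊ : ℝ))) /
    (c * √x / Real.log x)) atTop (𝓝 1) := by
  have hfl : Tendsto (fun x : ℝ => ((⌊x⌋₊ : ℕ) : ℝ) / x) atTop (𝓝 1) := tendsto_nat_floor_div_atTop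
  have hft : Tendsto (fun x : ℝ => (⌊x⌋₊ : ℕ)) atTop atTop := tendsto_nat_floor_atTop
  have h1 : Tendsto (fun x : ℝ => ((yy c ⌊x⌋₊ : ℝ) - ⌊x⌋₊) / √((⌊x⌋₊ : ℕ) : ℝ)) atTop (𝓝 c) := by
    have := ((tendsto_nat_floor_mul_div_atTop hc.le).comp tendsto_sqrt_nat).comp hft
    refine this.congr fun x => ?_
    simp only [Function.comp]
    congr 1
    unfold yy
    push_cast
    ring
  have h2 : Tendsto (fun x : ℝ => √(((⌊x⌋₊ : ℕ) : ℝ) / x)) atTop (𝓝 1) := by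
    have := hfl.sqrt
    rwa [Real.sqrt_one] at this
  have h3 : Tendsto (fun x : ℝ => Real.log ((⌊x⌋₊ : ℕ) : ℝ) / Real.log x) atTop (𝓝 1) := by
    have g1 : Tendsto (fun x : ℝ => Real.log (((⌊x⌋₊ : ℕ) : ℝ) / x)) atTop (𝓝 0) := by
      have := hfl.log one_ne_zero
      rwa [Real.log_one] at this
    have g2 : Tendsto (fun x : ℝ => 1 + Real.log (((⌊x⌋₊ : ℕ) : ℝ) / x) / Real.log x) atTop (𝓝 (1 + 0)) :=
      (g1.div_atTop Real.tendsto_log_atTop).const_add 1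
    rw [add_zero] at g2
    refine g2.congr' ?_
    filter_upwards [eventually_gt_atTop (2 : ℝ)] with x hx
    have hx0 : 0 < x := by linarith
    have hn : (0 : ℝ) < (⌊x⌋₊ : ℕ) := by
      have : 0 < ⌊x⌋₊ := Nat.floor_pos.2 (by linarith)
      exact_mod_cast this
    have hl : 0 < Real.log x := Real.log_pos (by linarith)
    rw [Real.log_div hn.ne' hx0.ne']
    field_simp
    ring
  have h4 := (h1.div_const c).mul (h2.mul (h3.inv₀ one_ne_zero))
  rw [div_self hc.ne', inv_one, mul_one, mul_one] at h4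
  refine h4.congr' ?_
  filter_upwards [eventually_gt_atTop (2 : ℝ)] with x hx
  have hx0 : 0 < x := by linarith
  have hn : (0 : ℝ) < (⌊x⌋₊ : ℕ) := by
    have : 0 < ⌊x⌋₊ := Nat.floor_pos.2 (by linarith)
    exact_mod_cast this
  have hn2 : (1 : ℝ) < (⌊x⌋₊ : ℕ) := by
    have : 2 ≤ ⌊x⌋₊ := Nat.le_floor (by exact_mod_cast hx.le)
    exact_mod_cast this
  have hl : 0 < Real.log x := Real.log_pos (by linarith)
  have hl2 : 0 < Real.log ((⌊x⌋₊ : ℕ) : ℝ) := Real.log_pos hn2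
  rw [Real.sqrt_div hn.le]
  have s1 : 0 < √((⌊x⌋₊ : ℕ) : ℝ) := Real.sqrt_pos.2 hn
  have s2 : 0 < √x := Real.sqrt_pos.2 hx0
  field_simp

/-- the law of large numbers in all the intervals -/
theorem count_all (hA : ∀ n, MeasurableSet[ℱ n] (A n)) {W : ℕ} (hW : 0 < W)
    (hd : ∀ᵐ ω ∂μ, ∀ ε : ℝ, 0 < ε → ∀ᶠ n : ℕ in atTop, |dens μ ℱ A n ω - rhoW W (n + 1)| ≤ ε * rhoW W (n + 1))
    {c : ℝ} (hc : 0 < c) :
    ∀ᵐ ω ∂μ, Tendsto (fun x : ℝ => Ncl A (Finset.Ioc ⌊x⌋₊ (tt c x)) ω / (c * √x / Real.log x)) atTop (𝓝 1) := by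
  filter_upwards [wu_count (μ := μ) (ℱ := ℱ) hA hW hd (wu_self hc)] with ω hω
  have h1 := (hω.comp tendsto_nat_floor_atTop).mul (norm_lim hc)
  rw [one_mul] at h1
  have hden : Tendsto (fun x : ℝ => c * √x / Real.log x) atTop atTop := by
    have h2 : Tendsto (fun x : ℝ => x / Real.log x) atTop atTop := by
      have h3 := (Real.isLittleO_log_id_atTop).tendsto_div_nhds_zero
      have h4 : ∀ᶠ x : ℝ in atTop, 0 < Real.log x / id x := by
        filter_upwards [eventually_gt_atTop 1] with x hx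
        have := Real.log_pos hx
        have : 0 < x := by linarith
        simp only [id]
        positivity
      have h5 := (tendsto_inv_nhdsGT_zero (𝕜 := ℝ)).comp (tendsto_nhdsWithin_iff.2 ⟨h3, h4⟩)
      refine h5.congr fun x => ?_
      simp only [Function.comp, id]
      rw [inv_div]
    have h3 := (h2.comp Real.tendsto_sqrt_atTop).const_mul_atTop (show 0 < c / 2 by positivity)
    refine h3.congr' ?_
    filter_upwards [eventually_ge_atTop 0] with x hx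
    simp only [Function.comp]
    rw [Real.log_sqrt hx]
    field_simp
  have h2 : Tendsto (fun x : ℝ => (Ncl A (Finset.Ioc ⌊x⌋₊ (tt c x)) ω - Ncl A (Finset.Ioc ⌊x⌋₊ (yy c ⌊x⌋₊)) ω) / (c * √x / Real.log x)) atTop (𝓝 0) := by
    have h3 : Tendsto (fun x : ℝ => (c + 2) / (c * √x / Real.log x)) atTop (𝓝 0) := tendsto_const_nhds.div_atTop hden
    refine squeeze_zero_norm' ?_ h3
    filter_upwards [eventually_gt_atTop (0 : ℝ), hden.eventually_gt_atTop 0] with x hx hx2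
    rw [Real.norm_eq_abs, abs_div, abs_of_pos hx2]
    exact div_le_div_of_nonneg_right (Ncl_transfer A ω hc hx) hx2.le
  have h3 := h1.add h2
  rw [add_zero] at h3
  refine h3.congr' ?_
  filter_upwards [eventually_gt_atTop (0 : ℝ), hden.eventually_gt_atTop 0,
    (tendsto_nat_floor_atTop (α := ℝ)).eventually (wu_L_pos (wu_self hc)),
    (tendsto_nat_floor_atTop (α := ℝ)).eventually (tendsto_log.eventually_gt_atTop 0)] with x hx hx2 hx3 hx4
  simp only [Function.comp]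
  have hx3' : (0 : ℝ) < (yy c ⌊x⌋₊ : ℝ) - ((⌊x⌋₊ : ℕ) : ℝ) := hx3
  have h5 : 0 < ((yy c ⌊x⌋₊ : ℝ) - ((⌊x⌋₊ : ℕ) : ℝ)) / (1 * Real.log ((⌊x⌋₊ : ℕ) : ℝ)) := by
    have : 0 < Real.log ((⌊x⌋₊ : ℕ) : ℝ) := hx4
    positivity
  rw [div_mul_div_cancel₀ h5.ne', ← add_div]
  congr 1
  ring

end Pool.Agent.R529.SM
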