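import Mathlib
import Pool.Agent.R529.SM.U5

set_option autoImplicit false
set_option linter.unusedSectionVars false
set_option linter.unusedVariables false

/-! # An enumeration of all short windows -/

open MeasureTheory Filter Set
open scoped ENNReal Topology

namespace Pool.Agent.R529.SM

open Pool.Agent.R528.RM Pool.Agent.R291.RMW

/-- the width -/
def wdt (p k : ℕ) : ℕ := 2 ^ (Nat.log 2 k / (p + 1))

/-- the starting point -/
def fa (p k : ℕ) : ℕ := k / wdt p k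

/-- the end -/
noncomputable def fb (p : ℕ) (σ : ℝ) (k : ℕ) : ℕ := fa p k + max (k % wdt p k) ⌈Real.log k ^ σ⌉₊

lemma wdt_pow_le (p : ℕ) {k : ℕ} (hk : k ≠ 0) : wdt p k ^ (p + 1) ≤ k := by
  unfold wdt
  rw [← pow_mul]
  exact (Nat.pow_le_pow_right (by norm_num) (Nat.div_mul_le_self _ _)).trans (Nat.pow_log_le_self 2 hk)

lemma lt_wdt_pow (p k : ℕ) : k < (2 * wdt p k) ^ (p + 1) := by
  unfold wdt
  rw [← pow_succ', ← pow_mul]
  refine (Nat.lt_pow_succ_log_self (by norm_num) k).trans_le (Nat.pow_le_pow_right (by norm_num) ?_)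
  have := Nat.lt_div_mul_add (a := Nat.log 2 k) (b := p + 1) (by omega)
  rw [Nat.add_mul, one_mul]
  omega

lemma wdt_pos (p k : ℕ) : 0 < wdt p k := by
  unfold wdt
  positivity

lemma log_wdt_le (p : ℕ) {k : ℕ} (hk : k ≠ 0) : Real.log (wdt p k) ≤ Real.log k / (p + 1) := by
  have h1 : ((wdt p k : ℝ)) ^ (p + 1) ≤ k := by exact_mod_cast wdt_pow_le p hk
  have h0 : (0 : ℝ) < wdt p k := by exact_mod_cast wdt_pos p k
  have h2 := Real.log_le_log (by positivity) h1
  rw [Real.log_pow] at h2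
  push_cast at h2
  rw [le_div_iff₀ (by positivity)]
  linarith

lemma le_log_wdt (p : ℕ) {k : ℕ} (hk : k ≠ 0) : Real.log k / (p + 1) - Real.log 2 ≤ Real.log (wdt p k) := by
  have h1 : (k : ℝ) ≤ (2 * (wdt p k : ℝ)) ^ (p + 1) := by exact_mod_cast (lt_wdt_pow p k).le
  have h0 : (0 : ℝ) < wdt p k := by exact_mod_cast wdt_pos p k
  have hk0 : (0 : ℝ) < k := by exact_mod_cast Nat.pos_of_ne_zero hk
  have h2 := Real.log_le_log hk0 h1
  rw [Real.log_pow, Real.log_mul (by norm_num) h0.ne'] at h2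
  push_cast at h2
  rw [sub_le_iff_le_add, div_le_iff₀ (by positivity)]
  linarith

lemma wdt_le_sqrt {p : ℕ} (hp : 1 ≤ p) {k : ℕ} (hk : k ≠ 0) : (wdt p k : ℝ) ^ 2 ≤ k := by
  have h1 : ((wdt p k : ℝ)) ^ (p + 1) ≤ k := by exact_mod_cast wdt_pow_le p hk
  have h0 : (1 : ℝ) ≤ wdt p k := by exact_mod_cast wdt_pos p k
  exact (pow_le_pow_right₀ h0 (by omega)).trans h1

/-- basic inequalities -/
lemma fa_bounds {p : ℕ} (hp : 1 ≤ p) {k : ℕ} (hk : 4 ≤ k) :
    (k : ℝ) / wdt p k / 2 ≤ fa p k ∧ (fa p k : ℝ) ≤ (k : ℝ) / wdt p k ∧ √(k : ℝ) / 2 ≤ fa p k ∧ (wdt p k : ℝ) ≤ 2 * fa p k := by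
  have hk0 : (0 : ℝ) < k := by exact_mod_cast (by omega : 0 < k)
  have h0 : (1 : ℝ) ≤ wdt p k := by exact_mod_cast wdt_pos p k
  have h1 := wdt_le_sqrt hp (k := k) (by omega)
  have h2 : (wdt p k : ℝ) ≤ √(k : ℝ) := Real.le_sqrt_of_sq_le h1
  have h3 : √(k : ℝ) ≤ (k : ℝ) / wdt p k := by
    rw [le_div_iff₀ (by linarith)]
    have := Real.mul_self_sqrt hk0.le
    nlinarith [Real.sqrt_nonneg (k : ℝ)]
  have h4 : (2 : ℝ) ≤ √(k : ℝ) := by
    apply Real.le_sqrt_of_sq_le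
    have : (4 : ℝ) ≤ k := by exact_mod_cast hk
    linarith
  have h5 : (k : ℝ) / wdt p k - 1 ≤ fa p k := by
    have := Nat.lt_div_mul_add (a := k) (wdt_pos p k)
    have g1 : (k : ℝ) < (fa p k : ℝ) * wdt p k + wdt p k := by
      unfold fa
      exact_mod_cast this
    rw [sub_le_iff_le_add, div_le_iff₀ (by linarith)]
    linarith
  have h6 : (fa p k : ℝ) ≤ (k : ℝ) / wdt p k := by
    unfold fa
    exact Nat.cast_div_le
  refine ⟨by linarith, h6, by linarith, by linarith⟩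

lemma log_fa {p : ℕ} (hp : 1 ≤ p) {k : ℕ} (hk : 4 ≤ k) :
    ((p : ℝ) / (p + 1)) * Real.log k - Real.log 2 ≤ Real.log (fa p k) ∧
      Real.log (fa p k) ≤ ((p : ℝ) / (p + 1)) * Real.log k + Real.log 2 := by
  obtain ⟨h1, h2, h3, h4⟩ := fa_bounds hp hk
  have hk0 : (0 : ℝ) < k := by exact_mod_cast (by omega : 0 < k)
  have h0 : (0 : ℝ) < wdt p k := by exact_mod_cast wdt_pos p k
  have hf : (0 : ℝ) < fa p k := lt_of_lt_of_le (by positivity) h3
  have g1 := log_wdt_le p (k := k) (by omega)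
  have g2 := le_log_wdt p (k := k) (by omega)
  have e : ((p : ℝ) / (p + 1)) * Real.log k = Real.log k - Real.log k / (p + 1) := by
    have : (p : ℝ) + 1 ≠ 0 := by positivity
    field_simp
    ring
  have l1 := Real.log_le_log (by positivity) h1
  rw [Real.log_div (by positivity) (by norm_num), Real.log_div hk0.ne' h0.ne'] at l1
  have l2 := Real.log_le_log hf h2
  rw [Real.log_div hk0.ne' h0.ne'] at l2
  rw [e]
  constructor <;> linarith

lemma log_rpow_small {σ : ℝ} (hσ : 0 < σ) : ∀ᶠ k : ℕ in atTop, Real.log k ^ σ + 1 ≤ √(k : ℝ) / 2 := by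
  have h1 := (isLittleO_log_rpow_rpow_atTop σ (show (0 : ℝ) < 1 / 2 by norm_num)).bound (show (0 : ℝ) < 1 / 4 by norm_num)
  filter_upwards [tendsto_natCast_atTop_atTop.eventually h1, tendsto_sqrt_nat.eventually_ge_atTop 4,
    tendsto_log.eventually_gt_atTop 0, eventually_gt_atTop 0] with k g1 g2 g3 g4
  rw [Real.norm_eq_abs, Real.norm_eq_abs, abs_of_nonneg (by positivity), abs_of_nonneg (by positivity), ← Real.sqrt_eq_rpow] at g1
  linarith

lemma tendsto_affine (κ C : ℝ) : Tendsto (fun n : ℕ => (κ * Real.log n + C) / Real.log n) atTop (𝓝 κ) := by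
  have h1 : Tendsto (fun n : ℕ => κ + C / Real.log n) atTop (𝓝 (κ + 0)) := (tendsto_log.const_div_atTop C).const_add κ
  rw [add_zero] at h1
  refine h1.congr' ?_
  filter_upwards [tendsto_log.eventually_gt_atTop 0] with n hn
  field_simp

theorem wu_enum {p : ℕ} (hp : 1 ≤ p) {σ : ℝ} (hσ : 2 < σ) : Wu (fa p) (fb p σ) ((p : ℝ) / (p + 1)) := by
  have hp0 : (0 : ℝ) < p := by exact_mod_cast hp
  have hab : ∀ k, fa p k ≤ fb p σ k := fun k => by unfold fb; omega
  have hb : ∀ᶠ k : ℕ in atTop, 4 ≤ k ∧ (fb p σ k : ℝ) ≤ 4 * fa p k ∧ (0 : ℝ) < fa p k ∧ 0 < Real.log (k : ℝ) := by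
    filter_upwards [log_rpow_small (show 0 < σ by linarith), eventually_ge_atTop 4, tendsto_log.eventually_gt_atTop 0] with k g1 g2 g4
    obtain ⟨h1, h2, h3, h4⟩ := fa_bounds hp g2
    have hk0 : (0 : ℝ) < k := by exact_mod_cast (by omega : 0 < k)
    have g3 : (⌈Real.log (k : ℝ) ^ σ⌉₊ : ℝ) ≤ fa p k := by
      have := Nat.ceil_lt_add_one (show 0 ≤ Real.log (k : ℝ) ^ σ by positivity)
      linarith
    have g5 : ((k % wdt p k : ℕ) : ℝ) ≤ 2 * fa p k := by
      refine le_trans ?_ h4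
      exact_mod_cast (Nat.mod_lt k (wdt_pos p k)).le
    refine ⟨g2, ?_, lt_of_lt_of_le (by positivity) h3, g4⟩
    unfold fb
    push_cast
    have hf : (0 : ℝ) ≤ fa p k := Nat.cast_nonneg _
    have : max ((k % wdt p k : ℕ) : ℝ) (⌈Real.log (k : ℝ) ^ σ⌉₊ : ℝ) ≤ 2 * fa p k := max_le g5 (by linarith)
    linarith
  have hlow : Tendsto (fun n : ℕ => Real.log (fa p n) / Real.log n) atTop (𝓝 ((p : ℝ) / (p + 1))) := by
    refine tendsto_of_tendsto_of_tendsto_of_le_of_le' (tendsto_affine _ (-Real.log 2)) (tendsto_affine _ (Real.log 2)) ?_ ?_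
    · filter_upwards [hb] with k ⟨g1, g2, g3, g4⟩
      have := (log_fa hp g1).1
      exact div_le_div_of_nonneg_right (by linarith) g4.le
    · filter_upwards [hb] with k ⟨g1, g2, g3, g4⟩
      have := (log_fa hp g1).2
      exact div_le_div_of_nonneg_right (by linarith) g4.le
  refine ⟨by positivity, Eventually.of_forall hab, hlow, ?_, ?_⟩
  · refine tendsto_of_tendsto_of_tendsto_of_le_of_le' hlow (tendsto_affine _ (Real.log 2 + Real.log 4)) ?_ ?_
    · filter_upwards [hb] with k ⟨g1, g2, g3, g4⟩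
      exact div_le_div_of_nonneg_right (Real.log_le_log g3 (by exact_mod_cast hab k)) g4.le
    · filter_upwards [hb] with k ⟨g1, g2, g3, g4⟩
      have h1 := (log_fa hp g1).2
      have h2 : (0 : ℝ) < fb p σ k := lt_of_lt_of_le g3 (by exact_mod_cast hab k)
      have h3 := Real.log_le_log h2 g2
      rw [Real.log_mul (by norm_num) g3.ne'] at h3
      exact div_le_div_of_nonneg_right (by linarith) g4.le
  · have h1 : Tendsto (fun k : ℕ => Real.log (k : ℝ) ^ (σ - 2)) atTop atTop :=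
      (tendsto_rpow_atTop (show 0 < σ - 2 by linarith)).comp tendsto_log
    refine tendsto_atTop_mono' _ ?_ h1
    filter_upwards [hb] with k ⟨g1, g2, g3, g4⟩
    rw [Real.rpow_sub g4, Real.rpow_two]
    apply div_le_div_of_nonneg_right _ (by positivity)
    have h2 : Real.log (k : ℝ) ^ σ ≤ (⌈Real.log (k : ℝ) ^ σ⌉₊ : ℝ) := Nat.le_ceil _
    have h3 : ((⌈Real.log (k : ℝ) ^ σ⌉₊ : ℕ) : ℝ) ≤ ((max (k % wdt p k) ⌈Real.log (k : ℝ) ^ σ⌉₊ : ℕ) : ℝ) := by
      exact_mod_cast le_max_right _ _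
    unfold fb
    rw [Nat.cast_add]
    linarith

/-- the index of the window from `n` to `n + j` -/
def kk (p n j : ℕ) : ℕ := n * 2 ^ (Nat.log 2 n / p) + j

lemma kk_spec {p n j : ℕ} (hp : 1 ≤ p) (hn : n ≠ 0) (hj : j < 2 ^ (Nat.log 2 n / p)) :
    fa p (kk p n j) = n ∧ kk p n j % wdt p (kk p n j) = j ∧ n ≤ kk p n j ∧ (kk p n j) < 4 * n ^ 2 := by
  set t := Nat.log 2 n with ht
  set u := t / p with hu
  have h1 : 2 ^ t ≤ n := Nat.pow_log_le_self 2 hn
  have h2 : n < 2 ^ (t + 1) := Nat.lt_pow_succ_log_self (by norm_num) n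
  have hk : kk p n j = n * 2 ^ u + j := rfl
  have h3 : 2 ^ (t + u) ≤ n * 2 ^ u + j := by
    rw [pow_add]
    have := Nat.mul_le_mul_right (2 ^ u) h1
    omega
  have h4 : n * 2 ^ u + j < 2 ^ (t + u + 1) := by
    have e : 2 ^ (t + u + 1) = 2 ^ (t + 1) * 2 ^ u := by ring
    have := Nat.mul_le_mul_right (2 ^ u) (show n + 1 ≤ 2 ^ (t + 1) from h2)
    rw [e]
    rw [Nat.add_mul, one_mul] at this
    omega
  have h5 : Nat.log 2 (kk p n j) = t + u := by
    rw [hk]
    exact Nat.log_eq_of_pow_le_of_lt_pow h3 h4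
  have h6 : (t + u) / (p + 1) = u := by
    have e := Nat.div_add_mod t p
    have e2 := Nat.mod_lt t (show 0 < p by omega)
    rw [← hu] at e
    apply Nat.div_eq_of_lt_le
    · calc u * (p + 1) = p * u + u := by ring
        _ ≤ t + u := by omega
    · calc t + u < p * u + p + u := by omega
        _ ≤ (u + 1) * (p + 1) := by nlinarith
  have h7 : wdt p (kk p n j) = 2 ^ u := by
    unfold wdt
    rw [h5, h6]
  have hpos : 0 < 2 ^ u := by positivity
  have hut : u ≤ t := Nat.div_le_self t p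
  refine ⟨?_, ?_, ?_, ?_⟩
  · unfold fa
    rw [h7, hk, mul_comm n, Nat.mul_add_div hpos, Nat.div_eq_of_lt hj, add_zero]
  · rw [h7, hk, Nat.add_comm, Nat.add_mul_mod_self_right, Nat.mod_eq_of_lt hj]
  · rw [hk]
    nlinarith
  · rw [hk]
    have g1 : 2 ^ u ≤ n := (Nat.pow_le_pow_right (by norm_num) hut).trans h1
    have hn1 : 1 ≤ n := Nat.one_le_iff_ne_zero.2 hn
    nlinarith

end Pool.Agent.R529.SM
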