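import Mathlib
import Pool.Agent.R529.SM.V1

set_option autoImplicit false
set_option linter.unusedSectionVars false
set_option linter.unusedVariables false

/-! # All short windows simultaneously; disjoint windows of length `(log x)^s` -/

open MeasureTheory Filter Set
open scoped ENNReal Topology

namespace Pool.Agent.R529.SM

open Pool.Agent.R528.RM Pool.Agent.R291.RMW

variable {Ω : Type} {m0 : MeasurableSpace Ω} {μ : Measure Ω} [IsProbabilityMeasure μ]
  {ℱ : Filtration ℕ m0} {A : ℕ → Set Ω}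

lemma rpow_le_half {p : ℕ} (hp : 1 ≤ p) : ∀ᶠ n : ℕ in atTop, ∀ j : ℕ, (j : ℝ) ≤ (n : ℝ) ^ (1 / (2 * (p : ℝ))) →
    j < 2 ^ (Nat.log 2 n / p) := by
  have hp0 : (0 : ℝ) < p := by exact_mod_cast hp
  have h1 : Tendsto (fun n : ℕ => (n : ℝ) ^ (1 / (2 * (p : ℝ)))) atTop atTop :=
    (tendsto_rpow_atTop (by positivity)).comp tendsto_natCast_atTop_atTop
  filter_upwards [h1.eventually_gt_atTop 2, eventually_gt_atTop 0] with n g1 g2 j hj
  set t := Nat.log 2 n with ht
  set u := t / p with hu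
  have hn0 : (0 : ℝ) < n := by exact_mod_cast g2
  have h2 : n < 2 ^ (t + 1) := Nat.lt_pow_succ_log_self (by norm_num) n
  have h3 : t + 1 ≤ (u + 1) * p := by
    have := Nat.lt_div_mul_add (a := t) (b := p) (by omega)
    rw [← hu] at this
    rw [Nat.add_mul, one_mul]
    omega
  have h4 : n < (2 ^ (u + 1)) ^ p := by
    rw [← pow_mul]
    exact h2.trans_le (Nat.pow_le_pow_right (by norm_num) h3)
  have h5 : (n : ℝ) < ((2 : ℝ) ^ (u + 1)) ^ p := by exact_mod_cast h4
  have h6 : (n : ℝ) ^ (1 / (p : ℝ)) < (2 : ℝ) ^ (u + 1) := by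
    have := Real.rpow_lt_rpow hn0.le h5 (show 0 < 1 / (p : ℝ) by positivity)
    rw [one_div, Real.pow_rpow_inv_natCast (by positivity) (by omega)] at this
    rw [one_div]
    exact this
  have h7 : (n : ℝ) ^ (1 / (p : ℝ)) = (n : ℝ) ^ (1 / (2 * (p : ℝ))) * (n : ℝ) ^ (1 / (2 * (p : ℝ))) := by
    rw [← Real.rpow_add hn0]
    congr 1
    field_simp
    ring
  have h8 : (j : ℝ) < (2 : ℝ) ^ u := by
    rw [pow_succ] at h6
    nlinarith
  exact_mod_cast h8

theorem unif_short (hA : ∀ n, MeasurableSet[ℱ n] (A n)) {W : ℕ} (hW : 0 < W)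
    (hd : ∀ᵐ ω ∂μ, ∀ ε : ℝ, 0 < ε → ∀ᶠ n : ℕ in atTop, |dens μ ℱ A n ω - rhoW W (n + 1)| ≤ ε * rhoW W (n + 1)) :
    ∀ᵐ ω ∂μ, ∀ s : ℝ, 2 < s → ∀ ε : ℝ, 0 < ε → ∃ δ : ℝ, 0 < δ ∧ ∀ᶠ n : ℕ in atTop, ∀ j : ℕ,
      Real.log n ^ s ≤ j → (j : ℝ) ≤ (n : ℝ) ^ δ →
      |CS μ ℱ A (Finset.Ioc n (n + j)) ω| ≤ (1 + ε) * √(2 * j) := by
  have hall : ∀ᵐ ω ∂μ, ∀ p m : ℕ, ∀ ε : ℝ, 0 < ε → ∀ᶠ k : ℕ in atTop,
      |CS μ ℱ A (Finset.Ioc (fa (p + 1) k) (fb (p + 1) (2 + 1 / ((m : ℝ) + 1)) k)) ω| ≤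
        (1 + ε) * √(2 / (((p + 1 : ℕ) : ℝ) / (((p + 1 : ℕ) : ℝ) + 1)) *
          ((fb (p + 1) (2 + 1 / ((m : ℝ) + 1)) k : ℝ) - fa (p + 1) k)) := by
    rw [ae_all_iff]
    intro p
    rw [ae_all_iff]
    intro m
    exact wu_law (μ := μ) (ℱ := ℱ) hA hW hd (wu_enum (by omega) (by
      have : 0 < 1 / ((m : ℝ) + 1) := by positivity
      linarith))
  filter_upwards [hall] with ω hω s hs ε hε
  set η : ℝ := min (ε / 4) 1 with hη
  have hη0 : 0 < η := lt_min (by positivity) one_pos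
  have hη1 : η ≤ 1 := min_le_right _ _
  have hηε : η ≤ ε / 4 := min_le_left _ _
  obtain ⟨m, hm⟩ := exists_nat_gt (1 / (s - 2))
  have hm2 : 1 / ((m : ℝ) + 1) < s - 2 := by
    rw [div_lt_iff₀ (by linarith)] at hm
    rw [div_lt_iff₀ (by positivity)]
    nlinarith
  obtain ⟨p, hp⟩ := exists_nat_gt (1 / η)
  have hp2 : 1 / ((p : ℝ) + 1) ≤ η := by
    rw [div_lt_iff₀ hη0] at hp
    rw [div_le_iff₀ (by positivity)]
    nlinarith
  set P := p + 1 with hP
  have hPr : (P : ℝ) = p + 1 := by rw [hP]; push_cast; ring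
  set σ : ℝ := 2 + 1 / ((m : ℝ) + 1) with hσ
  have hσ2 : 2 < σ := by
    have : 0 < 1 / ((m : ℝ) + 1) := by positivity
    linarith
  have hσs : 0 < s - σ := by linarith
  refine ⟨1 / (2 * (P : ℝ)), by positivity, ?_⟩
  obtain ⟨k₀, hk₀⟩ := eventually_atTop.1 (hω p m η hη0)
  have hpow : Tendsto (fun n : ℕ => Real.log (n : ℝ) ^ (s - σ)) atTop atTop :=
    (tendsto_rpow_atTop hσs).comp tendsto_log
  filter_upwards [eventually_ge_atTop k₀, eventually_ge_atTop 4, rpow_le_half (p := P) (by omega),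
    tendsto_log.eventually_ge_atTop 1, hpow.eventually_ge_atTop ((4 : ℝ) ^ σ)] with n g1 g2 g3 g4 g5 j hj1 hj2
  have hjlt := g3 j hj2
  obtain ⟨e1, e2, e3, e4⟩ := kk_spec (p := P) (n := n) (j := j) (by omega) (by omega) hjlt
  have hn0 : (0 : ℝ) < n := by exact_mod_cast (by omega : 0 < n)
  have h1 := hk₀ (kk P n j) (by omega)
  -- the end point
  have hlogk : Real.log (kk P n j) ≤ 4 * Real.log n := by
    have hk0 : (0 : ℝ) < kk P n j := by exact_mod_cast (by omega : 0 < kk P n j)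
    have h2 : (kk P n j : ℝ) ≤ 4 * (n : ℝ) ^ 2 := by exact_mod_cast e4.le
    have h3 := Real.log_le_log hk0 h2
    rw [Real.log_mul (by norm_num) (by positivity), Real.log_pow] at h3
    have h4 : Real.log 4 ≤ Real.log n := Real.log_le_log (by norm_num) (by exact_mod_cast g2)
    push_cast at h3
    linarith
  have hlogk0 : 0 ≤ Real.log (kk P n j) := Real.log_natCast_nonneg _
  have hceil : ⌈Real.log (kk P n j) ^ σ⌉₊ ≤ j := by
    rw [Nat.ceil_le]
    refine le_trans ?_ hj1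
    calc Real.log (kk P n j) ^ σ ≤ (4 * Real.log n) ^ σ := Real.rpow_le_rpow hlogk0 hlogk (by linarith)
      _ = 4 ^ σ * Real.log n ^ σ := Real.mul_rpow (by norm_num) (by linarith)
      _ ≤ Real.log n ^ (s - σ) * Real.log n ^ σ := mul_le_mul_of_nonneg_right g5 (by positivity)
      _ = Real.log n ^ s := by
        rw [← Real.rpow_add (by linarith)]
        congr 1
        ring
  have hfb : fb P σ (kk P n j) = n + j := by
    unfold fb
    rw [e1, e2, max_eq_left hceil]
  rw [e1, hfb] at h1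
  refine h1.trans ?_
  have h5 : √(2 / ((P : ℝ) / ((P : ℝ) + 1)) * (((n + j : ℕ) : ℝ) - n)) ≤ (1 + η) * √(2 * j) := by
    rw [Real.sqrt_le_left (by positivity), mul_pow, Real.sq_sqrt (by positivity)]
    have h6 : 2 / ((P : ℝ) / ((P : ℝ) + 1)) * (((n + j : ℕ) : ℝ) - n) = (1 + 1 / (P : ℝ)) * (2 * j) := by
      push_cast
      have : (P : ℝ) ≠ 0 := by positivity
      field_simp
      ring
    rw [h6]
    apply mul_le_mul_of_nonneg_right _ (by positivity)
    have : 1 / (P : ℝ) ≤ η := by rw [hPr]; exact hp2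
    nlinarith
  have h6 := Real.sqrt_nonneg (2 * (j : ℝ))
  calc (1 + η) * √(2 / ((P : ℝ) / ((P : ℝ) + 1)) * (((n + j : ℕ) : ℝ) - n)) ≤ (1 + η) * ((1 + η) * √(2 * j)) :=
        mul_le_mul_of_nonneg_left h5 (by linarith)
    _ = ((1 + η) * (1 + η)) * √(2 * j) := by ring
    _ ≤ (1 + ε) * √(2 * j) := by
        apply mul_le_mul_of_nonneg_right _ h6
        nlinarith

/-! ### disjoint windows -/

/-- the multiplier -/
noncomputable def gs (s : ℝ) (n : ℕ) : ℕ := ⌈(2 * Real.log n) ^ s⌉₊ + 1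

/-- starting points -/
noncomputable def as (s : ℝ) (n : ℕ) : ℕ := n * gs s n

/-- end points -/
noncomputable def bs (s : ℝ) (n : ℕ) : ℕ := ⌊(as s n : ℝ) + Real.log (as s n) ^ s⌋₊

lemma gs_mono {s : ℝ} (hs : 0 < s) {m n : ℕ} (hm : 1 ≤ m) (h : m ≤ n) : gs s m ≤ gs s n := by
  unfold gs
  have h1 : (2 * Real.log m) ^ s ≤ (2 * Real.log n) ^ s := by
    apply Real.rpow_le_rpow
    · have := Real.log_natCast_nonneg m
      linarith
    · have : Real.log m ≤ Real.log n := Real.log_le_log (by exact_mod_cast hm) (by exact_mod_cast h)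
      linarith
    · exact hs.le
  have := Nat.ceil_le_ceil h1
  omega

lemma gs_small {s : ℝ} (hs : 0 < s) : ∀ᶠ n : ℕ in atTop, gs s n ≤ n := by
  have h2 : Tendsto (fun n : ℕ => 2 * Real.log (n : ℝ)) atTop atTop := tendsto_log.const_mul_atTop (by norm_num)
  have h1 := (isLittleO_log_rpow_rpow_atTop s (show (0 : ℝ) < 1 / 2 by norm_num)).bound (show (0 : ℝ) < 1 by norm_num)
  have h3 : Tendsto (fun n : ℕ => (n : ℝ) ^ 2) atTop atTop :=
    (tendsto_pow_atTop (by norm_num)).comp tendsto_natCast_atTop_atTop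
  -- use `log (n^2) = 2 log n`; `(log y)^s ≤ y^(1/4)`
  have h4 := (isLittleO_log_rpow_rpow_atTop s (show (0 : ℝ) < 1 / 4 by norm_num)).bound (show (0 : ℝ) < 1 by norm_num)
  filter_upwards [h3.eventually h4, tendsto_sqrt_nat.eventually_ge_atTop 3, eventually_gt_atTop 1] with n g1 g2 g3
  have hn0 : (0 : ℝ) < n := by exact_mod_cast (by omega : 0 < n)
  have hl : 0 ≤ Real.log (n : ℝ) := Real.log_natCast_nonneg n
  rw [Real.log_pow, Real.norm_eq_abs, Real.norm_eq_abs, one_mul] at g1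
  push_cast at g1
  rw [abs_of_nonneg (by positivity), abs_of_nonneg (by positivity)] at g1
  have e : ((n : ℝ) ^ 2) ^ (1 / 4 : ℝ) = √(n : ℝ) := by
    rw [Real.sqrt_eq_rpow, ← Real.rpow_natCast, ← Real.rpow_mul hn0.le]
    norm_num
  rw [e] at g1
  have h5 := Nat.ceil_lt_add_one (show 0 ≤ (2 * Real.log (n : ℝ)) ^ s by positivity)
  have h6 : (gs s n : ℝ) ≤ n := by
    unfold gs
    push_cast
    have := Real.mul_self_sqrt hn0.le
    nlinarith
  exact_mod_cast h6

lemma as_facts {s : ℝ} (hs : 0 < s) : ∀ᶠ n : ℕ in atTop, (n : ℝ) ≤ as s n ∧ (as s n : ℝ) ≤ (n : ℝ) ^ 2 ∧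
    Real.log n ≤ Real.log (as s n) ∧ Real.log (as s n) ≤ 2 * Real.log n ∧
    (as s n : ℝ) ≤ bs s n ∧ (bs s n : ℝ) ≤ as s n + Real.log (as s n) ^ s ∧
      (as s n : ℝ) + Real.log (as s n) ^ s - 1 ≤ bs s n := by
  filter_upwards [gs_small hs, eventually_gt_atTop 1] with n g1 g2
  have hn0 : (0 : ℝ) < n := by exact_mod_cast (by omega : 0 < n)
  have h1 : (n : ℝ) ≤ as s n := by
    have : n ≤ as s n := Nat.le_mul_of_pos_right n (by unfold gs; omega)
    exact_mod_cast this
  have h2 : (as s n : ℝ) ≤ (n : ℝ) ^ 2 := by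
    have : as s n ≤ n ^ 2 := by
      unfold as
      rw [sq]
      exact Nat.mul_le_mul_left n g1
    exact_mod_cast this
  have h3 : Real.log n ≤ Real.log (as s n) := Real.log_le_log hn0 h1
  have h4 : Real.log (as s n) ≤ 2 * Real.log n := by
    have := Real.log_le_log (by linarith) h2
    rw [Real.log_pow] at this
    exact_mod_cast this
  have h5 : 0 ≤ Real.log (as s n) := Real.log_natCast_nonneg _
  have h6 : 0 ≤ Real.log (as s n) ^ s := by positivity
  refine ⟨h1, h2, h3, h4, ?_, ?_, ?_⟩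
  · have : as s n ≤ bs s n := Nat.le_floor (by linarith)
    exact_mod_cast this
  · exact Nat.floor_le (by positivity)
  · have := Nat.lt_floor_add_one ((as s n : ℝ) + Real.log (as s n) ^ s)
    unfold bs
    linarith

lemma log_as {s : ℝ} (hs : 0 < s) : Tendsto (fun n : ℕ => Real.log (as s n) / Real.log n) atTop (𝓝 1) := by
  have h2 : Tendsto (fun n : ℕ => 2 * Real.log (n : ℝ)) atTop atTop := tendsto_log.const_mul_atTop (by norm_num)
  have h3 : Tendsto (fun n : ℕ => Real.log (2 * Real.log (n : ℝ)) / (2 * Real.log n)) atTop (𝓝 0) :=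
    (Real.isLittleO_log_id_atTop.tendsto_div_nhds_zero).comp h2
  have h4 : Tendsto (fun n : ℕ => 1 + (Real.log 3 / Real.log n + (2 * s) * (Real.log (2 * Real.log (n : ℝ)) / (2 * Real.log n)))) atTop (𝓝 (1 + (0 + (2 * s) * 0))) :=
    ((tendsto_log.const_div_atTop _).add (h3.const_mul _)).const_add 1
  rw [mul_zero, add_zero, add_zero] at h4
  refine tendsto_of_tendsto_of_tendsto_of_le_of_le' tendsto_const_nhds h4 ?_ ?_
  · filter_upwards [as_facts hs, tendsto_log.eventually_gt_atTop 0] with n ⟨g1, g2, g3, g4, g5, g6, g7⟩ g8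
    rw [le_div_iff₀ g8, one_mul]
    exact g3
  · filter_upwards [as_facts hs, tendsto_log.eventually_ge_atTop 1, eventually_gt_atTop 0] with n ⟨g1, g2, g3, g4, g5, g6, g7⟩ g8 g9
    have hn0 : (0 : ℝ) < n := by exact_mod_cast g9
    have h5 : 0 < (2 * Real.log (n : ℝ)) := by linarith
    have h6 : 1 ≤ (2 * Real.log (n : ℝ)) ^ s := Real.one_le_rpow (by linarith) hs.le
    have h7 : (gs s n : ℝ) ≤ 3 * (2 * Real.log (n : ℝ)) ^ s := by
      unfold gs
      push_cast
      have := Nat.ceil_lt_add_one (show 0 ≤ (2 * Real.log (n : ℝ)) ^ s by positivity)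
      linarith
    have hg0 : (0 : ℝ) < gs s n := by
      unfold gs
      positivity
    have h8 := Real.log_le_log hg0 h7
    rw [Real.log_mul (by norm_num) (by positivity), Real.log_rpow h5] at h8
    have h9 : Real.log (as s n) = Real.log n + Real.log (gs s n) := by
      unfold as
      rw [Nat.cast_mul, Real.log_mul hn0.ne' hg0.ne']
    rw [h9, div_le_iff₀ (by linarith)]
    have e : (1 + (Real.log 3 / Real.log n + (2 * s) * (Real.log (2 * Real.log (n : ℝ)) / (2 * Real.log n)))) * Real.log n =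
        Real.log n + (Real.log 3 + s * Real.log (2 * Real.log (n : ℝ))) := by
      have : Real.log (n : ℝ) ≠ 0 := by linarith
      field_simp
    rw [e]
    linarith

theorem wd_log {s : ℝ} (hs : 2 < s) : Wd (as s) (bs s) 1 := by
  have hs0 : 0 < s := by linarith
  have hF := as_facts hs0
  refine ⟨one_pos, ?_, log_as hs0, ?_, ?_, ?_⟩
  · filter_upwards [hF] with n ⟨g1, g2, g3, g4, g5, g6, g7⟩
    exact_mod_cast g5
  · have h1 : Tendsto (fun n : ℕ => Real.log (as s n) / Real.log n + Real.log 2 / Real.log n) atTop (𝓝 (1 + 0)) :=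
      (log_as hs0).add (tendsto_log.const_div_atTop _)
    rw [add_zero] at h1
    refine tendsto_of_tendsto_of_tendsto_of_le_of_le' (log_as hs0) h1 ?_ ?_
    · filter_upwards [hF, tendsto_log.eventually_gt_atTop 0, eventually_gt_atTop 0] with n ⟨g1, g2, g3, g4, g5, g6, g7⟩ g8 g9
      have hn0 : (0 : ℝ) < n := by exact_mod_cast g9
      exact div_le_div_of_nonneg_right (Real.log_le_log (by linarith) g5) g8.le
    · filter_upwards [hF, tendsto_log.eventually_gt_atTop 0, eventually_gt_atTop 0, log_rpow_small hs0,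
        gs_small hs0] with n ⟨g1, g2, g3, g4, g5, g6, g7⟩ g8 g9 g10 g11
      have hn0 : (0 : ℝ) < n := by exact_mod_cast g9
      rw [← add_div]
      apply div_le_div_of_nonneg_right _ g8.le
      have h2 : (bs s n : ℝ) ≤ as s n * 2 := by
        have h3 : Real.log (as s n) ^ s ≤ (2 * Real.log n) ^ s := Real.rpow_le_rpow (by linarith) g4 hs0.le
        have h4 : (2 * Real.log n) ^ s ≤ gs s n := by
          unfold gs
          push_cast
          have := Nat.le_ceil ((2 * Real.log (n : ℝ)) ^ s)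
          linarith
        have h5 : (gs s n : ℝ) ≤ n := by exact_mod_cast g11
        linarith
      have ha : (0 : ℝ) < as s n := by linarith
      have h3 := Real.log_le_log (by linarith) h2
      rwa [Real.log_mul ha.ne' (by norm_num)] at h3
  · have h1 : Tendsto (fun n : ℕ => Real.log (n : ℝ) ^ (s - 2) / 2) atTop atTop :=
      ((tendsto_rpow_atTop (show 0 < s - 2 by linarith)).comp tendsto_log).atTop_div_const (by norm_num)
    refine tendsto_atTop_mono' _ ?_ h1
    have h2 : Tendsto (fun n : ℕ => Real.log (n : ℝ) ^ s) atTop atTop := (tendsto_rpow_atTop hs0).comp tendsto_log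
    filter_upwards [hF, tendsto_log.eventually_gt_atTop 0, h2.eventually_ge_atTop 2] with n ⟨g1, g2, g3, g4, g5, g6, g7⟩ g8 g9
    rw [Real.rpow_sub g8, Real.rpow_two, div_div, mul_comm (Real.log (n : ℝ) ^ 2) 2, ← div_div]
    apply div_le_div_of_nonneg_right _ (by positivity)
    have h3 : Real.log (n : ℝ) ^ s ≤ Real.log (as s n) ^ s := Real.rpow_le_rpow g8.le g3 hs0.le
    linarith
  · filter_upwards [hF, eventually_gt_atTop 0, tendsto_log.eventually_gt_atTop 0] with n ⟨g1, g2, g3, g4, g5, g6, g7⟩ g8 g9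
    have h3 : Real.log (as s n) ^ s ≤ (2 * Real.log n) ^ s := Real.rpow_le_rpow (by linarith) g4 hs0.le
    have h4 : (2 * Real.log n) ^ s ≤ gs s n := by
      unfold gs
      push_cast
      have := Nat.le_ceil ((2 * Real.log (n : ℝ)) ^ s)
      linarith
    have h5 : (gs s n : ℝ) ≤ gs s (n + 1) := by exact_mod_cast gs_mono hs0 (by omega) (by omega)
    have h6 : (bs s n : ℝ) ≤ as s (n + 1) := by
      unfold as at *
      push_cast at *
      have hn0 : (0 : ℝ) < n := by exact_mod_cast g8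
      nlinarith
    exact_mod_cast h6

end Pool.Agent.R529.SM
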