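import Mathlib
import Pool.Agent.R529.SM.V2

set_option autoImplicit false
set_option linter.unusedSectionVars false
set_option linter.unusedVariables false

/-! # The windows `(x, x + h]`, `(log x)^s ≤ h ≤ x^δ`, `x` real; replacing the compensator by `h / log x` -/

open MeasureTheory Filter Set
open scoped ENNReal Topology

namespace Pool.Agent.R529.SM

open Pool.Agent.R528.RM Pool.Agent.R291.RMW

variable {Ω : Type} {m0 : MeasurableSpace Ω} {μ : Measure Ω} [IsProbabilityMeasure μ]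
  {ℱ : Filtration ℕ m0} {A : ℕ → Set Ω}

/-- the number of integers in `(x, x + h]` -/
noncomputable def jj (x h : ℝ) : ℕ := ⌊x + h⌋₊ - ⌊x⌋₊

lemma jj_spec {x h : ℝ} (hx : 0 ≤ x) (hh : 0 ≤ h) : ⌊x⌋₊ + jj x h = ⌊x + h⌋₊ ∧ h - 1 ≤ jj x h ∧ (jj x h : ℝ) ≤ h + 1 := by
  have h1 : ⌊x⌋₊ ≤ ⌊x + h⌋₊ := Nat.floor_le_floor (by linarith)
  have h2 : ((jj x h : ℕ) : ℝ) = ⌊x + h⌋₊ - ⌊x⌋₊ := by
    unfold jj
    rw [Nat.cast_sub h1]
  have h3 := Nat.floor_le hx
  have h4 := Nat.lt_floor_add_one x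
  have h5 := Nat.floor_le (show 0 ≤ x + h by linarith)
  have h6 := Nat.lt_floor_add_one (x + h)
  refine ⟨by unfold jj; omega, by rw [h2]; linarith, by rw [h2]; linarith⟩

/-- uniformity in real starting points and lengths -/
theorem unif_real (hA : ∀ n, MeasurableSet[ℱ n] (A n)) {W : ℕ} (hW : 0 < W)
    (hd : ∀ᵐ ω ∂μ, ∀ ε : ℝ, 0 < ε → ∀ᶠ n : ℕ in atTop, |dens μ ℱ A n ω - rhoW W (n + 1)| ≤ ε * rhoW W (n + 1)) :
    ∀ᵐ ω ∂μ, ∀ s : ℝ, 2 < s → ∀ ε : ℝ, 0 < ε → ∃ δ : ℝ, 0 < δ ∧ ∀ᶠ x : ℝ in atTop, ∀ h : ℝ,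
      Real.log x ^ s ≤ h → h ≤ x ^ δ →
      |CS μ ℱ A (Finset.Ioc ⌊x⌋₊ ⌊x + h⌋₊) ω| ≤ (1 + ε) * √(2 * h) := by
  filter_upwards [unif_short (μ := μ) (ℱ := ℱ) hA hW hd] with ω hω s hs ε hε
  set η : ℝ := min (ε / 4) 1 with hη
  have hη0 : 0 < η := lt_min (by positivity) one_pos
  have hη1 : η ≤ 1 := min_le_right _ _
  have hηε : η ≤ ε / 4 := min_le_left _ _
  set s' : ℝ := (2 + s) / 2 with hs'
  have hs'2 : 2 < s' := by linarith
  have hs's : s' < s := by linarith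
  obtain ⟨δ, hδ, hev⟩ := hω s' hs'2 η hη0
  refine ⟨δ / 2, by positivity, ?_⟩
  have hA1 : Tendsto (fun x : ℝ => Real.log x ^ (s - s')) atTop atTop :=
    (tendsto_rpow_atTop (by linarith)).comp Real.tendsto_log_atTop
  have hA2 : Tendsto (fun x : ℝ => x ^ (δ / 2)) atTop atTop := tendsto_rpow_atTop (by positivity)
  have hA3 : Tendsto (fun x : ℝ => Real.log x ^ s) atTop atTop :=
    (tendsto_rpow_atTop (by linarith)).comp Real.tendsto_log_atTop
  filter_upwards [(tendsto_nat_floor_atTop (α := ℝ)).eventually hev, eventually_ge_atTop (3 : ℝ),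
    Real.tendsto_log_atTop.eventually_ge_atTop 1, hA1.eventually_ge_atTop 2, hA2.eventually_ge_atTop ((2 : ℝ) ^ δ * 2),
    hA2.eventually_ge_atTop 1, hA3.eventually_ge_atTop (1 / η)] with x g1 g2 g3 g4 g5 g6 g7 h hh1 hh2
  have hx0 : (0 : ℝ) < x := by linarith
  have hh0 : 0 < h := lt_of_lt_of_le (by positivity) hh1
  obtain ⟨e1, e2, e3⟩ := jj_spec hx0.le hh0.le
  have hf1 := Nat.floor_le hx0.le
  have hf2 := Nat.lt_floor_add_one x
  have hf3 : (2 : ℝ) ≤ (⌊x⌋₊ : ℝ) := by linarith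
  have hlog : Real.log (⌊x⌋₊ : ℝ) ≤ Real.log x := Real.log_le_log (by linarith) hf1
  have hlog0 : 0 ≤ Real.log (⌊x⌋₊ : ℝ) := Real.log_natCast_nonneg _
  have k1 : Real.log (⌊x⌋₊ : ℝ) ^ s' ≤ jj x h := by
    have h1 : Real.log (⌊x⌋₊ : ℝ) ^ s' ≤ Real.log x ^ s' := Real.rpow_le_rpow hlog0 hlog (by linarith)
    have h2 : Real.log x ^ s = Real.log x ^ (s - s') * Real.log x ^ s' := by
      rw [← Real.rpow_add (by linarith)]
      congr 1
      ring
    have h3 : 1 ≤ Real.log x ^ s' := Real.one_le_rpow g3 (by linarith)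
    nlinarith
  have k2 : (jj x h : ℝ) ≤ (⌊x⌋₊ : ℝ) ^ δ := by
    have h1 : (jj x h : ℝ) ≤ 2 * x ^ (δ / 2) := by linarith
    have h2 : x ^ δ = x ^ (δ / 2) * x ^ (δ / 2) := by
      rw [← Real.rpow_add hx0]
      congr 1
      ring
    have h3 : (x / 2) ^ δ ≤ (⌊x⌋₊ : ℝ) ^ δ := Real.rpow_le_rpow (by positivity) (by linarith) hδ.le
    rw [Real.div_rpow hx0.le (by norm_num)] at h3
    have h4 : 2 * x ^ (δ / 2) ≤ x ^ δ / 2 ^ δ := by
      rw [le_div_iff₀ (by positivity), h2]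
      nlinarith
    linarith
  have k3 := g1 (jj x h) k1 k2
  rw [e1] at k3
  refine k3.trans ?_
  have k4 : √(2 * (jj x h : ℝ)) ≤ (1 + η) * √(2 * h) := by
    rw [Real.sqrt_le_left (by positivity), mul_pow, Real.sq_sqrt (by positivity)]
    have h1 : 1 / η ≤ h := g7.trans hh1
    rw [div_le_iff₀ hη0] at h1
    nlinarith
  calc (1 + η) * √(2 * (jj x h : ℝ)) ≤ (1 + η) * ((1 + η) * √(2 * h)) := mul_le_mul_of_nonneg_left k4 (by linarith)
    _ = ((1 + η) * (1 + η)) * √(2 * h) := by ring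
    _ ≤ (1 + ε) * √(2 * h) := by
        apply mul_le_mul_of_nonneg_right _ (Real.sqrt_nonneg _)
        nlinarith

/-- the bound is attained -/
theorem low_real (hA : ∀ n, MeasurableSet[ℱ n] (A n)) {W : ℕ} (hW : 0 < W)
    (hd : ∀ᵐ ω ∂μ, ∀ ε : ℝ, 0 < ε → ∀ᶠ n : ℕ in atTop, |dens μ ℱ A n ω - rhoW W (n + 1)| ≤ ε * rhoW W (n + 1))
    {s : ℝ} (hs : 2 < s) :
    ∀ᵐ ω ∂μ, ∀ ε : ℝ, 0 < ε → ∃ᶠ n : ℕ in atTop,
      (1 - ε) * √(2 * Real.log (n : ℝ) ^ s) ≤ CS μ ℱ A (Finset.Ioc n ⌊(n : ℝ) + Real.log (n : ℝ) ^ s⌋₊) ω := by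
  have hs0 : 0 < s := by linarith
  filter_upwards [wd_law (μ := μ) (ℱ := ℱ) hA hW hd (wd_log hs)] with ω hω ε hε
  set η : ℝ := min (ε / 4) (1 / 2) with hη
  have hη0 : 0 < η := lt_min (by positivity) (by norm_num)
  have hη1 : η ≤ 1 / 2 := min_le_right _ _
  have hηε : η ≤ ε / 4 := min_le_left _ _
  have h1 := (hω η hη0).2
  rw [frequently_atTop]
  intro N
  have hA3 : Tendsto (fun n : ℕ => Real.log (n : ℝ) ^ s) atTop atTop := (tendsto_rpow_atTop hs0).comp tendsto_log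
  obtain ⟨n₀, hn₀⟩ := eventually_atTop.1 ((as_facts hs0).and (hA3.eventually_ge_atTop (1 / η)))
  have h2j : Tendsto (fun j : ℕ => 2 ^ j) atTop atTop := tendsto_pow_atTop_atTop_of_one_lt (by norm_num)
  obtain ⟨j, ⟨n, hn1, hn2, hn3⟩, hj⟩ := (h1.and (h2j.eventually_ge_atTop (max N n₀))).exists
  have hnN : max N n₀ ≤ n := hj.trans hn1.le
  obtain ⟨⟨g1, g2, g3, g4, g5, g6, g7⟩, g8⟩ := hn₀ n (le_trans (le_max_right _ _) hnN)
  refine ⟨as s n, ?_, ?_⟩
  · have : N ≤ n := le_trans (le_max_left _ _) hnN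
    have h2 : n ≤ as s n := by exact_mod_cast g1
    omega
  · have e : Finset.Ioc (as s n) ⌊(as s n : ℝ) + Real.log (as s n) ^ s⌋₊ = Finset.Ioc (as s n) (bs s n) := rfl
    rw [e]
    refine le_trans ?_ hn3
    set H := Real.log (as s n) ^ s with hH
    have hHη : 1 / η ≤ H := g8.trans (Real.rpow_le_rpow (Real.log_natCast_nonneg _) g3 hs0.le)
    have hH0 : 0 < H := lt_of_lt_of_le (by positivity) hHη
    have k1 : (1 - η) * √(2 * H) ≤ √(2 / 1 * ((bs s n : ℝ) - as s n)) := by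
      apply Real.le_sqrt_of_sq_le
      rw [mul_pow, Real.sq_sqrt (by positivity)]
      rw [div_le_iff₀ hη0] at hHη
      have : (1 - η) ^ 2 * (2 * H) ≤ (1 - η) * (2 * H) := mul_le_mul_of_nonneg_right (by nlinarith) (by positivity)
      nlinarith
    have k2 := mul_le_mul_of_nonneg_left k1 (show 0 ≤ 1 - η by linarith)
    refine le_trans ?_ k2
    rw [← mul_assoc]
    apply mul_le_mul_of_nonneg_right _ (Real.sqrt_nonneg _)
    nlinarith

/-- the sum of the profile in a short window -/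
lemma vR_window {W : ℕ} (hW : 0 < W) {s : ℝ} (hs : 0 < s) :
    Tendsto (fun x : ℝ => vR W (Finset.Ioc ⌊x⌋₊ ⌊x + Real.log x ^ s⌋₊) - Real.log x ^ s / Real.log x) atTop (𝓝 0) := by
  have hl : Tendsto Real.log atTop atTop := Real.tendsto_log_atTop
  -- error bound
  have hE : Tendsto (fun x : ℝ => (4 * (W : ℝ) + 4) / Real.log x + 4 * Real.log x ^ (2 * s + 2) / x) atTop (𝓝 (0 + 0)) := by
    refine (hl.const_div_atTop _).add ?_
    have h1 := (isLittleO_log_rpow_rpow_atTop (2 * s + 2) (show (0 : ℝ) < 1 by norm_num)).tendsto_div_nhds_zero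
    have h2 := h1.const_mul 4
    rw [mul_zero] at h2
    refine h2.congr fun x => ?_
    rw [Real.rpow_one]
    ring
  rw [add_zero] at hE
  refine squeeze_zero_norm' ?_ hE
  filter_upwards [eventually_ge_atTop (4 : ℝ), hl.eventually_ge_atTop (2 + (W : ℝ) / Nat.totient W)] with x g1 g2
  have hW' : (0 : ℝ) < W := by exact_mod_cast hW
  have hφ : (0 : ℝ) < (W : ℝ) / Nat.totient W := by
    have : (0 : ℝ) < Nat.totient W := by exact_mod_cast Nat.totient_pos.2 hW
    positivity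
  have hx0 : (0 : ℝ) < x := by linarith
  set L := Real.log x with hL
  have hL2 : 2 ≤ L := by linarith
  set H := L ^ s with hH
  have hH1 : 1 ≤ H := Real.one_le_rpow (by linarith) hs.le
  obtain ⟨e1, e2, e3⟩ := jj_spec (x := x) (h := H) hx0.le (by linarith)
  have hf1 := Nat.floor_le hx0.le
  have hf2 := Nat.lt_floor_add_one x
  have hf3 : x / 2 ≤ (⌊x⌋₊ : ℝ) := by linarith
  have hn0 : (0 : ℝ) < (⌊x⌋₊ : ℝ) := by linarith
  have hb1 : (⌊x + H⌋₊ : ℝ) ≤ x + H := Nat.floor_le (by linarith)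
  -- logarithms
  have l1 : L - 2 / x ≤ Real.log (⌊x⌋₊ : ℝ) := by
    have h1 : Real.log x - Real.log (⌊x⌋₊ : ℝ) ≤ 2 / x := by
      rw [← Real.log_div hx0.ne' hn0.ne']
      have h2 := Real.log_le_sub_one_of_pos (show 0 < x / (⌊x⌋₊ : ℝ) by positivity)
      have h3 : x / (⌊x⌋₊ : ℝ) - 1 ≤ 2 / x := by
        rw [div_sub_one hn0.ne', div_le_div_iff₀ hn0 hx0]
        nlinarith
      linarith
    linarith
  have h2x : 2 / x ≤ 1 := by
    rw [div_le_one hx0]
    linarith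
  have hln : 0 < Real.log (⌊x⌋₊ : ℝ) := by linarith
  have hsl : (⌊x⌋₊ : ℕ) ≤ ⌊x + H⌋₊ := by omega
  have l2 : Real.log (⌊x + H⌋₊ : ℝ) ≤ L + H / x := by
    have h0 : (0 : ℝ) < (⌊x + H⌋₊ : ℝ) := lt_of_lt_of_le hn0 (by exact_mod_cast hsl)
    have h1 := Real.log_le_log h0 hb1
    have h2 : Real.log (x + H) - Real.log x ≤ H / x := by
      rw [← Real.log_div (by positivity) hx0.ne']
      have h2 := Real.log_le_sub_one_of_pos (show 0 < (x + H) / x by positivity)
      have h3 : (x + H) / x - 1 = H / x := by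
        field_simp
        ring
      linarith
    linarith
  have hlb : 0 < Real.log (⌊x + H⌋₊ : ℝ) := lt_of_lt_of_le hln (Real.log_le_log hn0 (by exact_mod_cast hsl))
  have hs1 : 1 ≤ ⌊x⌋₊ := Nat.le_floor (by push_cast; linarith)
  have key := rho_cls1 (W := W) (q := 1) (a := 0) (s := ⌊x⌋₊) (t := ⌊x + H⌋₊) hW one_pos (zero_mem_adm_one W) hsl
    (by linarith) hs1
  rw [adm_one, ← vR_cls] at key
  push_cast at key
  have hjj : ((⌊x + H⌋₊ : ℕ) : ℝ) - (⌊x⌋₊ : ℕ) = jj x H := by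
    rw [← e1]
    push_cast
    ring
  rw [hjj] at key
  simp only [one_mul] at key
  obtain ⟨key1, key2⟩ := key
  have hHL : H * H * L ^ 2 = L ^ (2 * s + 2) := by
    rw [hH, ← Real.rpow_add (by linarith), ← Real.rpow_natCast, ← Real.rpow_add (by linarith)]
    congr 1
    push_cast
    ring
  have hL20 : (0 : ℝ) < L := by linarith
  have hHx : 4 * L ^ (2 * s + 2) / x = 4 * (H * H * L ^ 2) / x := by rw [hHL]
  rw [Real.norm_eq_abs, abs_le, hHx]
  set V := vR W (Finset.Ioc ⌊x⌋₊ ⌊x + H⌋₊) with hV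
  have hW1 : (1 : ℝ) ≤ W := by exact_mod_cast hW
  have hL1 : (1 : ℝ) ≤ L := by linarith
  have hHH : H ≤ H * H * L ^ 2 := by
    have : 1 ≤ H * L ^ 2 := by nlinarith [one_le_pow₀ hL1 (n := 2)]
    nlinarith
  constructor
  · -- lower bound
    have h1 : (H - 1 - 2 * W) / (L + H / x) ≤ V ∨ H - 1 - 2 * W < 0 := by
      rcases lt_or_ge (H - 1 - 2 * W) 0 with h | h
      · exact Or.inr h
      · left
        refine le_trans ?_ key1
        calc (H - 1 - 2 * (W : ℝ)) / (L + H / x) ≤ (H - 1 - 2 * W) / Real.log (⌊x + H⌋₊ : ℝ) :=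
              div_le_div_of_nonneg_left h hlb l2
          _ ≤ ((jj x H : ℝ) - 2 * W) / Real.log (⌊x + H⌋₊ : ℝ) := div_le_div_of_nonneg_right (by linarith) hlb.le
    have hx1 : 0 ≤ 4 * (H * H * L ^ 2) / x := by positivity
    rcases h1 with h1 | h1
    · have h2 : H / L - (2 * W + 1) / L - H * H / x ≤ (H - 1 - 2 * W) / (L + H / x) := by
        rw [le_div_iff₀ (by positivity)]
        have h3 : (H / L - (2 * W + 1) / L - H * H / x) * (L + H / x) =
            (H - (2 * W + 1)) + (H / L * (H / x) - H * H / x * L) - (2 * W + 1) / L * (H / x) - H * H / x * (H / x) := by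
          field_simp
          ring
        rw [h3]
        have h4 : H / L * (H / x) ≤ H * H / x * L := by
          rw [div_mul_div_comm, div_mul_eq_mul_div, div_le_div_iff₀ (by positivity) hx0]
          have : 1 ≤ L * L := by nlinarith
          have h5 : 0 ≤ H * H * x := by positivity
          nlinarith
        have h5 : 0 ≤ (2 * (W : ℝ) + 1) / L * (H / x) := by positivity
        have h6 : 0 ≤ H * H / x * (H / x) := by positivity
        linarith
      have h3 : (2 * (W : ℝ) + 1) / L ≤ (4 * W + 4) / L := div_le_div_of_nonneg_right (by linarith) hL20.le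
      have h4 : H * H / x ≤ 4 * (H * H * L ^ 2) / x := by
        apply div_le_div_of_nonneg_right _ hx0.le
        have : 1 ≤ L ^ 2 := one_le_pow₀ hL1
        nlinarith [mul_pos (lt_of_lt_of_le one_pos hH1) (lt_of_lt_of_le one_pos hH1)]
      linarith
    · have h2 : 0 ≤ V := vR_nonneg W _
      have h3 : H / L ≤ (4 * W + 4) / L := div_le_div_of_nonneg_right (by linarith) hL20.le
      linarith
  · have h1 : V ≤ (H + 1 + 2 * W) / (L - 2 / x) := by
      refine key2.trans ?_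
      calc ((jj x H : ℝ) + 2 * W) / Real.log (⌊x⌋₊ : ℝ) ≤ (H + 1 + 2 * W) / Real.log (⌊x⌋₊ : ℝ) :=
            div_le_div_of_nonneg_right (by linarith) hln.le
        _ ≤ _ := div_le_div_of_nonneg_left (by linarith) (by linarith) l1
    have h2 : (H + 1 + 2 * W) / (L - 2 / x) ≤ H / L + (4 * W + 4) / L + 4 * (H * H * L ^ 2) / x := by
      rw [div_le_iff₀ (by linarith)]
      have h3 : (H / L + (4 * W + 4) / L + 4 * (H * H * L ^ 2) / x) * (L - 2 / x) =
          (H + (4 * W + 4)) - (4 * W + 4) / L * (2 / x) - H / L * (2 / x) + 4 * (H * H * L ^ 2) / x * (L - 2 / x) := by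
        field_simp
        ring
      rw [h3]
      have h4 : (4 * (W : ℝ) + 4) / L * (2 / x) ≤ 2 * W + 2 := by
        have h5 : (4 * (W : ℝ) + 4) / L ≤ (2 * W + 2) := by
          rw [div_le_iff₀ hL20]
          nlinarith
        have h6 : 0 ≤ (4 * (W : ℝ) + 4) / L := by positivity
        nlinarith [show 0 ≤ 2 / x by positivity]
      have h5 : H / L * (2 / x) ≤ 4 * (H * H * L ^ 2) / x * (L - 2 / x) := by
        have h6 : H / L * (2 / x) ≤ 2 * H / x := by
          rw [div_mul_div_comm, div_le_div_iff₀ (by positivity) hx0]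
          have h7 : 0 ≤ H * 2 * x := by positivity
          nlinarith
        have h7 : 2 * H / x ≤ 4 * (H * H * L ^ 2) / x := by
          apply div_le_div_of_nonneg_right _ hx0.le
          linarith
        have h8 : 0 ≤ 4 * (H * H * L ^ 2) / x := by positivity
        nlinarith
      linarith
    linarith

end Pool.Agent.R529.SM
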