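import Mathlib
import Pool.Agent.R529.SM.V3

set_option autoImplicit false
set_option linter.unusedSectionVars false
set_option linter.unusedVariables false

/-! # Conditional probabilities close to the profile -/

open MeasureTheory Filter Set
open scoped ENNReal Topology

namespace Pool.Agent.R529.SM

open Pool.Agent.R528.RM Pool.Agent.R291.RMW

variable {Ω : Type} {m0 : MeasurableSpace Ω} {μ : Measure Ω} [IsProbabilityMeasure μ]
  {ℱ : Filtration ℕ m0} {A : ℕ → Set Ω}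

lemma dens_zero (W : ℕ) (hcop : ∀ n, ¬ Nat.Coprime n W → A n = ∅) :
    ∀ᵐ ω ∂μ, ∀ n, ¬ Nat.Coprime (n + 1) W → dens μ ℱ A n ω = 0 := by
  rw [ae_all_iff]
  intro n
  by_cases h : Nat.Coprime (n + 1) W
  · exact Eventually.of_forall fun ω h2 => absurd h h2
  · have h1 : dens μ ℱ A n =ᵐ[μ] 0 := by
      unfold dens
      rw [hcop _ h, indicator_empty]
      rw [show (fun _ : Ω => (0 : ℝ)) = 0 from rfl, condExp_zero]
    filter_upwards [h1] with ω hω _
    exact hω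

lemma pow_log_small (B : ℕ) (C : ℝ) : Tendsto (fun n : ℕ => C * Real.log (n : ℝ) ^ B / n) atTop (𝓝 0) := by
  have h1 := (Real.isLittleO_pow_log_id_atTop (n := B)).tendsto_div_nhds_zero
  have h2 := (h1.comp tendsto_natCast_atTop_atTop).const_mul C
  rw [mul_zero] at h2
  refine h2.congr fun n => ?_
  simp only [Function.comp, id]
  ring

/-- from `(W / φ(W)) / log n` to the profile -/
lemma profile_close {W : ℕ} (hW : 0 < W) {f : ℕ → ℝ} (hz : ∀ n, ¬ Nat.Coprime (n + 1) W → f n = 0) (B : ℕ)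
    (hf : Tendsto (fun n : ℕ => Real.log (n : ℝ) ^ B * |f n - ((W : ℝ) / Nat.totient W) / Real.log n|)
      (atTop ⊓ 𝓟 {n : ℕ | Nat.Coprime (n + 1) W}) (𝓝 0)) :
    ∀ᶠ n : ℕ in atTop, |f n - rhoW W (n + 1)| * Real.log (n : ℝ) ^ B ≤ 1 := by
  have hφ : (0 : ℝ) < (W : ℝ) / Nat.totient W := by
    have h1 : (0 : ℝ) < Nat.totient W := by exact_mod_cast Nat.totient_pos.2 hW
    have h2 : (0 : ℝ) < W := by exact_mod_cast hW
    positivity
  set c := (W : ℝ) / Nat.totient W with hc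
  have h1 := hf.eventually (eventually_lt_nhds (show (0 : ℝ) < 1 / 2 by norm_num))
  rw [eventually_inf_principal] at h1
  have h2 := (pow_log_small B c).eventually (eventually_lt_nhds (show (0 : ℝ) < 1 / 2 by norm_num))
  filter_upwards [h1, h2, tendsto_log.eventually_ge_atTop (1 + c), eventually_gt_atTop 0] with n g1 g2 g3 g4
  by_cases hcop : Nat.Coprime (n + 1) W
  · have hn0 : (0 : ℝ) < n := by exact_mod_cast g4
    have k1 := g1 hcop
    have hl : 1 ≤ Real.log (n : ℝ) := by linarith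
    have hl2 : Real.log (n : ℝ) ≤ Real.log ((n + 1 : ℕ) : ℝ) := Real.log_le_log hn0 (by push_cast; linarith)
    have hl3 : Real.log ((n + 1 : ℕ) : ℝ) - Real.log (n : ℝ) ≤ 1 / n := by
      rw [← Real.log_div (by positivity) hn0.ne']
      have h := Real.log_le_sub_one_of_pos (show 0 < ((n + 1 : ℕ) : ℝ) / n by positivity)
      have e : ((n + 1 : ℕ) : ℝ) / n - 1 = 1 / n := by
        push_cast
        field_simp
        ring
      linarith
    have e : rhoW W (n + 1) = c / Real.log ((n + 1 : ℕ) : ℝ) := by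
      unfold rhoW
      rw [if_pos hcop, min_eq_right]
      rw [div_le_one (by linarith)]
      linarith
    have k2 : |c / Real.log (n : ℝ) - c / Real.log ((n + 1 : ℕ) : ℝ)| ≤ c / n := by
      have h0 : 0 ≤ c / Real.log (n : ℝ) - c / Real.log ((n + 1 : ℕ) : ℝ) := by
        have := div_le_div_of_nonneg_left hφ.le (by linarith : 0 < Real.log (n : ℝ)) hl2
        linarith
      rw [abs_of_nonneg h0]
      have e2 : c / Real.log (n : ℝ) - c / Real.log ((n + 1 : ℕ) : ℝ) =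
          c * (Real.log ((n + 1 : ℕ) : ℝ) - Real.log (n : ℝ)) / (Real.log (n : ℝ) * Real.log ((n + 1 : ℕ) : ℝ)) := by
        have a1 : Real.log (n : ℝ) ≠ 0 := by linarith
        have a2 : Real.log ((n + 1 : ℕ) : ℝ) ≠ 0 := by linarith
        field_simp
      rw [e2]
      refine (div_le_self (mul_nonneg hφ.le (by linarith)) (by nlinarith)).trans ?_
      have := mul_le_mul_of_nonneg_left hl3 hφ.le
      refine this.trans (le_of_eq ?_)
      ring
    rw [e]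
    have k3 : |f n - c / Real.log ((n + 1 : ℕ) : ℝ)| ≤ |f n - c / Real.log (n : ℝ)| + c / n := by
      have := abs_add_le (f n - c / Real.log (n : ℝ)) (c / Real.log (n : ℝ) - c / Real.log ((n + 1 : ℕ) : ℝ))
      rw [sub_add_sub_cancel] at this
      linarith
    have hp : 0 ≤ Real.log (n : ℝ) ^ B := by positivity
    have k4 := mul_le_mul_of_nonneg_right k3 hp
    have k5 : c / n * Real.log (n : ℝ) ^ B = c * Real.log (n : ℝ) ^ B / n := by ring
    rw [add_mul, k5] at k4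
    linarith [mul_comm (Real.log (n : ℝ) ^ B) |f n - c / Real.log (n : ℝ)|]
  · rw [hz n hcop]
    have : rhoW W (n + 1) = 0 := by
      unfold rhoW
      rw [if_neg hcop]
    rw [this, sub_zero, abs_zero, zero_mul]
    exact zero_le_one

/-- the compensator and the sum of the profile -/
lemma VS_vR_close {W : ℕ} {ω : Ω}
    (hB : ∀ B : ℕ, ∀ᶠ n : ℕ in atTop, |dens μ ℱ A n ω - rhoW W (n + 1)| * Real.log (n : ℝ) ^ B ≤ 1) {s : ℝ} (hs : 0 < s) :
    ∀ᶠ x : ℝ in atTop, |VS μ ℱ A (Finset.Ioc ⌊x⌋₊ ⌊x + Real.log x ^ s⌋₊) ω - vR W (Finset.Ioc ⌊x⌋₊ ⌊x + Real.log x ^ s⌋₊)| ≤ 1 := by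
  obtain ⟨B, hBs⟩ := exists_nat_gt (s + 1)
  obtain ⟨n₀, hn₀⟩ := eventually_atTop.1 (hB B)
  have hA1 : Tendsto (fun x : ℝ => Real.log x ^ ((B : ℝ) - s)) atTop atTop :=
    (tendsto_rpow_atTop (by linarith)).comp Real.tendsto_log_atTop
  filter_upwards [eventually_ge_atTop ((n₀ : ℝ) + 4), Real.tendsto_log_atTop.eventually_ge_atTop 2,
    hA1.eventually_ge_atTop ((2 : ℝ) ^ B * 2)] with x g1 g2 g3
  have hn0' : (0 : ℝ) ≤ n₀ := Nat.cast_nonneg _
  have hx0 : (0 : ℝ) < x := by linarith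
  set L := Real.log x with hL
  set H := L ^ s with hH
  have hL0 : 0 < L := by linarith
  have hH1 : 1 ≤ H := Real.one_le_rpow (by linarith) hs.le
  obtain ⟨e1, e2, e3⟩ := jj_spec (x := x) (h := H) hx0.le (by linarith)
  have hf1 := Nat.floor_le hx0.le
  have hf2 := Nat.lt_floor_add_one x
  have hf3 : x / 2 ≤ (⌊x⌋₊ : ℝ) := by linarith
  have hn0 : (0 : ℝ) < (⌊x⌋₊ : ℝ) := by linarith
  have hll : L / 2 ≤ Real.log (⌊x⌋₊ : ℝ) := by
    have h1 := Real.log_le_log (by positivity) hf3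
    rw [Real.log_div hx0.ne' (by norm_num)] at h1
    have : Real.log 2 < 1 := by
      have := Real.log_two_lt_d9
      linarith
    linarith
  unfold VS vR
  rw [← Finset.sum_sub_distrib]
  refine (Finset.abs_sum_le_sum_abs _ _).trans ?_
  have hterm : ∀ m ∈ Finset.Ioc ⌊x⌋₊ ⌊x + H⌋₊, |dens μ ℱ A (m - 1) ω - rhoW W m| ≤ 1 / (L / 2) ^ B := by
    intro m hm
    obtain ⟨h1, h2⟩ := Finset.mem_Ioc.1 hm
    have hfn : n₀ ≤ ⌊x⌋₊ := Nat.le_floor (by linarith)
    have h3 := hn₀ (m - 1) (by omega)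
    rw [show m - 1 + 1 = m by omega] at h3
    have h4 : L / 2 ≤ Real.log ((m - 1 : ℕ) : ℝ) := by
      refine hll.trans (Real.log_le_log hn0 ?_)
      exact_mod_cast (by omega : ⌊x⌋₊ ≤ m - 1)
    rw [le_div_iff₀ (by positivity)]
    refine le_trans (mul_le_mul_of_nonneg_left (pow_le_pow_left₀ (by positivity) h4 B) (abs_nonneg _)) h3
  refine (Finset.sum_le_sum hterm).trans ?_
  rw [Finset.sum_const, Nat.card_Ioc, nsmul_eq_mul]
  have e4 : ((⌊x + H⌋₊ - ⌊x⌋₊ : ℕ) : ℝ) = jj x H := rfl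
  rw [e4, mul_one_div, div_le_one (by positivity), div_pow, le_div_iff₀ (by positivity)]
  have h5 : L ^ B = L ^ ((B : ℝ) - s) * H := by
    rw [hH, ← Real.rpow_add hL0, sub_add_cancel, Real.rpow_natCast]
  rw [h5]
  have h6 : (jj x H : ℝ) ≤ 2 * H := by linarith
  have h7 : (0 : ℝ) < 2 ^ B := by positivity
  calc (jj x H : ℝ) * 2 ^ B ≤ 2 * H * 2 ^ B := mul_le_mul_of_nonneg_right h6 h7.le
    _ = (2 ^ B * 2) * H := by ring
    _ ≤ L ^ ((B : ℝ) - s) * H := mul_le_mul_of_nonneg_right g3 (by linarith)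

/-- `count - h / log x` is the centered count up to a bounded error -/
lemma Ncl_center {W : ℕ} (hW : 0 < W) {ω : Ω}
    (hB : ∀ B : ℕ, ∀ᶠ n : ℕ in atTop, |dens μ ℱ A n ω - rhoW W (n + 1)| * Real.log (n : ℝ) ^ B ≤ 1) {s : ℝ} (hs : 0 < s) :
    ∀ᶠ x : ℝ in atTop, |(Ncl A (Finset.Ioc ⌊x⌋₊ ⌊x + Real.log x ^ s⌋₊) ω - Real.log x ^ s / Real.log x) -
      CS μ ℱ A (Finset.Ioc ⌊x⌋₊ ⌊x + Real.log x ^ s⌋₊) ω| ≤ 2 := by
  have h1 := (vR_window hW hs).eventually (Metric.ball_mem_nhds (0 : ℝ) one_pos)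
  filter_upwards [VS_vR_close hB hs, h1] with x g1 g2
  rw [Real.dist_eq, sub_zero] at g2
  rw [CS_eq]
  have e : (Ncl A (Finset.Ioc ⌊x⌋₊ ⌊x + Real.log x ^ s⌋₊) ω - Real.log x ^ s / Real.log x) -
      (Ncl A (Finset.Ioc ⌊x⌋₊ ⌊x + Real.log x ^ s⌋₊) ω - VS μ ℱ A (Finset.Ioc ⌊x⌋₊ ⌊x + Real.log x ^ s⌋₊) ω) =
      (VS μ ℱ A (Finset.Ioc ⌊x⌋₊ ⌊x + Real.log x ^ s⌋₊) ω - vR W (Finset.Ioc ⌊x⌋₊ ⌊x + Real.log x ^ s⌋₊)) +
      (vR W (Finset.Ioc ⌊x⌋₊ ⌊x + Real.log x ^ s⌋₊) - Real.log x ^ s / Real.log x) := by ring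
  rw [e]
  refine (abs_add_le _ _).trans ?_
  linarith

lemma norm_const {L s : ℝ} (hL : 0 < L) : L / L ^ s * √(2 * L ^ s) = √2 * L ^ (1 - s / 2) := by
  rw [Real.sqrt_mul (by norm_num), Real.sqrt_eq_rpow (L ^ s), ← Real.rpow_mul hL.le, Real.rpow_sub hL, Real.rpow_one]
  have h1 : L ^ s = L ^ (s / 2) * L ^ (s / 2) := by
    rw [← Real.rpow_add hL]
    congr 1
    ring
  have h2 : s * (1 / 2) = s / 2 := by ring
  rw [h2, h1]
  have h3 : 0 < L ^ (s / 2) := by positivity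
  field_simp

end Pool.Agent.R529.SM
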