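import Mathlib
import Pool.Agent.R529.SM.V3

set_option autoImplicit false
set_option linter.unusedSectionVars false
set_option linter.unusedVariables false

/-! # An enumeration of the grid windows at scale `x^(r/q)` -/

open MeasureTheory Filter Set
open scoped ENNReal Topology

namespace Pool.Agent.R529.SM

open Pool.Agent.R528.RM Pool.Agent.R291.RMW

def qt (D K k : ℕ) : ℕ := (Nat.log 2 k - K) / D
def qu (D K c k : ℕ) : ℕ := k / 2 ^ (qt D K k + c)
def qw (D K c k : ℕ) : ℕ := k % 2 ^ (qt D K k + c)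
def qg (D K r m k : ℕ) : ℕ := 2 ^ (r * qt D K k - m)
def qa (D K c r m k : ℕ) : ℕ := qu D K c k * qg D K r m k
def qb (D K c r m k : ℕ) : ℕ := qa D K c r m k + max (qw D K c k) 1 * qg D K r m k

lemma qt_top {D : ℕ} (hD : 0 < D) (K : ℕ) : Tendsto (fun k => qt D K k) atTop atTop := by
  have h1 : Tendsto (fun k => Nat.log 2 k) atTop atTop := by
    refine tendsto_atTop.2 fun b => ?_
    filter_upwards [eventually_ge_atTop (2 ^ b)] with k hk
    exact Nat.le_log_of_pow_le (by norm_num) hk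
  refine tendsto_atTop.2 fun b => ?_
  filter_upwards [h1.eventually_ge_atTop (b * D + K)] with k hk
  unfold qt
  rw [Nat.le_div_iff_mul_le hD]
  omega

/-- logarithmic size of the data -/
lemma q_facts {D K c r m : ℕ} (hD : 2 ≤ D) (hr : 1 ≤ r) (hK : c ≤ K) : ∀ᶠ k : ℕ in atTop,
    0 < k ∧ m ≤ r * qt D K k ∧ 1 ≤ qt D K k ∧
    (D * qt D K k : ℝ) * Real.log 2 ≤ Real.log k ∧ Real.log k ≤ ((D * qt D K k : ℝ) + D + K + 1) * Real.log 2 ∧
    0 < qu D K c k ∧ 2 ^ qt D K k ≤ qu D K c k ∧
    Real.log (qu D K c k) ≤ Real.log k - (qt D K k + c) * Real.log 2 ∧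
    Real.log k - (qt D K k + c + 1) * Real.log 2 ≤ Real.log (qu D K c k) := by
  have hl2 : 0 < Real.log 2 := Real.log_pos (by norm_num)
  filter_upwards [(qt_top (D := D) (by omega) K).eventually_ge_atTop (m + 1), eventually_gt_atTop 0] with k h1 h2
  set t := qt D K k with ht
  have hk0 : (0 : ℝ) < k := by exact_mod_cast h2
  have hlog1 : 2 ^ Nat.log 2 k ≤ k := Nat.pow_log_le_self 2 h2.ne'
  have hlog2 : k < 2 ^ (Nat.log 2 k + 1) := Nat.lt_pow_succ_log_self (by norm_num) k
  have ht1 : t * D ≤ Nat.log 2 k - K := Nat.div_mul_le_self _ _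
  have ht2 : Nat.log 2 k - K < t * D + D := Nat.lt_div_mul_add (by omega)
  have ht3 : K + t * D ≤ Nat.log 2 k := by
    have : 1 ≤ t * D := by nlinarith
    omega
  have r1 : ((Nat.log 2 k : ℕ) : ℝ) * Real.log 2 ≤ Real.log k := by
    have := Real.log_le_log (by positivity) (show ((2 : ℝ) ^ Nat.log 2 k) ≤ k by exact_mod_cast hlog1)
    rwa [Real.log_pow] at this
  have r2 : Real.log k ≤ (((Nat.log 2 k : ℕ) : ℝ) + 1) * Real.log 2 := by
    have := Real.log_le_log hk0 (show (k : ℝ) ≤ (2 : ℝ) ^ (Nat.log 2 k + 1) by exact_mod_cast hlog2.le)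
    rw [Real.log_pow] at this
    push_cast at this
    exact this
  have c1 : ((K : ℝ) + t * D) ≤ (Nat.log 2 k : ℕ) := by exact_mod_cast ht3
  have c2 : ((Nat.log 2 k : ℕ) : ℝ) ≤ K + t * D + D := by exact_mod_cast (by omega : Nat.log 2 k ≤ K + t * D + D)
  have hK0 : (0 : ℝ) ≤ K := Nat.cast_nonneg _
  -- `u`
  have hu1 : 2 ^ t ≤ qu D K c k := by
    unfold qu
    rw [← ht, Nat.le_div_iff_mul_le (by positivity), ← pow_add]
    refine le_trans (Nat.pow_le_pow_right (by norm_num) ?_) hlog1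
    nlinarith
  have hu0 : 0 < qu D K c k := lt_of_lt_of_le (by positivity) hu1
  have hu2 : qu D K c k * 2 ^ (t + c) ≤ k := by
    unfold qu
    rw [← ht]
    exact Nat.div_mul_le_self _ _
  have hu3 : k ≤ 2 * (qu D K c k * 2 ^ (t + c)) := by
    have h3 : k < qu D K c k * 2 ^ (t + c) + 2 ^ (t + c) := by
      unfold qu
      rw [← ht]
      exact Nat.lt_div_mul_add (by positivity)
    have h4 : 1 * 2 ^ (t + c) ≤ qu D K c k * 2 ^ (t + c) := Nat.mul_le_mul_right _ hu0
    omega
  have hur : (0 : ℝ) < qu D K c k := by exact_mod_cast hu0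
  have l1 : Real.log (qu D K c k) + (t + c) * Real.log 2 ≤ Real.log k := by
    have := Real.log_le_log (by positivity) (show (qu D K c k : ℝ) * 2 ^ (t + c) ≤ k by exact_mod_cast hu2)
    rw [Real.log_mul hur.ne' (by positivity), Real.log_pow] at this
    push_cast at this
    exact this
  have l2 : Real.log k ≤ Real.log (qu D K c k) + (t + c + 1) * Real.log 2 := by
    have := Real.log_le_log hk0 (show (k : ℝ) ≤ 2 * ((qu D K c k : ℝ) * 2 ^ (t + c)) by exact_mod_cast hu3)
    rw [Real.log_mul (by norm_num) (by positivity), Real.log_mul hur.ne' (by positivity), Real.log_pow] at this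
    push_cast at this
    linarith
  refine ⟨h2, ?_, by omega, ?_, ?_, hu0, hu1, by linarith, by linarith⟩
  · nlinarith
  · refine le_trans ?_ r1
    apply mul_le_mul_of_nonneg_right _ hl2.le
    linarith
  · refine r2.trans ?_
    apply mul_le_mul_of_nonneg_right _ hl2.le
    linarith

theorem wu_scale {D K c r m : ℕ} (hD : 2 ≤ D) (hr : 1 ≤ r) (hK : c ≤ K) :
    Wu (qa D K c r m) (qb D K c r m) (((D : ℝ) + r - 1) / D) := by
  have hl2 : 0 < Real.log 2 := Real.log_pos (by norm_num)
  have hD0 : (2 : ℝ) ≤ D := by exact_mod_cast hD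
  have hr0 : (1 : ℝ) ≤ r := by exact_mod_cast hr
  have hF := q_facts (D := D) (K := K) (c := c) (r := r) (m := m) hD hr hK
  have hκ : 0 < ((D : ℝ) + r - 1) / D := div_pos (by linarith) (by linarith)
  set κ := ((D : ℝ) + r - 1) / D with hκd
  have hκe : κ = 1 + (r - 1) / D := by
    rw [hκd]
    field_simp
    ring
  have hab : ∀ k, qa D K c r m k ≤ qb D K c r m k := fun k => by unfold qb; omega
  -- the size of `a`
  set C : ℝ := (r * (D + K + 1) + c + 1 + m) * Real.log 2 with hC
  have ha : ∀ᶠ k : ℕ in atTop, κ * Real.log k - C ≤ Real.log (qa D K c r m k) ∧ Real.log (qa D K c r m k) ≤ κ * Real.log k ∧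
      (0 : ℝ) < qa D K c r m k := by
    filter_upwards [hF] with k ⟨g0, g1, g2, g3, g4, g5, g6, g7, g8⟩
    set t := qt D K k with ht
    have hur : (0 : ℝ) < qu D K c k := by exact_mod_cast g5
    have e1 : Real.log (qa D K c r m k) = Real.log (qu D K c k) + ((r : ℝ) * t - m) * Real.log 2 := by
      unfold qa qg
      rw [← ht]
      push_cast
      rw [Real.log_mul hur.ne' (by positivity), Real.log_pow, Nat.cast_sub g1]
      push_cast
      ring
    have hc0 : (0 : ℝ) ≤ c := Nat.cast_nonneg _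
    have hm0 : (0 : ℝ) ≤ m := Nat.cast_nonneg _
    have hK0 : (0 : ℝ) ≤ K := Nat.cast_nonneg _
    have e2 : (r - 1) / D * Real.log k - r * (D + K + 1) * Real.log 2 ≤ (r - 1) * (t * Real.log 2) := by
      have h1 : Real.log k / D ≤ t * Real.log 2 + (D + K + 1) * Real.log 2 := by
        rw [div_le_iff₀ (by linarith)]
        have : (D + K + 1 : ℝ) * Real.log 2 ≤ (D + K + 1) * Real.log 2 * D := by
          have : 0 ≤ (D + K + 1 : ℝ) * Real.log 2 := by positivity
          nlinarith
        nlinarith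
      have h2 := mul_le_mul_of_nonneg_left h1 (show (0 : ℝ) ≤ r - 1 by linarith)
      have h3 : (r - 1) / D * Real.log k = (r - 1) * (Real.log k / D) := by ring
      rw [h3]
      have h4 : 0 ≤ (D + K + 1 : ℝ) * Real.log 2 := by positivity
      nlinarith
    have e3 : (r - 1) * (t * Real.log 2) ≤ (r - 1) / D * Real.log k := by
      have h1 : t * Real.log 2 ≤ Real.log k / D := by
        rw [le_div_iff₀ (by linarith)]
        linarith
      have h2 := mul_le_mul_of_nonneg_left h1 (show (0 : ℝ) ≤ r - 1 by linarith)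
      refine h2.trans (le_of_eq ?_)
      ring
    refine ⟨?_, ?_, ?_⟩
    · rw [e1, hκe, hC]
      nlinarith
    · rw [e1, hκe]
      have : 0 ≤ (c + m : ℝ) * Real.log 2 := by positivity
      nlinarith
    · unfold qa qg
      push_cast
      positivity
  have hlow : Tendsto (fun n : ℕ => Real.log (qa D K c r m n) / Real.log n) atTop (𝓝 κ) := by
    refine tendsto_of_tendsto_of_tendsto_of_le_of_le' (tendsto_affine κ (-C)) (tendsto_affine κ 0) ?_ ?_
    · filter_upwards [ha, tendsto_log.eventually_gt_atTop 0] with k ⟨g1, g2, g3⟩ g4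
      exact div_le_div_of_nonneg_right (by linarith) g4.le
    · filter_upwards [ha, tendsto_log.eventually_gt_atTop 0] with k ⟨g1, g2, g3⟩ g4
      exact div_le_div_of_nonneg_right (by linarith) g4.le
  have hb : ∀ᶠ k : ℕ in atTop, (qb D K c r m k : ℝ) ≤ (1 + 2 ^ c) * qa D K c r m k := by
    filter_upwards [hF] with k ⟨g0, g1, g2, g3, g4, g5, g6, g7, g8⟩
    have h1 : max (qw D K c k) 1 ≤ 2 ^ c * qu D K c k := by
      have h2 : max (qw D K c k) 1 ≤ 2 ^ (qt D K k + c) := by
        apply max_le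
        · exact (Nat.mod_lt _ (by positivity)).le
        · exact Nat.one_le_two_pow
      refine h2.trans ?_
      rw [pow_add, mul_comm]
      exact Nat.mul_le_mul_left _ g6
    have h3 : qb D K c r m k ≤ (1 + 2 ^ c) * qa D K c r m k := by
      unfold qb
      have := Nat.mul_le_mul_right (qg D K r m k) h1
      unfold qa at *
      calc qu D K c k * qg D K r m k + max (qw D K c k) 1 * qg D K r m k ≤
          qu D K c k * qg D K r m k + 2 ^ c * qu D K c k * qg D K r m k := by omega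
        _ = _ := by ring
    exact_mod_cast h3
  refine ⟨hκ, Eventually.of_forall hab, hlow, ?_, ?_⟩
  · refine tendsto_of_tendsto_of_tendsto_of_le_of_le' hlow (tendsto_affine κ (Real.log (1 + 2 ^ c))) ?_ ?_
    · filter_upwards [ha, tendsto_log.eventually_gt_atTop 0] with k ⟨g1, g2, g3⟩ g4
      exact div_le_div_of_nonneg_right (Real.log_le_log g3 (by exact_mod_cast hab k)) g4.le
    · filter_upwards [ha, tendsto_log.eventually_gt_atTop 0, hb] with k ⟨g1, g2, g3⟩ g4 g5
      have h2 : (0 : ℝ) < qb D K c r m k := lt_of_lt_of_le g3 (by exact_mod_cast hab k)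
      have h3 := Real.log_le_log h2 g5
      rw [Real.log_mul (by positivity) g3.ne'] at h3
      exact div_le_div_of_nonneg_right (by linarith) g4.le
  · -- the length
    have hsm := (isLittleO_log_rpow_rpow_atTop 3 (show (0 : ℝ) < 1 / D by positivity)).bound (show (0 : ℝ) < 1 / (2 ^ (m + D + K + 2)) by positivity)
    refine tendsto_atTop_mono' _ ?_ tendsto_log
    filter_upwards [hF, tendsto_natCast_atTop_atTop.eventually hsm, tendsto_log.eventually_gt_atTop 0] with k ⟨g0, g1, g2, g3, g4, g5, g6, g7, g8⟩ g9 g10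
    set t := qt D K k with ht
    have hk0 : (0 : ℝ) < k := by exact_mod_cast g0
    rw [Real.norm_eq_abs, Real.norm_eq_abs, abs_of_nonneg (by positivity), abs_of_nonneg (by positivity)] at g9
    have e3 : Real.log (k : ℝ) ^ (3 : ℝ) = Real.log (k : ℝ) ^ 3 := by
      rw [← Real.rpow_natCast]
      norm_num
    rw [e3, one_div_mul_eq_div, le_div_iff₀ (by positivity)] at g9
    have h1 : (k : ℝ) ^ (1 / (D : ℝ)) ≤ 2 ^ (t + D + K + 2) := by
      have h2 : Real.log ((k : ℝ) ^ (1 / (D : ℝ))) ≤ Real.log (2 ^ (t + D + K + 2)) := by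
        rw [Real.log_rpow hk0, Real.log_pow, one_div_mul_eq_div, div_le_iff₀ (by linarith)]
        push_cast
        have hK0 : (0 : ℝ) ≤ K := Nat.cast_nonneg _
        have ht0 : (0 : ℝ) ≤ t := Nat.cast_nonneg _
        have : ((D * t : ℝ) + D + K + 1) ≤ (t + D + K + 2) * D := by nlinarith
        nlinarith
      exact (Real.log_le_log_iff (by positivity) (by positivity)).1 h2
    have h2 : Real.log (k : ℝ) ^ 3 * 2 ^ m ≤ 2 ^ t := by
      have h3 := g9.trans h1
      have e4 : (2 : ℝ) ^ (m + D + K + 2) = 2 ^ m * 2 ^ (D + K + 2) := by rw [← pow_add]; congr 1; omega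
      have e5 : (2 : ℝ) ^ (t + D + K + 2) = 2 ^ t * 2 ^ (D + K + 2) := by rw [← pow_add]; congr 1; omega
      rw [e4, e5, ← mul_assoc] at h3
      exact le_of_mul_le_mul_right h3 (by positivity)
    have h3 : Real.log (k : ℝ) ^ 3 ≤ qg D K r m k := by
      have h4 : 2 ^ t ≤ qg D K r m k * 2 ^ m := by
        unfold qg
        rw [← ht, ← pow_add]
        apply Nat.pow_le_pow_right (by norm_num)
        have : t ≤ r * t := Nat.le_mul_of_pos_left t hr
        omega
      have h5 : (2 : ℝ) ^ t ≤ (qg D K r m k : ℝ) * 2 ^ m := by exact_mod_cast h4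
      have h6 := h2.trans h5
      exact le_of_mul_le_mul_right h6 (by positivity)
    have h4 : (qg D K r m k : ℝ) ≤ (qb D K c r m k : ℝ) - qa D K c r m k := by
      unfold qb
      push_cast
      have h5 : (1 : ℝ) ≤ max (qw D K c k : ℝ) 1 := le_max_right _ _
      have h6 : (0 : ℝ) ≤ qg D K r m k := Nat.cast_nonneg _
      nlinarith
    rw [le_div_iff₀ (by positivity)]
    calc Real.log (k : ℝ) * Real.log (k : ℝ) ^ 2 = Real.log (k : ℝ) ^ 3 := by ring
      _ ≤ _ := h3.trans h4

lemma q_inv {D K c t u w : ℕ} (hD : 1 ≤ D) (hK : c ≤ K) (hu : Nat.log 2 u = (D - 1) * t + (K - c)) (hu0 : u ≠ 0)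
    (hw : w < 2 ^ (t + c)) :
    qt D K (u * 2 ^ (t + c) + w) = t ∧ qu D K c (u * 2 ^ (t + c) + w) = u ∧ qw D K c (u * 2 ^ (t + c) + w) = w ∧
      u ≤ u * 2 ^ (t + c) + w := by
  have h1 : 2 ^ Nat.log 2 u ≤ u := Nat.pow_log_le_self 2 hu0
  have h2 : u < 2 ^ (Nat.log 2 u + 1) := Nat.lt_pow_succ_log_self (by norm_num) u
  have hpos : 0 < 2 ^ (t + c) := by positivity
  have h3 : 2 ^ (Nat.log 2 u + (t + c)) ≤ u * 2 ^ (t + c) + w := by
    rw [pow_add]
    have := Nat.mul_le_mul_right (2 ^ (t + c)) h1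
    omega
  have h4 : u * 2 ^ (t + c) + w < 2 ^ (Nat.log 2 u + (t + c) + 1) := by
    have e : 2 ^ (Nat.log 2 u + (t + c) + 1) = 2 ^ (Nat.log 2 u + 1) * 2 ^ (t + c) := by ring
    have := Nat.mul_le_mul_right (2 ^ (t + c)) (show u + 1 ≤ 2 ^ (Nat.log 2 u + 1) from h2)
    rw [e]
    rw [Nat.add_mul, one_mul] at this
    omega
  have h5 : Nat.log 2 (u * 2 ^ (t + c) + w) = Nat.log 2 u + (t + c) := Nat.log_eq_of_pow_le_of_lt_pow h3 h4
  have h6 : Nat.log 2 u + (t + c) - K = D * t := by
    rw [hu]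
    obtain ⟨D', rfl⟩ : ∃ D', D = D' + 1 := ⟨D - 1, by omega⟩
    have : (D' + 1) * t = D' * t + t := by ring
    rw [this, Nat.add_sub_cancel]
    omega
  have h7 : qt D K (u * 2 ^ (t + c) + w) = t := by
    unfold qt
    rw [h5, h6, Nat.mul_div_cancel_left t (by omega)]
  refine ⟨h7, ?_, ?_, ?_⟩
  · unfold qu
    rw [h7, mul_comm u, Nat.mul_add_div hpos, Nat.div_eq_of_lt hw, add_zero]
  · unfold qw
    rw [h7, Nat.add_comm, Nat.add_mul_mod_self_right, Nat.mod_eq_of_lt hw]
  · nlinarith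

end Pool.Agent.R529.SM
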