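import Mathlib
import Pool.Agent.R529.SM.V5

set_option autoImplicit false
set_option linter.unusedSectionVars false
set_option linter.unusedVariables false

/-! # All windows at the scales between `x^(r/q)` and `x^((r+1)/q)` -/

open MeasureTheory Filter Set
open scoped ENNReal Topology

namespace Pool.Agent.R529.SM

open Pool.Agent.R528.RM Pool.Agent.R291.RMW

variable {Ω : Type} {m0 : MeasurableSpace Ω} {μ : Measure Ω} [IsProbabilityMeasure μ]
  {ℱ : Filtration ℕ m0} {A : ℕ → Set Ω}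

/-- a crude bound for all windows -/
theorem rem_bound (hA : ∀ n, MeasurableSet[ℱ n] (A n)) {W : ℕ} (hW : 0 < W)
    (hd : ∀ᵐ ω ∂μ, ∀ ε : ℝ, 0 < ε → ∀ᶠ n : ℕ in atTop, |dens μ ℱ A n ω - rhoW W (n + 1)| ≤ ε * rhoW W (n + 1)) :
    ∀ᵐ ω ∂μ, ∀ᶠ n : ℕ in atTop, ∀ j : ℕ, 2 * j ≤ n →
      |CS μ ℱ A (Finset.Ioc n (n + j)) ω| ≤ 3 * √(j : ℝ) + Real.log n ^ 3 := by
  have h01 : ∀ᵐ ω ∂μ, ∀ n, 0 ≤ dens μ ℱ A n ω ∧ dens μ ℱ A n ω ≤ 1 := ae_all_iff.2 fun n => dens01 hA n
  filter_upwards [wu_law (μ := μ) (ℱ := ℱ) hA hW hd (wu_enum (p := 1) le_rfl (show (2 : ℝ) < 5 / 2 by norm_num)), h01] with ω hω h01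
  obtain ⟨k₀, hk₀⟩ := eventually_atTop.1 (hω (1 / 2) (by norm_num))
  have hpow : Tendsto (fun n : ℕ => Real.log (n : ℝ) ^ (1 / 2 : ℝ)) atTop atTop :=
    (tendsto_rpow_atTop (by norm_num)).comp tendsto_log
  filter_upwards [eventually_ge_atTop k₀, eventually_ge_atTop 4, tendsto_log.eventually_ge_atTop 1,
    hpow.eventually_ge_atTop ((4 : ℝ) ^ (5 / 2 : ℝ))] with n g1 g2 g4 g5 j hj
  have hs : 0 ≤ √(j : ℝ) := Real.sqrt_nonneg _
  rcases lt_or_ge (j : ℝ) (Real.log n ^ 3) with hlt | hge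
  · refine (CS_short h01 (by omega)).trans ?_
    push_cast
    linarith
  · have hjlt : j < 2 ^ (Nat.log 2 n / 1) := by
      rw [Nat.div_one]
      have : n < 2 ^ (Nat.log 2 n + 1) := Nat.lt_pow_succ_log_self (by norm_num) n
      rw [pow_succ] at this
      omega
    obtain ⟨e1, e2, e3, e4⟩ := kk_spec (p := 1) (n := n) (j := j) le_rfl (by omega) hjlt
    have hn0 : (0 : ℝ) < n := by exact_mod_cast (by omega : 0 < n)
    have h1 := hk₀ (kk 1 n j) (by omega)
    have hlogk : Real.log (kk 1 n j) ≤ 4 * Real.log n := by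
      have hk0 : (0 : ℝ) < kk 1 n j := by exact_mod_cast (by omega : 0 < kk 1 n j)
      have h2 : (kk 1 n j : ℝ) ≤ 4 * (n : ℝ) ^ 2 := by exact_mod_cast e4.le
      have h3 := Real.log_le_log hk0 h2
      rw [Real.log_mul (by norm_num) (by positivity), Real.log_pow] at h3
      have h4 : Real.log 4 ≤ Real.log n := Real.log_le_log (by norm_num) (by exact_mod_cast g2)
      push_cast at h3
      linarith
    have hlogk0 : 0 ≤ Real.log (kk 1 n j) := Real.log_natCast_nonneg _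
    have hceil : ⌈Real.log (kk 1 n j) ^ (5 / 2 : ℝ)⌉₊ ≤ j := by
      rw [Nat.ceil_le]
      refine le_trans ?_ hge
      calc Real.log (kk 1 n j) ^ (5 / 2 : ℝ) ≤ (4 * Real.log n) ^ (5 / 2 : ℝ) := Real.rpow_le_rpow hlogk0 hlogk (by norm_num)
        _ = 4 ^ (5 / 2 : ℝ) * Real.log n ^ (5 / 2 : ℝ) := Real.mul_rpow (by norm_num) (by linarith)
        _ ≤ Real.log n ^ (1 / 2 : ℝ) * Real.log n ^ (5 / 2 : ℝ) := mul_le_mul_of_nonneg_right g5 (by positivity)
        _ = Real.log n ^ (3 : ℝ) := by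
          rw [← Real.rpow_add (by linarith)]
          norm_num
        _ = Real.log n ^ 3 := by
          rw [← Real.rpow_natCast]
          norm_num
    have hfb : fb 1 (5 / 2) (kk 1 n j) = n + j := by
      unfold fb
      rw [e1, e2, max_eq_left hceil]
    rw [e1, hfb] at h1
    refine h1.trans ?_
    have h5 : √(2 / (((1 : ℕ) : ℝ) / (((1 : ℕ) : ℝ) + 1)) * (((n + j : ℕ) : ℝ) - n)) = 2 * √(j : ℝ) := by
      have : 2 / (((1 : ℕ) : ℝ) / (((1 : ℕ) : ℝ) + 1)) * (((n + j : ℕ) : ℝ) - n) = 2 ^ 2 * (j : ℝ) := by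
        push_cast
        ring
      rw [this, Real.sqrt_mul (by norm_num), Real.sqrt_sq (by norm_num)]
    rw [h5]
    have : 0 ≤ Real.log (n : ℝ) ^ 3 := by positivity
    linarith

lemma log2_top : Tendsto (fun k => Nat.log 2 k) atTop atTop := by
  refine tendsto_atTop.2 fun b => ?_
  filter_upwards [eventually_ge_atTop (2 ^ b)] with k hk
  exact Nat.le_log_of_pow_le (by norm_num) hk

/-- the combinatorics of the covering -/
lemma cover {q r m n j : ℕ} (hr : 1 ≤ r) (hrq : r < q) (hm : 3 ≤ m) (hn : 8 ≤ n) (ht : m ≤ r * (Nat.log 2 n / q))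
    (h1 : 2 ^ (r * (Nat.log 2 n / q)) ≤ j + 1) (h2 : j ≤ 2 ^ ((r + 1) * (Nat.log 2 n / q + 1)) + 1) :
    ∃ k : ℕ, 2 ^ (Nat.log 2 n / q) ≤ k ∧
      qa (q - r + 1) (Nat.log 2 n % q + m + (r + m + 2)) (r + m + 2) r m k ≤ n ∧
      n < qa (q - r + 1) (Nat.log 2 n % q + m + (r + m + 2)) (r + m + 2) r m k + 2 ^ (r * (Nat.log 2 n / q) - m) ∧
      qb (q - r + 1) (Nat.log 2 n % q + m + (r + m + 2)) (r + m + 2) r m k ≤ n + j ∧
      n + j < qb (q - r + 1) (Nat.log 2 n % q + m + (r + m + 2)) (r + m + 2) r m k + 2 ^ (r * (Nat.log 2 n / q) - m) ∧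
      8 * 2 ^ (r * (Nat.log 2 n / q) - m) ≤ n ∧ 2 ^ m * 2 ^ (r * (Nat.log 2 n / q) - m) ≤ j + 1 := by
  obtain ⟨i, hi⟩ : ∃ i, Nat.log 2 n = i := ⟨_, rfl⟩
  obtain ⟨t, htd⟩ : ∃ t, Nat.log 2 n / q = t := ⟨_, rfl⟩
  obtain ⟨i0, hi0⟩ : ∃ i0, Nat.log 2 n % q = i0 := ⟨_, rfl⟩
  have hit : q * t + i0 = i := by
    have := Nat.div_add_mod (Nat.log 2 n) q
    rw [htd, hi0, hi] at this
    exact this
  simp only [htd, hi0] at ht h1 h2 ⊢
  obtain ⟨g, hg⟩ : ∃ g, g = 2 ^ (r * t - m) := ⟨_, rfl⟩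
  rw [← hg]
  have hgpos : 0 < g := by rw [hg]; positivity
  have hn2 : 2 ^ i ≤ n := by
    rw [← hi]
    exact Nat.pow_log_le_self 2 (by omega)
  obtain ⟨d, hd⟩ : ∃ d, q = r + d + 1 := ⟨q - r - 1, by omega⟩
  have hqt : q * t = r * t + d * t + t := by rw [hd]; ring
  have hrt : r * t ≤ i := by omega
  have hmg : 2 ^ m * g = 2 ^ (r * t) := by
    rw [hg, ← pow_add]
    congr 1
    omega
  have h8 : 8 * g ≤ 2 ^ m * g := Nat.mul_le_mul_right g (by
    calc 8 = 2 ^ 3 := by norm_num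
      _ ≤ 2 ^ m := Nat.pow_le_pow_right (by norm_num) hm)
  have h8n : 8 * g ≤ n := by
    refine h8.trans ?_
    rw [hmg]
    exact (Nat.pow_le_pow_right (by norm_num) hrt).trans hn2
  set u := n / g with hu
  set v := (n + j) / g with hv
  have hug : u * g ≤ n := Nat.div_mul_le_self _ _
  have hug2 : n < u * g + g := Nat.lt_div_mul_add hgpos
  have hvg : v * g ≤ n + j := Nat.div_mul_le_self _ _
  have hvg2 : n + j < v * g + g := Nat.lt_div_mul_add hgpos
  have hlogu : Nat.log 2 u = i - (r * t - m) := by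
    rw [hu, hg, Nat.log_div_base_pow, hi]
  have huv : u + 1 ≤ v := by
    by_contra hcon
    have : v ≤ u := by omega
    have := Nat.mul_le_mul_right g this
    omega
  have hu0 : u ≠ 0 := by
    intro h0
    rw [h0] at hug2
    omega
  set w := v - u with hw
  have hwg : w * g ≤ j + g := by
    have : v * g = u * g + w * g := by
      rw [← Nat.add_mul]
      congr 1
      omega
    omega
  have hc : 2 ^ (t + (r + m + 2)) * g = 4 * 2 ^ (r * t + t + r) := by
    have e : t + (r + m + 2) + (r * t - m) = r * t + t + r + 2 := by omega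
    rw [hg, ← pow_add, e, pow_add]
    ring
  have hpow : 2 ^ ((r + 1) * (t + 1)) = 2 * 2 ^ (r * t + t + r) := by
    have e : (r + 1) * (t + 1) = r * t + t + r + 1 := by ring
    rw [e, pow_succ]
    ring
  have hw2 : w < 2 ^ (t + (r + m + 2)) := by
    by_contra hcon
    push Not at hcon
    have h3 := Nat.mul_le_mul_right g hcon
    rw [hc] at h3
    rw [hpow] at h2
    have h4 : 8 * g ≤ 2 ^ (r * t + t + r) := by
      refine h8.trans ?_
      rw [hmg]
      exact Nat.pow_le_pow_right (by norm_num) (by omega)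
    omega
  have hlogu2 : Nat.log 2 u = (q - r + 1 - 1) * t + (i0 + m + (r + m + 2) - (r + m + 2)) := by
    rw [hlogu, Nat.add_sub_cancel, Nat.add_sub_cancel]
    have e : q - r = d + 1 := by omega
    rw [e]
    have : (d + 1) * t = d * t + t := by ring
    rw [this]
    omega
  obtain ⟨q1, q2, q3, q4⟩ := q_inv (D := q - r + 1) (K := i0 + m + (r + m + 2)) (c := r + m + 2) (t := t) (u := u) (w := w)
    (by omega) (by omega) hlogu2 hu0 hw2
  have hqa : qa (q - r + 1) (i0 + m + (r + m + 2)) (r + m + 2) r m (u * 2 ^ (t + (r + m + 2)) + w) = u * g := by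
    unfold qa qg
    rw [q1, q2, ← hg]
  have hqb : qb (q - r + 1) (i0 + m + (r + m + 2)) (r + m + 2) r m (u * 2 ^ (t + (r + m + 2)) + w) = v * g := by
    unfold qb
    rw [hqa, q3, max_eq_left (by omega)]
    unfold qg
    rw [q1, ← hg, ← Nat.add_mul]
    congr 1
    omega
  refine ⟨u * 2 ^ (t + (r + m + 2)) + w, ?_, ?_, ?_, ?_, ?_, h8n, ?_⟩
  · refine le_trans ?_ q4
    have h5 : 2 ^ Nat.log 2 u ≤ u := Nat.pow_log_le_self 2 hu0
    refine le_trans (Nat.pow_le_pow_right (by norm_num) ?_) h5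
    rw [hlogu]
    omega
  · rw [hqa]
    exact hug
  · rw [hqa]
    exact hug2
  · rw [hqb]
    exact hvg
  · rw [hqb]
    exact hvg2
  · rw [hmg]
    exact h1

end Pool.Agent.R529.SM
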