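import Mathlib
import Pool.Agent.R529.SM.V6

set_option autoImplicit false
set_option linter.unusedSectionVars false
set_option linter.unusedVariables false

/-! # The law for all the windows at the scales between `x^(r/q)` and `x^((r+1)/q)` -/

open MeasureTheory Filter Set
open scoped ENNReal Topology

namespace Pool.Agent.R529.SM

open Pool.Agent.R528.RM Pool.Agent.R291.RMW

variable {Ω : Type} {m0 : MeasurableSpace Ω} {μ : Measure Ω} [IsProbabilityMeasure μ]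
  {ℱ : Filtration ℕ m0} {A : ℕ → Set Ω}

lemma tdiv_top {q : ℕ} (hq : 0 < q) : Tendsto (fun n => Nat.log 2 n / q) atTop atTop := by
  refine tendsto_atTop.2 fun b => ?_
  filter_upwards [log2_top.eventually_ge_atTop (b * q)] with n hn
  rwa [Nat.le_div_iff_mul_le hq]

/-- a power of the logarithm is small -/
lemma log3_small {q : ℕ} (hq : 0 < q) {η : ℝ} (hη : 0 < η) : ∀ᶠ n : ℕ in atTop, ∀ j : ℕ, 2 ^ (Nat.log 2 n / q) ≤ j + 1 → j ≤ n →
    2 * Real.log ((2 * n : ℕ) : ℝ) ^ 3 ≤ η * √(j : ℝ) ∧ 1 ≤ j := by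
  have hq0 : (0 : ℝ) < q := by exact_mod_cast hq
  -- `n < 2^{q (t+1)}`, so `n^{1/q} ≤ 2 (j + 1) ≤ 4 j`
  have h2 : Tendsto (fun n : ℕ => 2 * n) atTop atTop := tendsto_id.const_mul_atTop' (by norm_num)
  have hsm := (isLittleO_log_rpow_rpow_atTop 3 (show (0 : ℝ) < 1 / (2 * q) by positivity)).bound (show (0 : ℝ) < η / 16 by positivity)
  filter_upwards [(tendsto_natCast_atTop_atTop.comp h2).eventually hsm, eventually_gt_atTop 1, (tdiv_top hq).eventually_ge_atTop 1] with n g1 g2 g3 j hj1 hj2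
  simp only [Function.comp] at g1
  set t := Nat.log 2 n / q with ht
  have hj0 : 1 ≤ j := by
    have : 2 ^ 1 ≤ 2 ^ t := Nat.pow_le_pow_right (by norm_num) g3
    omega
  refine ⟨?_, hj0⟩
  have hn0 : (0 : ℝ) < n := by exact_mod_cast (by omega : 0 < n)
  have hl0 : 0 ≤ Real.log ((2 * n : ℕ) : ℝ) := Real.log_natCast_nonneg _
  have h4 : n < (2 ^ (t + 1)) ^ q := by
    rw [← pow_mul]
    refine (Nat.lt_pow_succ_log_self (b := 2) (by norm_num) n).trans_le (Nat.pow_le_pow_right (by norm_num) ?_)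
    have := Nat.lt_div_mul_add (a := Nat.log 2 n) (b := q) hq
    rw [← ht] at this
    rw [Nat.add_mul, one_mul]
    omega
  have h5 : (n : ℝ) ≤ (4 * (j : ℝ)) ^ q := by
    have h6 : (2 : ℕ) ^ (t + 1) ≤ 4 * j := by
      rw [pow_succ]
      omega
    have h7 : n ≤ (4 * j) ^ q := h4.le.trans (Nat.pow_le_pow_left h6 q)
    exact_mod_cast h7
  have h8 : ((2 * n : ℕ) : ℝ) ≤ (8 * (j : ℝ)) ^ q := by
    have e : (8 * (j : ℝ)) ^ q = 2 ^ q * (4 * (j : ℝ)) ^ q := by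
      rw [← mul_pow]
      ring
    rw [e]
    push_cast
    have : (2 : ℝ) ^ 1 ≤ 2 ^ q := pow_le_pow_right₀ (by norm_num) hq
    have h9 : (0 : ℝ) ≤ (4 * (j : ℝ)) ^ q := by positivity
    nlinarith
  have h9 : ((2 * n : ℕ) : ℝ) ^ (1 / (2 * (q : ℝ))) ≤ √(8 * (j : ℝ)) := by
    have h10 := Real.rpow_le_rpow (by positivity) h8 (show 0 ≤ 1 / (2 * (q : ℝ)) by positivity)
    refine h10.trans (le_of_eq ?_)
    rw [← Real.rpow_natCast, ← Real.rpow_mul (by positivity), Real.sqrt_eq_rpow]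
    congr 1
    field_simp
  have h11 : √(8 * (j : ℝ)) ≤ 3 * √(j : ℝ) := by
    rw [Real.sqrt_le_left (by positivity), mul_pow, Real.sq_sqrt (by positivity)]
    have : (0 : ℝ) ≤ j := Nat.cast_nonneg _
    linarith
  rw [Real.norm_eq_abs, Real.norm_eq_abs, abs_of_nonneg (by positivity), abs_of_nonneg (by positivity)] at g1
  have e3 : Real.log ((2 * n : ℕ) : ℝ) ^ (3 : ℝ) = Real.log ((2 * n : ℕ) : ℝ) ^ 3 := by
    rw [← Real.rpow_natCast]
    norm_num
  rw [e3] at g1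
  have h12 := mul_le_mul_of_nonneg_left (h9.trans h11) (show 0 ≤ η / 16 by positivity)
  have h13 : 0 ≤ η * √(j : ℝ) := by positivity
  nlinarith

theorem piece (hA : ∀ n, MeasurableSet[ℱ n] (A n)) {W : ℕ} (hW : 0 < W)
    (hd : ∀ᵐ ω ∂μ, ∀ ε : ℝ, 0 < ε → ∀ᶠ n : ℕ in atTop, |dens μ ℱ A n ω - rhoW W (n + 1)| ≤ ε * rhoW W (n + 1)) :
    ∀ᵐ ω ∂μ, ∀ q r : ℕ, 1 ≤ r → r < q → ∀ η : ℝ, 0 < η → η ≤ 1 → ∀ᶠ n : ℕ in atTop, ∀ j : ℕ,
      2 ^ (r * (Nat.log 2 n / q)) ≤ j + 1 → j ≤ 2 ^ ((r + 1) * (Nat.log 2 n / q + 1)) + 1 → j ≤ n + n →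
      |CS μ ℱ A (Finset.Ioc n (n + j)) ω| ≤ √(j : ℝ) * (√(2 * (1 - r / q + 1 / q)) + 20 * η) := by
  have hall : ∀ᵐ ω ∂μ, ∀ D K c r m : ℕ, 2 ≤ D → 1 ≤ r → c ≤ K → ∀ ε : ℝ, 0 < ε → ∀ᶠ k : ℕ in atTop,
      |CS μ ℱ A (Finset.Ioc (qa D K c r m k) (qb D K c r m k)) ω| ≤
        (1 + ε) * √(2 / (((D : ℝ) + r - 1) / D) * ((qb D K c r m k : ℝ) - qa D K c r m k)) := by
    rw [ae_all_iff]
    intro D
    rw [ae_all_iff]
    intro K
    rw [ae_all_iff]
    intro c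
    rw [ae_all_iff]
    intro r
    rw [ae_all_iff]
    intro m
    by_cases h : 2 ≤ D ∧ 1 ≤ r ∧ c ≤ K
    · filter_upwards [wu_law (μ := μ) (ℱ := ℱ) hA hW hd (wu_scale (m := m) h.1 h.2.1 h.2.2)] with ω hω _ _ _
      exact hω
    · exact Eventually.of_forall fun ω h1 h2 h3 => absurd ⟨h1, h2, h3⟩ h
  filter_upwards [hall, rem_bound (μ := μ) (ℱ := ℱ) hA hW hd] with ω hω hrem q r hr hrq η hη0 hη1
  -- the grid parameter
  obtain ⟨m', hm'⟩ := exists_pow_lt_of_lt_one (show (0 : ℝ) < η ^ 2 / 4 by positivity) (show (1 / 2 : ℝ) < 1 by norm_num)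
  set m := max m' 3 with hm
  have hm3 : 3 ≤ m := le_max_right _ _
  have hmη : (1 / 2 : ℝ) ^ m ≤ η ^ 2 / 4 :=
    (pow_le_pow_of_le_one (by norm_num) (by norm_num) (le_max_left _ _)).trans hm'.le
  set c := r + m + 2 with hc
  have hq0 : 0 < q := by omega
  have hqr : (0 : ℝ) < q := by exact_mod_cast hq0
  have hrr : (1 : ℝ) ≤ r := by exact_mod_cast hr
  have hrq' : (r : ℝ) + 1 ≤ q := by exact_mod_cast hrq
  -- finitely many families
  have hfam : ∀ᶠ k : ℕ in atTop, ∀ i0 ∈ Finset.range q,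
      |CS μ ℱ A (Finset.Ioc (qa (q - r + 1) (i0 + m + c) c r m k) (qb (q - r + 1) (i0 + m + c) c r m k)) ω| ≤
        (1 + η) * √(2 / ((((q - r + 1 : ℕ) : ℝ) + r - 1) / ((q - r + 1 : ℕ) : ℝ)) *
          ((qb (q - r + 1) (i0 + m + c) c r m k : ℝ) - qa (q - r + 1) (i0 + m + c) c r m k)) := by
    rw [eventually_all_finset]
    intro i0 _
    exact hω (q - r + 1) (i0 + m + c) c r m (by omega) hr (by omega) η hη0
  obtain ⟨k₀, hk₀⟩ := eventually_atTop.1 hfam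
  obtain ⟨n₀, hn₀⟩ := eventually_atTop.1 hrem
  filter_upwards [eventually_ge_atTop 8, eventually_ge_atTop (2 * n₀), (tdiv_top hq0).eventually_ge_atTop (max m k₀),
    log3_small hq0 (show 0 < η / 8 by positivity)] with n g1 g2 g3 g4 j hj1 hj2 hj3
  set t := Nat.log 2 n / q with ht
  have hmt : m ≤ r * t := ((le_max_left _ _).trans g3).trans (Nat.le_mul_of_pos_left t hr)
  obtain ⟨k, c1, c2, c3, c4, c5, c6, c7⟩ := cover hr hrq hm3 g1 hmt hj1 hj2
  have hkk : k₀ ≤ k := by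
    have h1 : t < 2 ^ t := Nat.lt_two_pow_self
    exact ((le_max_right _ _).trans g3).trans (h1.le.trans c1)
  have key := hk₀ k hkk (Nat.log 2 n % q) (Finset.mem_range.2 (Nat.mod_lt _ hq0))
  set a := qa (q - r + 1) (Nat.log 2 n % q + m + c) c r m k with ha
  set b := qb (q - r + 1) (Nat.log 2 n % q + m + c) c r m k with hb
  set g := 2 ^ (r * t - m) with hg
  have hg0 : (0 : ℝ) ≤ g := Nat.cast_nonneg _
  -- size of `j`
  have hj0 : 2 ^ t ≤ j + 1 := (Nat.pow_le_pow_right (by norm_num) (Nat.le_mul_of_pos_left t hr)).trans hj1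
  have hmin := g4 (min j n) (by
    rcases le_total j n with h | h
    · rw [min_eq_left h]
      exact hj0
    · rw [min_eq_right h]
      have h1 : 2 ^ t ≤ 2 ^ Nat.log 2 n := Nat.pow_le_pow_right (by norm_num) (Nat.div_le_self _ _)
      have h2 : 2 ^ Nat.log 2 n ≤ n := Nat.pow_log_le_self 2 (by omega)
      omega) (min_le_right _ _)
  have hj1' : 1 ≤ j := hmin.2.trans (min_le_left _ _)
  have hsmin : √((min j n : ℕ) : ℝ) ≤ √(j : ℝ) := Real.sqrt_le_sqrt (by exact_mod_cast min_le_left _ _)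
  have hjr : (1 : ℝ) ≤ j := by exact_mod_cast hj1'
  have hgj : (g : ℝ) ≤ η ^ 2 / 2 * j := by
    have h1 : (2 : ℝ) ^ m * g ≤ j + 1 := by exact_mod_cast c7
    have h2 : (1 / 2 : ℝ) ^ m * (2 ^ m * g) = g := by
      rw [← mul_assoc, ← mul_pow]
      norm_num
    have h3 := mul_le_mul hmη h1 (by positivity) (by positivity)
    rw [h2] at h3
    nlinarith [sq_nonneg η]
  have hsg : √(g : ℝ) ≤ η * √(j : ℝ) := by
    rw [Real.sqrt_le_left (by positivity), mul_pow, Real.sq_sqrt (by positivity)]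
    nlinarith [sq_nonneg η]
  -- the three parts
  have hab : a ≤ b := by
    have : a + g ≤ n + g := by omega
    have h8 : 8 * g ≤ 2 ^ m * g := Nat.mul_le_mul_right g (by
      calc 8 = 2 ^ 3 := by norm_num
        _ ≤ 2 ^ m := Nat.pow_le_pow_right (by norm_num) hm3)
    omega
  have hnb : n ≤ b := by
    have h8 : 8 * g ≤ 2 ^ m * g := Nat.mul_le_mul_right g (by
      calc 8 = 2 ^ 3 := by norm_num
        _ ≤ 2 ^ m := Nat.pow_le_pow_right (by norm_num) hm3)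
    have : 0 < g := by positivity
    omega
  have s1 := CS_add (μ := μ) (ℱ := ℱ) A ω c2 (show n ≤ n + j by omega)
  have s2 := CS_add (μ := μ) (ℱ := ℱ) A ω hab c4
  have hlogn : ∀ N0 : ℕ, N0 ≤ 4 * n → 1 ≤ N0 → Real.log (N0 : ℝ) ^ 3 ≤ (2 * Real.log ((2 * n : ℕ) : ℝ)) ^ 3 := by
    intro N0 h1 h2
    have h3 : (0 : ℝ) < N0 := by exact_mod_cast h2
    have h4 : Real.log (N0 : ℝ) ≤ 2 * Real.log ((2 * n : ℕ) : ℝ) := by
      have h5 : (N0 : ℝ) ≤ (((2 * n : ℕ) : ℝ)) ^ 2 := by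
        have : N0 ≤ (2 * n) ^ 2 := by nlinarith
        exact_mod_cast this
      have := Real.log_le_log h3 h5
      rw [Real.log_pow] at this
      exact_mod_cast this
    exact pow_le_pow_left₀ (Real.log_natCast_nonneg _) h4 3
  have r1 := hn₀ a (by omega) (n - a) (by omega)
  rw [show a + (n - a) = n by omega] at r1
  have r2 := hn₀ b (by omega) (n + j - b) (by omega)
  rw [show b + (n + j - b) = n + j by omega] at r2
  have q1 := hlogn a (by omega) (by omega)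
  have q2 := hlogn b (by omega) (by omega)
  have e8 : (2 * Real.log ((2 * n : ℕ) : ℝ)) ^ 3 = 8 * Real.log ((2 * n : ℕ) : ℝ) ^ 3 := by ring
  rw [e8] at q1 q2
  have p1 : √((n - a : ℕ) : ℝ) ≤ η * √(j : ℝ) := (Real.sqrt_le_sqrt (by exact_mod_cast (by omega : n - a ≤ g))).trans hsg
  have p2 : √((n + j - b : ℕ) : ℝ) ≤ η * √(j : ℝ) := (Real.sqrt_le_sqrt (by exact_mod_cast (by omega : n + j - b ≤ g))).trans hsg
  -- the main part
  set X := √(2 * (1 - (r : ℝ) / q + 1 / q)) with hX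
  have hX0 : 0 ≤ X := Real.sqrt_nonneg _
  have hX2 : X ≤ 2 := by
    rw [hX, Real.sqrt_le_left (by norm_num)]
    have : (1 : ℝ) / q ≤ r / q := div_le_div_of_nonneg_right hrr hqr.le
    linarith
  have hmain : √(2 / ((((q - r + 1 : ℕ) : ℝ) + r - 1) / ((q - r + 1 : ℕ) : ℝ)) * ((b : ℝ) - a)) ≤ (1 + η) * (X * √(j : ℝ)) := by
    rw [Real.sqrt_le_left (by positivity), mul_pow, mul_pow, hX, Real.sq_sqrt (by
      have : (r : ℝ) / q ≤ 1 := by
        rw [div_le_one hqr]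
        linarith
      have : 0 ≤ 1 / (q : ℝ) := by positivity
      linarith), Real.sq_sqrt (by positivity)]
    have e1 : ((q - r + 1 : ℕ) : ℝ) = q - r + 1 := by
      rw [Nat.cast_add, Nat.cast_sub hrq.le, Nat.cast_one]
    rw [e1]
    have e2 : 2 / (((q : ℝ) - r + 1 + r - 1) / (q - r + 1)) = 2 * (1 - (r : ℝ) / q + 1 / q) := by
      have h1 : (q : ℝ) - r + 1 ≠ 0 := by linarith
      have h2 : (q : ℝ) - r + 1 + r - 1 = q := by ring
      rw [h2]
      field_simp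
    rw [e2]
    have h1 : (b : ℝ) - a ≤ j + g := by
      have : b ≤ a + (j + g) := by omega
      have : (b : ℝ) ≤ a + (j + g) := by exact_mod_cast this
      linarith
    have h2 : (b : ℝ) - a ≤ (1 + η) ^ 2 * j := by nlinarith [sq_nonneg η]
    have h3 : 0 ≤ 2 * (1 - (r : ℝ) / q + 1 / q) := by
      have : (r : ℝ) / q ≤ 1 := by
        rw [div_le_one hqr]
        linarith
      have : 0 ≤ 1 / (q : ℝ) := by positivity
      linarith
    calc 2 * (1 - (r : ℝ) / q + 1 / q) * ((b : ℝ) - a) ≤ 2 * (1 - (r : ℝ) / q + 1 / q) * ((1 + η) ^ 2 * j) :=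
          mul_le_mul_of_nonneg_left h2 h3
      _ = _ := by ring
  have hmain2 := mul_le_mul_of_nonneg_left hmain (show 0 ≤ 1 + η by linarith)
  have key2 := key.trans hmain2
  have hsj : 0 ≤ √(j : ℝ) := Real.sqrt_nonneg _
  have hfin : (1 + η) * ((1 + η) * (X * √(j : ℝ))) ≤ (X + 6 * η) * √(j : ℝ) := by
    rw [← mul_assoc, ← mul_assoc]
    apply mul_le_mul_of_nonneg_right _ hsj
    have : (1 + η) * (1 + η) ≤ 1 + 3 * η := by nlinarith
    nlinarith
  have h16 : 16 * Real.log ((2 * n : ℕ) : ℝ) ^ 3 ≤ η * √(j : ℝ) := by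
    have h1 := hmin.1
    have h2 := mul_le_mul_of_nonneg_left hsmin (show 0 ≤ η / 8 by positivity)
    linarith
  have a1 := abs_le.1 key2
  have a2 := abs_le.1 r1
  have a3 := abs_le.1 r2
  rw [abs_le]
  constructor
  · nlinarith [a1.1, a1.2, a2.1, a2.2, a3.1, a3.2]
  · nlinarith [a1.1, a1.2, a2.1, a2.2, a3.1, a3.2]

end Pool.Agent.R529.SM
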