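import Mathlib
import Pool.Agent.R529.SM.V7

set_option autoImplicit false
set_option linter.unusedSectionVars false
set_option linter.unusedVariables false

/-! # The exact law, uniformly for `(log x)^s ≤ h ≤ x`; sharpness at every scale -/

open MeasureTheory Filter Set
open scoped ENNReal Topology

namespace Pool.Agent.R529.SM

open Pool.Agent.R528.RM Pool.Agent.R291.RMW

variable {Ω : Type} {m0 : MeasurableSpace Ω} {μ : Measure Ω} [IsProbabilityMeasure μ]
  {ℱ : Filtration ℕ m0} {A : ℕ → Set Ω}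

lemma sqrt_add_le' {a b : ℝ} (ha : 0 ≤ a) (hb : 0 ≤ b) : √(a + b) ≤ √a + √b := by
  rw [Real.sqrt_le_left (by positivity)]
  nlinarith [Real.sq_sqrt ha, Real.sq_sqrt hb, Real.sqrt_nonneg a, Real.sqrt_nonneg b, mul_nonneg (Real.sqrt_nonneg a) (Real.sqrt_nonneg b)]

/-- the law uniformly in all scales -/
theorem all_scales (hA : ∀ n, MeasurableSet[ℱ n] (A n)) {W : ℕ} (hW : 0 < W)
    (hd : ∀ᵐ ω ∂μ, ∀ ε : ℝ, 0 < ε → ∀ᶠ n : ℕ in atTop, |dens μ ℱ A n ω - rhoW W (n + 1)| ≤ ε * rhoW W (n + 1)) :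
    ∀ᵐ ω ∂μ, ∀ s : ℝ, 2 < s → ∀ ε : ℝ, 0 < ε → ∀ᶠ x : ℝ in atTop, ∀ h : ℝ,
      Real.log x ^ s ≤ h → h ≤ x →
      |CS μ ℱ A (Finset.Ioc ⌊x⌋₊ ⌊x + h⌋₊) ω| ≤ √h * (√(2 * (1 - Real.log h / Real.log x)) + ε) := by
  filter_upwards [unif_real (μ := μ) (ℱ := ℱ) hA hW hd, piece (μ := μ) (ℱ := ℱ) hA hW hd] with ω hU hP s hs ε hε
  set η : ℝ := min (ε / 100) 1 with hη
  have hη0 : 0 < η := lt_min (by positivity) one_pos
  have hη1 : η ≤ 1 := min_le_right _ _
  have hηε : η ≤ ε / 100 := min_le_left _ _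
  obtain ⟨δ, hδ, hev⟩ := hU s hs η hη0
  -- the number of scales
  obtain ⟨q', hq'⟩ := exists_nat_gt (max (1 / δ) (16 / η ^ 2))
  set q := q' + 2 with hq
  have hqr : (q : ℝ) = q' + 2 := by rw [hq]; push_cast; ring
  have hqδ : 1 / (q : ℝ) ≤ δ := by
    have h1 : 1 / δ < q' := lt_of_le_of_lt (le_max_left _ _) hq'
    rw [div_lt_iff₀ hδ] at h1
    rw [div_le_iff₀ (by rw [hqr]; positivity), hqr]
    nlinarith
  have hqη : 4 / (q : ℝ) ≤ η ^ 2 := by
    have h1 : 16 / η ^ 2 < q' := lt_of_le_of_lt (le_max_right _ _) hq'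
    rw [div_lt_iff₀ (by positivity)] at h1
    rw [div_le_iff₀ (by rw [hqr]; positivity), hqr]
    nlinarith [sq_nonneg η]
  have hq0 : (0 : ℝ) < q := by rw [hqr]; positivity
  have hs4 : √(4 / (q : ℝ)) ≤ η := by
    rw [Real.sqrt_le_left hη0.le]
    exact hqη
  have hfam : ∀ᶠ n : ℕ in atTop, ∀ r ∈ Finset.range q, 1 ≤ r → ∀ j : ℕ,
      2 ^ (r * (Nat.log 2 n / q)) ≤ j + 1 → j ≤ 2 ^ ((r + 1) * (Nat.log 2 n / q + 1)) + 1 → j ≤ n + n →
      |CS μ ℱ A (Finset.Ioc n (n + j)) ω| ≤ √(j : ℝ) * (√(2 * (1 - r / q + 1 / q)) + 20 * η) := by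
    rw [eventually_all_finset]
    intro r hr
    by_cases h1 : 1 ≤ r
    · filter_upwards [hP q r h1 (Finset.mem_range.1 hr) η hη0 hη1] with n hn _
      exact hn
    · exact Eventually.of_forall fun n h2 => absurd h2 h1
  have hxq : Tendsto (fun x : ℝ => x ^ (1 / (q : ℝ))) atTop atTop := tendsto_rpow_atTop (by positivity)
  filter_upwards [hev, (tendsto_nat_floor_atTop (α := ℝ)).eventually hfam, eventually_ge_atTop (8 : ℝ),
    Real.tendsto_log_atTop.eventually_ge_atTop 1, hxq.eventually_ge_atTop (1 / η + 1)] with x g1 g2 g3 g4 g5 h hh1 hh2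
  have hx0 : (0 : ℝ) < x := by linarith
  have hL0 : 0 < Real.log x := by linarith
  have hh0 : 1 ≤ h := le_trans (Real.one_le_rpow g4 (by linarith)) hh1
  have hlh : Real.log h ≤ Real.log x := Real.log_le_log (by linarith) hh2
  have hlh0 : 0 ≤ Real.log h := Real.log_nonneg hh0
  set lam := Real.log h / Real.log x with hlam
  have hlam1 : lam ≤ 1 := by
    rw [hlam, div_le_one hL0]
    exact hlh
  have hlam0 : 0 ≤ lam := div_nonneg hlh0 hL0.le
  have hsh : 0 ≤ √h := Real.sqrt_nonneg _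
  set Y := √(2 * (1 - lam)) with hY
  have hY0 : 0 ≤ Y := Real.sqrt_nonneg _
  have hY2 : Y ≤ 2 := by
    rw [hY, Real.sqrt_le_left (by norm_num)]
    linarith
  have hhx : h = x ^ lam := by
    rw [Real.rpow_def_of_pos hx0, hlam, mul_div_cancel₀ _ hL0.ne', Real.exp_log (by linarith)]
  rcases le_or_gt h (x ^ (1 / (q : ℝ))) with hcase | hcase
  · -- short windows
    have hlamq : lam ≤ 1 / q := by
      rw [hhx] at hcase
      exact (Real.rpow_le_rpow_left_iff (by linarith)).1 hcase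
    have h1 := g1 h hh1 (hcase.trans (Real.rpow_le_rpow_of_exponent_le (by linarith) hqδ))
    refine h1.trans ?_
    have h2 : √2 ≤ Y + η := by
      have h3 : (2 : ℝ) ≤ 2 * (1 - lam) + 4 / q := by
        have : 2 * lam ≤ 4 / q := by
          have : (2 : ℝ) * (1 / q) ≤ 4 / q := by
            rw [mul_one_div]
            exact div_le_div_of_nonneg_right (by norm_num) hq0.le
          linarith
        linarith
      calc √2 ≤ √(2 * (1 - lam) + 4 / q) := Real.sqrt_le_sqrt h3
        _ ≤ √(2 * (1 - lam)) + √(4 / q) := sqrt_add_le' (by linarith) (by positivity)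
        _ ≤ Y + η := by linarith
    rw [Real.sqrt_mul (by norm_num)]
    have h3 : (1 + η) * √2 ≤ Y + ε := by
      have : (1 + η) * √2 ≤ (1 + η) * (Y + η) := mul_le_mul_of_nonneg_left h2 (by linarith)
      nlinarith
    have h4 := mul_le_mul_of_nonneg_left h3 hsh
    linarith
  · -- the scale
    have hlamq : 1 / (q : ℝ) < lam := by
      rw [hhx] at hcase
      exact (Real.rpow_lt_rpow_left_iff (by linarith)).1 hcase
    set r := min ⌊q * lam⌋₊ (q - 1) with hr
    have hqlam : 1 ≤ q * lam := by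
      rw [div_lt_iff₀ hq0] at hlamq
      linarith
    have hr1 : 1 ≤ r := le_min (Nat.le_floor (by push_cast; exact hqlam)) (by omega)
    have hrq : r < q := lt_of_le_of_lt (min_le_right _ _) (by omega)
    have hrl : (r : ℝ) ≤ q * lam := by
      have h1 : (r : ℝ) ≤ (⌊q * lam⌋₊ : ℝ) := by exact_mod_cast min_le_left _ _
      exact h1.trans (Nat.floor_le (by positivity))
    have hrl2 : q * lam ≤ r + 1 := by
      rcases le_total ⌊q * lam⌋₊ (q - 1) with h1 | h1
      · rw [hr, min_eq_left h1]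
        exact (Nat.lt_floor_add_one _).le
      · rw [hr, min_eq_right h1, Nat.cast_sub (by omega)]
        push_cast
        nlinarith
    obtain ⟨e1, e2, e3⟩ := jj_spec hx0.le (show 0 ≤ h by linarith)
    set n := ⌊x⌋₊ with hn
    set j := jj x h with hj
    have hf1 : (n : ℝ) ≤ x := Nat.floor_le hx0.le
    have hf2 : x < n + 1 := Nat.lt_floor_add_one x
    have hn8 : 8 ≤ n := Nat.le_floor (by push_cast; exact g3)
    set i := Nat.log 2 n with hi
    set t := i / q with ht
    have hti : q * t ≤ i := Nat.mul_div_le i q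
    have hti2 : i + 1 ≤ q * (t + 1) := by
      have := Nat.lt_div_mul_add (a := i) (b := q) (by omega)
      rw [← ht] at this
      have e : q * (t + 1) = t * q + q := by ring
      omega
    -- lower bound for `j`
    have k1 : 2 ^ (r * t) ≤ j + 1 := by
      have h1 : (2 : ℝ) ^ (r * t) ≤ h := by
        have h2 : ((2 : ℝ) ^ (q * t)) ≤ x := by
          have : 2 ^ (q * t) ≤ n := (Nat.pow_le_pow_right (by norm_num) hti).trans (Nat.pow_log_le_self 2 (by omega))
          have : (2 : ℝ) ^ (q * t) ≤ n := by exact_mod_cast this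
          linarith
        have h3 : (2 : ℝ) ^ (r * t) = ((2 : ℝ) ^ (q * t)) ^ ((r : ℝ) / q) := by
          rw [← Real.rpow_natCast, ← Real.rpow_natCast, ← Real.rpow_mul (by norm_num)]
          congr 1
          push_cast
          field_simp
        rw [h3, hhx]
        calc ((2 : ℝ) ^ (q * t)) ^ ((r : ℝ) / q) ≤ x ^ ((r : ℝ) / q) := Real.rpow_le_rpow (by positivity) h2 (by positivity)
          _ ≤ x ^ lam := Real.rpow_le_rpow_of_exponent_le (by linarith) (by
            rw [div_le_iff₀ hq0]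
            linarith)
      have h2 : (2 : ℝ) ^ (r * t) ≤ j + 1 := by linarith
      exact_mod_cast h2
    have k2 : j ≤ 2 ^ ((r + 1) * (t + 1)) + 1 := by
      have h1 : h ≤ (2 : ℝ) ^ ((r + 1) * (t + 1)) := by
        have h2 : x ≤ (2 : ℝ) ^ (q * (t + 1)) := by
          have h5 : n + 1 ≤ 2 ^ (i + 1) := Nat.lt_pow_succ_log_self (by norm_num) n
          have : n + 1 ≤ 2 ^ (q * (t + 1)) := h5.trans (Nat.pow_le_pow_right (by norm_num) hti2)
          have : (n : ℝ) + 1 ≤ (2 : ℝ) ^ (q * (t + 1)) := by exact_mod_cast this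
          linarith
        have h3 : (2 : ℝ) ^ ((r + 1) * (t + 1)) = ((2 : ℝ) ^ (q * (t + 1))) ^ (((r : ℝ) + 1) / q) := by
          rw [← Real.rpow_natCast, ← Real.rpow_natCast, ← Real.rpow_mul (by norm_num)]
          congr 1
          push_cast
          field_simp
        rw [h3, hhx]
        calc x ^ lam ≤ x ^ (((r : ℝ) + 1) / q) := Real.rpow_le_rpow_of_exponent_le (by linarith) (by
              rw [le_div_iff₀ hq0]
              linarith)
          _ ≤ _ := Real.rpow_le_rpow hx0.le h2 (by positivity)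
      have h2 : (j : ℝ) ≤ (2 : ℝ) ^ ((r + 1) * (t + 1)) + 1 := by linarith
      exact_mod_cast h2
    have k3 : j ≤ n + n := by
      have : (j : ℝ) ≤ n + n := by
        have : (8 : ℝ) ≤ n := by exact_mod_cast hn8
        linarith
      exact_mod_cast this
    have h1 := g2 r (Finset.mem_range.2 hrq) hr1 j k1 k2 k3
    rw [e1] at h1
    refine h1.trans ?_
    have h2 : √(2 * (1 - (r : ℝ) / q + 1 / q)) ≤ Y + η := by
      have h3 : 2 * (1 - (r : ℝ) / q + 1 / q) ≤ 2 * (1 - lam) + 4 / q := by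
        have h4 : lam ≤ ((r : ℝ) + 1) / q := by
          rw [le_div_iff₀ hq0]
          linarith
        have h5 : ((r : ℝ) + 1) / q = r / q + 1 / q := add_div _ _ _
        have h6 : 4 / (q : ℝ) = 4 * (1 / q) := by ring
        rw [h6]
        linarith
      calc √(2 * (1 - (r : ℝ) / q + 1 / q)) ≤ √(2 * (1 - lam) + 4 / q) := Real.sqrt_le_sqrt h3
        _ ≤ √(2 * (1 - lam)) + √(4 / q) := sqrt_add_le' (by linarith) (by positivity)
        _ ≤ Y + η := by linarith
    have h3 : √(j : ℝ) ≤ (1 + η) * √h := by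
      rw [Real.sqrt_le_left (by positivity), mul_pow, Real.sq_sqrt (by linarith)]
      have h4 : 1 / η ≤ h := by linarith
      rw [div_le_iff₀ hη0] at h4
      nlinarith
    have h4 : 0 ≤ √(2 * (1 - (r : ℝ) / q + 1 / q)) + 20 * η := by positivity
    calc √(j : ℝ) * (√(2 * (1 - (r : ℝ) / q + 1 / q)) + 20 * η) ≤ (1 + η) * √h * (Y + η + 20 * η) :=
          mul_le_mul h3 (by linarith) h4 (by positivity)
      _ = √h * ((1 + η) * (Y + 21 * η)) := by ring
      _ ≤ √h * (Y + ε) := by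
        apply mul_le_mul_of_nonneg_left _ hsh
        nlinarith

end Pool.Agent.R529.SM
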