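import Mathlib
import Pool.Agent.R529.SM.V3

set_option autoImplicit false
set_option linter.unusedSectionVars false
set_option linter.unusedVariables false

/-! # Disjoint windows of length `x^θ`; the uniform law of large numbers -/

open MeasureTheory Filter Set
open scoped ENNReal Topology

namespace Pool.Agent.R529.SM

open Pool.Agent.R528.RM Pool.Agent.R291.RMW

variable {Ω : Type} {m0 : MeasurableSpace Ω} {μ : Measure Ω} [IsProbabilityMeasure μ]
  {ℱ : Filtration ℕ m0} {A : ℕ → Set Ω}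

/-- starting points -/
noncomputable def ap (κ : ℝ) (n : ℕ) : ℕ := ⌈(2 * (n : ℝ)) ^ κ⌉₊

/-- end points -/
noncomputable def bp (θ κ : ℝ) (n : ℕ) : ℕ := ⌊(ap κ n : ℝ) + (ap κ n : ℝ) ^ θ⌋₊

theorem wd_pow {θ : ℝ} (h0 : 0 < θ) (h1 : θ < 1) : Wd (ap (1 / (1 - θ))) (bp θ (1 / (1 - θ))) (1 / (1 - θ)) := by
  set κ := 1 / (1 - θ) with hκd
  have hκ1 : 1 < κ := by
    rw [hκd, lt_div_iff₀ (by linarith)]
    linarith
  have hκ0 : 0 < κ := by linarith
  have hκθ : κ * θ = κ - 1 := by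
    rw [hκd]
    have : 1 - θ ≠ 0 := by linarith
    field_simp
    ring
  have hpow : Tendsto (fun n : ℕ => (2 * (n : ℝ)) ^ (κ - 1)) atTop atTop :=
    (tendsto_rpow_atTop (by linarith)).comp (tendsto_natCast_atTop_atTop.const_mul_atTop (by norm_num))
  have hF : ∀ᶠ n : ℕ in atTop, 0 < n ∧ (2 * (n : ℝ)) ^ κ ≤ ap κ n ∧ (ap κ n : ℝ) ≤ (2 * (n : ℝ)) ^ κ + 1 ∧
      1 ≤ (2 * (n : ℝ)) ^ κ ∧ 3 ≤ (2 * (n : ℝ)) ^ (κ - 1) ∧ 1 ≤ (ap κ n : ℝ) ∧ (ap κ n : ℝ) ≤ bp θ κ n ∧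
      (bp θ κ n : ℝ) ≤ ap κ n + (ap κ n : ℝ) ^ θ ∧ (ap κ n : ℝ) + (ap κ n : ℝ) ^ θ - 1 ≤ bp θ κ n ∧
      (2 * (n : ℝ)) ^ (κ - 1) ≤ (ap κ n : ℝ) ^ θ ∧ (ap κ n : ℝ) ^ θ ≤ (2 * (n : ℝ)) ^ (κ - 1) + 1 := by
    filter_upwards [eventually_gt_atTop 0, hpow.eventually_ge_atTop 3] with n g1 g2
    have hn1 : (1 : ℝ) ≤ n := by exact_mod_cast g1
    have h2n : (1 : ℝ) ≤ 2 * n := by linarith
    have k1 : 1 ≤ (2 * (n : ℝ)) ^ κ := Real.one_le_rpow h2n hκ0.le
    have k2 : (2 * (n : ℝ)) ^ κ ≤ ap κ n := Nat.le_ceil _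
    have k3 : (ap κ n : ℝ) ≤ (2 * (n : ℝ)) ^ κ + 1 := (Nat.ceil_lt_add_one (by positivity)).le
    have k4 : 1 ≤ (ap κ n : ℝ) := k1.trans k2
    have k5 : 1 ≤ (ap κ n : ℝ) ^ θ := Real.one_le_rpow k4 h0.le
    have e : ((2 * (n : ℝ)) ^ κ) ^ θ = (2 * (n : ℝ)) ^ (κ - 1) := by
      rw [← Real.rpow_mul (by positivity), hκθ]
    refine ⟨g1, k2, k3, k1, g2, k4, ?_, ?_, ?_, ?_, ?_⟩
    · have : ap κ n ≤ bp θ κ n := Nat.le_floor (by linarith)
      exact_mod_cast this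
    · exact Nat.floor_le (by positivity)
    · have := Nat.lt_floor_add_one ((ap κ n : ℝ) + (ap κ n : ℝ) ^ θ)
      unfold bp
      linarith
    · rw [← e]
      exact Real.rpow_le_rpow (by positivity) k2 h0.le
    · calc (ap κ n : ℝ) ^ θ ≤ ((2 * (n : ℝ)) ^ κ + 1) ^ θ := Real.rpow_le_rpow (by positivity) k3 h0.le
        _ ≤ ((2 * (n : ℝ)) ^ κ) ^ θ + 1 ^ θ := Real.rpow_add_le_add_rpow (by positivity) zero_le_one h0.le h1.le
        _ = _ := by rw [e, Real.one_rpow]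
  have hlow : Tendsto (fun n : ℕ => Real.log (ap κ n) / Real.log n) atTop (𝓝 κ) := by
    refine tendsto_of_tendsto_of_tendsto_of_le_of_le' (tendsto_affine κ 0) (tendsto_affine κ (κ * Real.log 2 + Real.log 2)) ?_ ?_
    · filter_upwards [hF, tendsto_log.eventually_gt_atTop 0] with n ⟨g1, g2, g3, g4, g5, g6, g7, g8, g9, g10, g11⟩ g12
      have hn : (0 : ℝ) < n := by exact_mod_cast g1
      apply div_le_div_of_nonneg_right _ g12.le
      have h2 := Real.log_le_log (by linarith) g2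
      rw [Real.log_rpow (by positivity), Real.log_mul (by norm_num) hn.ne'] at h2
      have : 0 < κ * Real.log 2 := mul_pos hκ0 (Real.log_pos (by norm_num))
      nlinarith
    · filter_upwards [hF, tendsto_log.eventually_gt_atTop 0] with n ⟨g1, g2, g3, g4, g5, g6, g7, g8, g9, g10, g11⟩ g12
      have hn : (0 : ℝ) < n := by exact_mod_cast g1
      apply div_le_div_of_nonneg_right _ g12.le
      have h3 : (ap κ n : ℝ) ≤ (2 * (n : ℝ)) ^ κ * 2 := by linarith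
      have h2 := Real.log_le_log (by linarith) h3
      rw [Real.log_mul (by positivity) (by norm_num), Real.log_rpow (by positivity), Real.log_mul (by norm_num) hn.ne'] at h2
      linarith
  refine ⟨hκ0, ?_, hlow, ?_, ?_, ?_⟩
  · filter_upwards [hF] with n ⟨g1, g2, g3, g4, g5, g6, g7, g8, g9, g10, g11⟩
    exact_mod_cast g7
  · have h2 : Tendsto (fun n : ℕ => Real.log (ap κ n) / Real.log n + Real.log 2 / Real.log n) atTop (𝓝 (κ + 0)) :=
      hlow.add (tendsto_log.const_div_atTop _)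
    rw [add_zero] at h2
    refine tendsto_of_tendsto_of_tendsto_of_le_of_le' hlow h2 ?_ ?_
    · filter_upwards [hF, tendsto_log.eventually_gt_atTop 0] with n ⟨g1, g2, g3, g4, g5, g6, g7, g8, g9, g10, g11⟩ g12
      exact div_le_div_of_nonneg_right (Real.log_le_log (by linarith) g7) g12.le
    · filter_upwards [hF, tendsto_log.eventually_gt_atTop 0] with n ⟨g1, g2, g3, g4, g5, g6, g7, g8, g9, g10, g11⟩ g12
      rw [← add_div]
      apply div_le_div_of_nonneg_right _ g12.le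
      have h3 : (ap κ n : ℝ) ^ θ ≤ ap κ n := by
        calc (ap κ n : ℝ) ^ θ ≤ (ap κ n : ℝ) ^ (1 : ℝ) := Real.rpow_le_rpow_of_exponent_le g6 h1.le
          _ = _ := Real.rpow_one _
      have h4 : (bp θ κ n : ℝ) ≤ ap κ n * 2 := by linarith
      have h5 := Real.log_le_log (by linarith) h4
      rwa [Real.log_mul (by linarith) (by norm_num)] at h5
  · have hsm := (isLittleO_log_rpow_rpow_atTop 3 (show (0 : ℝ) < κ - 1 by linarith)).bound (show (0 : ℝ) < 1 / 2 by norm_num)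
    refine tendsto_atTop_mono' _ ?_ tendsto_log
    filter_upwards [hF, tendsto_natCast_atTop_atTop.eventually hsm, tendsto_log.eventually_gt_atTop 0] with n ⟨g1, g2, g3, g4, g5, g6, g7, g8, g9, g10, g11⟩ g12 g13
    rw [Real.norm_eq_abs, Real.norm_eq_abs, abs_of_nonneg (by positivity), abs_of_nonneg (by positivity)] at g12
    have e3 : Real.log (n : ℝ) ^ (3 : ℝ) = Real.log (n : ℝ) ^ 3 := by
      rw [← Real.rpow_natCast]
      norm_num
    rw [e3] at g12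
    have hn : (0 : ℝ) < n := by exact_mod_cast g1
    have h3 : (n : ℝ) ^ (κ - 1) ≤ (2 * (n : ℝ)) ^ (κ - 1) := Real.rpow_le_rpow hn.le (by linarith) (by linarith)
    rw [le_div_iff₀ (by positivity)]
    calc Real.log (n : ℝ) * Real.log (n : ℝ) ^ 2 = Real.log (n : ℝ) ^ 3 := by ring
      _ ≤ _ := by linarith
  · filter_upwards [hF] with n ⟨g1, g2, g3, g4, g5, g6, g7, g8, g9, g10, g11⟩
    have hn : (0 : ℝ) < n := by exact_mod_cast g1
    have hB : (2 * (n : ℝ)) ^ κ + 2 * κ * (2 * (n : ℝ)) ^ (κ - 1) ≤ (2 * ((n + 1 : ℕ) : ℝ)) ^ κ := by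
      have h3 := one_add_mul_self_le_rpow_one_add (s := 1 / (n : ℝ)) (by
        have : 0 < 1 / (n : ℝ) := by positivity
        linarith) hκ1.le
      have h4 : (2 * ((n + 1 : ℕ) : ℝ)) ^ κ = (2 * (n : ℝ)) ^ κ * (1 + 1 / (n : ℝ)) ^ κ := by
        rw [← Real.mul_rpow (by positivity) (by positivity)]
        congr 1
        push_cast
        field_simp
      have h5 : (2 * (n : ℝ)) ^ κ * (κ * (1 / n)) = 2 * κ * (2 * (n : ℝ)) ^ (κ - 1) := by
        rw [Real.rpow_sub_one (by positivity)]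
        field_simp
      rw [h4, ← h5]
      have h6 := mul_le_mul_of_nonneg_left h3 (show 0 ≤ (2 * (n : ℝ)) ^ κ by positivity)
      linarith
    have h7 : (bp θ κ n : ℝ) ≤ ap κ (n + 1) := by
      have h8 : (2 * ((n + 1 : ℕ) : ℝ)) ^ κ ≤ ap κ (n + 1) := Nat.le_ceil _
      nlinarith
    exact_mod_cast h7

/-- sharpness at the scale `x^θ` -/
theorem low_pow (hA : ∀ n, MeasurableSet[ℱ n] (A n)) {W : ℕ} (hW : 0 < W)
    (hd : ∀ᵐ ω ∂μ, ∀ ε : ℝ, 0 < ε → ∀ᶠ n : ℕ in atTop, |dens μ ℱ A n ω - rhoW W (n + 1)| ≤ ε * rhoW W (n + 1))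
    {θ : ℝ} (h0 : 0 < θ) (h1 : θ < 1) :
    ∀ᵐ ω ∂μ, ∀ ε : ℝ, 0 < ε → ∃ᶠ n : ℕ in atTop,
      √((n : ℝ) ^ θ) * (√(2 * (1 - θ)) - ε) ≤ CS μ ℱ A (Finset.Ioc n ⌊(n : ℝ) + (n : ℝ) ^ θ⌋₊) ω := by
  filter_upwards [wd_law (μ := μ) (ℱ := ℱ) hA hW hd (wd_pow h0 h1)] with ω hω ε hε
  set κ := 1 / (1 - θ) with hκd
  have hκ1 : 1 < κ := by
    rw [hκd, lt_div_iff₀ (by linarith)]
    linarith
  set η : ℝ := min (ε / 8) (1 / 2) with hη
  have hη0 : 0 < η := lt_min (by positivity) (by norm_num)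
  have hη1 : η ≤ 1 / 2 := min_le_right _ _
  have hηε : η ≤ ε / 8 := min_le_left _ _
  have h2 := (hω η hη0).2
  rw [frequently_atTop]
  intro N
  have hA3 : Tendsto (fun n : ℕ => (ap κ n : ℝ) ^ θ) atTop atTop := by
    refine (tendsto_rpow_atTop h0).comp ?_
    refine tendsto_atTop_mono (fun n => Nat.le_ceil _) ?_
    exact (tendsto_rpow_atTop (by linarith)).comp (tendsto_natCast_atTop_atTop.const_mul_atTop (by norm_num))
  have hA4 : Tendsto (fun n : ℕ => ap κ n) atTop atTop := by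
    have : Tendsto (fun n : ℕ => (ap κ n : ℝ)) atTop atTop := by
      refine tendsto_atTop_mono (fun n => Nat.le_ceil _) ?_
      exact (tendsto_rpow_atTop (by linarith)).comp (tendsto_natCast_atTop_atTop.const_mul_atTop (by norm_num))
    exact tendsto_natCast_atTop_iff.1 this
  obtain ⟨n₀, hn₀⟩ := eventually_atTop.1 ((hA4.eventually_ge_atTop N).and (hA3.eventually_ge_atTop (1 / η)))
  have h2j : Tendsto (fun j : ℕ => 2 ^ j) atTop atTop := tendsto_pow_atTop_atTop_of_one_lt (by norm_num)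
  obtain ⟨j, ⟨n, hn1, hn2, hn3⟩, hj⟩ := (h2.and (h2j.eventually_ge_atTop n₀)).exists
  obtain ⟨g1, g8⟩ := hn₀ n (hj.trans hn1.le)
  refine ⟨ap κ n, g1, ?_⟩
  have e : Finset.Ioc (ap κ n) ⌊(ap κ n : ℝ) + (ap κ n : ℝ) ^ θ⌋₊ = Finset.Ioc (ap κ n) (bp θ κ n) := rfl
  rw [e]
  refine le_trans ?_ hn3
  set H := (ap κ n : ℝ) ^ θ with hH
  have hH0 : 0 < H := lt_of_lt_of_le (by positivity) g8
  have h2κ : 2 / κ = 2 * (1 - θ) := by
    rw [hκd]
    have : 1 - θ ≠ 0 := by linarith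
    field_simp
  have hY0 : 0 ≤ 2 * (1 - θ) := by linarith
  have k1 : (1 - η) * √(2 * (1 - θ) * H) ≤ √(2 / κ * ((bp θ κ n : ℝ) - ap κ n)) := by
    apply Real.le_sqrt_of_sq_le
    rw [mul_pow, Real.sq_sqrt (by positivity), h2κ]
    rw [div_le_iff₀ hη0] at g8
    have h3 : (1 - η) ^ 2 * H ≤ (1 - η) * H := mul_le_mul_of_nonneg_right (by nlinarith) (by positivity)
    have h4 : (ap κ n : ℝ) + H - 1 ≤ bp θ κ n := by
      have := Nat.lt_floor_add_one ((ap κ n : ℝ) + H)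
      unfold bp
      rw [← hH]
      linarith
    have h5 : (1 - η) ^ 2 * H ≤ (bp θ κ n : ℝ) - ap κ n := by linarith
    calc (1 - η) ^ 2 * (2 * (1 - θ) * H) = 2 * (1 - θ) * ((1 - η) ^ 2 * H) := by ring
      _ ≤ _ := mul_le_mul_of_nonneg_left h5 hY0
  have k2 := mul_le_mul_of_nonneg_left k1 (show 0 ≤ 1 - η by linarith)
  refine le_trans ?_ k2
  rw [Real.sqrt_mul hY0]
  set Y := √(2 * (1 - θ)) with hY
  have hY2 : Y ≤ 2 := by
    rw [hY, Real.sqrt_le_left (by norm_num)]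
    linarith
  have hYn : 0 ≤ Y := Real.sqrt_nonneg _
  have hsH : 0 ≤ √H := Real.sqrt_nonneg _
  have h6 : Y - ε ≤ (1 - η) * (1 - η) * Y := by
    have a1 : η * Y ≤ η * 2 := mul_le_mul_of_nonneg_left hY2 hη0.le
    have a2 : 0 ≤ η * η * Y := by positivity
    have a3 : (1 - η) * (1 - η) * Y = Y - 2 * (η * Y) + η * η * Y := by ring
    rw [a3]
    linarith
  calc √H * (Y - ε) ≤ √H * ((1 - η) * (1 - η) * Y) := mul_le_mul_of_nonneg_left h6 hsH
    _ = (1 - η) * ((1 - η) * (Y * √H)) := by ring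

/-- the sum of the profile, uniformly -/
lemma vR_unif {W : ℕ} (hW : 0 < W) {s : ℝ} (hs : 0 < s) {ε : ℝ} (hε : 0 < ε) :
    ∀ᶠ x : ℝ in atTop, ∀ y : ℝ, Real.log x ^ s ≤ y → y ≤ x →
      |vR W (Finset.Ioc ⌊x⌋₊ ⌊x + y⌋₊) - y / Real.log x| ≤ ε * (y / Real.log x) := by
  set η : ℝ := min (ε / 4) (1 / 4) with hη
  have hη0 : 0 < η := lt_min (by positivity) (by norm_num)
  have hη1 : η ≤ 1 / 4 := min_le_right _ _
  have hηε : η ≤ ε / 4 := min_le_left _ _
  have hl : Tendsto Real.log atTop atTop := Real.tendsto_log_atTop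
  have hls : Tendsto (fun x : ℝ => Real.log x ^ s) atTop atTop := (tendsto_rpow_atTop hs).comp hl
  filter_upwards [eventually_ge_atTop (4 : ℝ), hl.eventually_ge_atTop (1 + (W : ℝ) / Nat.totient W), hl.eventually_ge_atTop (1 / η),
    hls.eventually_ge_atTop ((2 * W + 1) / η)] with x g1 g2 g3 g4 y hy1 hy2
  have hφ : (0 : ℝ) < (W : ℝ) / Nat.totient W := by
    have h1 : (0 : ℝ) < Nat.totient W := by exact_mod_cast Nat.totient_pos.2 hW
    have h2 : (0 : ℝ) < W := by exact_mod_cast hW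
    positivity
  have hW0 : (0 : ℝ) < W := by exact_mod_cast hW
  have hx0 : (0 : ℝ) < x := by linarith
  set L := Real.log x with hL
  have hL1 : 1 ≤ L := by linarith
  have hy0 : (2 * W + 1) / η ≤ y := g4.trans hy1
  rw [div_le_iff₀ hη0] at hy0
  rw [div_le_iff₀ hη0] at g3
  have hyp : 0 < y := by nlinarith
  obtain ⟨e1, e2, e3⟩ := jj_spec (x := x) (h := y) hx0.le hyp.le
  have hf1 := Nat.floor_le hx0.le
  have hf2 := Nat.lt_floor_add_one x
  have hf3 : x / 2 ≤ (⌊x⌋₊ : ℝ) := by linarith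
  have hn0 : (0 : ℝ) < (⌊x⌋₊ : ℝ) := by linarith
  have hl2 : Real.log 2 ≤ 1 := by
    have := Real.log_two_lt_d9
    linarith
  have l1 : L - 1 ≤ Real.log (⌊x⌋₊ : ℝ) := by
    have h1 := Real.log_le_log (by positivity) hf3
    rw [Real.log_div hx0.ne' (by norm_num)] at h1
    linarith
  have hb1 : (⌊x + y⌋₊ : ℝ) ≤ x * 2 := (Nat.floor_le (by linarith)).trans (by linarith)
  have hsl : (⌊x⌋₊ : ℕ) ≤ ⌊x + y⌋₊ := by omega
  have h0 : (0 : ℝ) < (⌊x + y⌋₊ : ℝ) := lt_of_lt_of_le hn0 (by exact_mod_cast hsl)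
  have l2 : Real.log (⌊x + y⌋₊ : ℝ) ≤ L + 1 := by
    have h1 := Real.log_le_log h0 hb1
    rw [Real.log_mul hx0.ne' (by norm_num)] at h1
    linarith
  have hL4 : 4 ≤ L := by nlinarith
  have hln : 0 < Real.log (⌊x⌋₊ : ℝ) := by linarith
  have hlb : 0 < Real.log (⌊x + y⌋₊ : ℝ) := lt_of_lt_of_le hln (Real.log_le_log hn0 (by exact_mod_cast hsl))
  have hs1 : 1 ≤ ⌊x⌋₊ := Nat.le_floor (by push_cast; linarith)
  have key := rho_cls1 (W := W) (q := 1) (a := 0) (s := ⌊x⌋₊) (t := ⌊x + y⌋₊) hW one_pos (zero_mem_adm_one W) hsl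
    (by linarith) hs1
  rw [adm_one, ← vR_cls] at key
  push_cast at key
  have hjj : ((⌊x + y⌋₊ : ℕ) : ℝ) - (⌊x⌋₊ : ℕ) = jj x y := by
    rw [← e1]
    push_cast
    ring
  rw [hjj] at key
  simp only [one_mul] at key
  obtain ⟨key1, key2⟩ := key
  set V := vR W (Finset.Ioc ⌊x⌋₊ ⌊x + y⌋₊) with hV
  have hyL : 0 < y / L := by positivity
  have hge : (1 - 2 * η) * (y / L) ≤ V := by
    refine le_trans ?_ key1
    rw [le_div_iff₀ hlb]
    have h1 : (1 - 2 * η) * (y / L) * Real.log (⌊x + y⌋₊ : ℝ) ≤ (1 - 2 * η) * (y / L) * (L + 1) :=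
      mul_le_mul_of_nonneg_left l2 (mul_nonneg (by linarith) hyL.le)
    have h2 : (y / L) * (L + 1) = y + y / L := by field_simp
    have h3 : y / L ≤ η * y := by
      rw [div_le_iff₀ (by linarith)]
      nlinarith
    have h4 : (1 - 2 * η) * (y / L) * (L + 1) = (1 - 2 * η) * (y + y / L) := by rw [mul_assoc, h2]
    rw [h4] at h1
    nlinarith
  have hle : V ≤ (1 + 3 * η) * (y / L) := by
    refine key2.trans ?_
    rw [div_le_iff₀ hln]
    have h1 : (1 + 3 * η) * (y / L) * (L - 1) ≤ (1 + 3 * η) * (y / L) * Real.log (⌊x⌋₊ : ℝ) :=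
      mul_le_mul_of_nonneg_left l1 (mul_nonneg (by linarith) hyL.le)
    have h2 : (y / L) * (L - 1) = y - y / L := by field_simp
    have h3 : y / L ≤ η * y := by
      rw [div_le_iff₀ (by linarith)]
      nlinarith
    have h4 : (1 + 3 * η) * (y / L) * (L - 1) = (1 + 3 * η) * (y - y / L) := by rw [mul_assoc, h2]
    rw [h4] at h1
    nlinarith
  rw [abs_le]
  constructor
  · nlinarith
  · nlinarith

end Pool.Agent.R529.SM
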